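import Pool.Agent.Lib.MP_ae5b4e_an_LL.Lim
import Pool.Agent.Lib.MP_1f4a82_an.Plane

/-!
# MP_ae5b4e_an, NB_3 section N5 (global argument): definitions

Text: /team-store/POR_NB_3_FINAL_h98.md, section N5 with (I1), (I2), and /team-store/POR_MASTER.md
(I-N5), and the docstrings of this folder.
`v` is the function `h - h_F` (upper height); `w = v + |Im|` is nonnegative, subharmonic and equal
to `v` on the reals.  Everything except `Conv` and `Fin` is about `w`.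
-/

set_option autoImplicit false

noncomputable section

namespace Pool.Agent.MP_ae5b4e_an_N5

open Complex Set Filter Topology Metric
open Real (circleAverage)
open Pool.Agent.Lib.MP_ae5b4e_an_LL (SubH)
open scoped ComplexConjugate

/-- the maximum over the closed disc -/
def VV (v : ℂ → ℝ) (r : ℝ) : ℝ := sSup (v '' closedBall (0:ℂ) r)

/-- the sine mean `(2 / (π r)) ∫₀^π v (r e^{iθ}) sin θ dθ` for even `v` -/
def AA (v : ℂ → ℝ) (r : ℝ) : ℝ := 2 / r ^ 2 * circleAverage (fun z => v z * |z.im|) 0 r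

/-- the scale `r` is `(η, κ)`-conical -/
def Con (v : ℂ → ℝ) (η κ r : ℝ) : Prop :=
  (∀ ρ : ℂ, r / 4 ≤ ‖ρ‖ → ‖ρ‖ ≤ 4 * r → v ρ ≤ κ * ((1 + η) * |ρ.im| + η * r)) ∧
    |AA v r - κ| ≤ η * κ

/-- interface (N2): no large real values at record scales with a Hoelder fine side -/
def N2 (v : ℂ → ℝ) (r0 β : ℝ) : Prop :=
  ∀ η : ℝ, 0 < η → ∀ C : ℝ, 0 < C → ∃ K : ℝ, 1 ≤ K ∧ ∃ M : ℝ, 0 < M ∧
    ∀ c : ℝ, 0 < c → K * c ≤ r0 → M * c ≤ VV v c →
      (∀ r, c ≤ r → r ≤ K * c → VV v r ≤ C * (r / c) * VV v c) →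
      (∀ r, 0 < r → r ≤ c → VV v r ≤ C * (r / c) ^ β * VV v c) → v (c : ℂ) < η * VV v c

/-- interface (N4): long conical intervals have small real values, and are not too long -/
def N4 (v : ℂ → ℝ) (r0 : ℝ) : Prop :=
  ∃ η : ℝ, 0 < η ∧ ∃ a : ℝ, 0 < a ∧ ∃ C₄ : ℝ, 0 < C₄ ∧ ∃ M : ℝ, ∀ rf re κ : ℝ, 0 < rf → rf ≤ re →
    re ≤ r0 → M ≤ κ → (∀ r, rf ≤ r → r ≤ re → Con v η κ r) →
    (∀ r, rf ≤ r → r ≤ re → v (r : ℂ) ≤ C₄ * r * (1 + κ * ((r / re) ^ a + (rf / r) ^ a))) ∧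
      Real.log (re / rf) ≤ C₄ * Real.log κ

/-- the standing assumptions on `w` (extended to the whole plane) -/
structure NW (w : ℂ → ℝ) (R' C0 : ℝ) : Prop where
  usc : UpperSemicontinuous w
  sub : SubH w (ball 0 R')
  nonneg : ∀ z, 0 ≤ w z
  even : ∀ z, w (-z) = w z
  zero : w 0 = 0
  up : ∀ z, w z ≤ C0

/-- the standing assumptions on `v = h - h_F` -/
structure NV (v : ℂ → ℝ) (R' C0 : ℝ) : Prop where
  sub : SubH v (ball 0 R')
  low : ∀ z ∈ ball (0:ℂ) R', -|z.im| ≤ v z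
  even : ∀ z ∈ ball (0:ℂ) R', v (-z) = v z
  zero : v 0 = 0
  up : ∀ z ∈ ball (0:ℂ) R', v z ≤ C0

/-- `r` is a record scale with record `κ` (scales below `r0`) -/
structure Rec (w : ℂ → ℝ) (r0 β κ r : ℝ) : Prop where
  pos : 0 < r
  le : r ≤ r0
  eq : VV w r = κ * r
  bd : ∀ s, 0 < s → s ≤ r0 → VV w s ≤ κ * max s r
  fine : ∀ s, 0 < s → s ≤ r → VV w s ≤ κ * r * (s / r) ^ β

/-- nonnegative subharmonic functions on the disc of radius `R` which vanish below the reals -/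
structure ZZ (Z : ℂ → ℝ) (R' : ℝ) : Prop where
  sub : SubH Z (ball 0 R')
  nonneg : ∀ z, 0 ≤ Z z
  low : ∀ z : ℂ, z.im ≤ 0 → Z z = 0

/-- the sine mean for functions which vanish below the reals -/
def AZ (Z : ℂ → ℝ) (r : ℝ) : ℝ := 4 / r ^ 2 * circleAverage (fun z => Z z * z.im) 0 r

/-- the positive part of `w - b` in the upper half plane -/
def cut (w : ℂ → ℝ) (b : ℝ) (z : ℂ) : ℝ := if 0 < z.im then max (w z - b) 0 else 0

/-- the function in the units `q` (variable) and `κ q` (value) -/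
def sc (w : ℂ → ℝ) (q κ : ℝ) (z : ℂ) : ℝ := w ((q:ℂ) * z) / (κ * q)

end Pool.Agent.MP_ae5b4e_an_N5
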