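import Pool.Agent.Lib.MP_ae5b4e_an_N5.Mea

/-!
# N5, module Conv: from `v` to `w = v + |Im|`

`ww v R C z := if ‖z‖ < R then v z + |Im z| else C`.  For `NV v R' C0`, `0 < R < R'`, and
`C := C0 + R` this satisfies `NW (ww v R C) R C`: upper semicontinuity on `ball 0 R` from `SubH`;
outside the ball the value `C` is the maximum.  `SubH`: `|Im z| = max (Im z) (-Im z)`
(`SubH.max`, `SubH.of_harmonic`), `SubH.add` (LL/Int), `SubH.congr`.  `0 ≤ C` since
`0 = v 0 ≤ C0`.
For `0 < r < R` (all functions agree on `closedBall 0 r`, `v` is bounded there):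
* `VV v r ≤ VV w r ≤ VV v r + r`;  `0 ≤ VV v r` (`v 0 = 0`).
* `AA w r = AA v r + 1` (`circleAverage_im_sq`; linearity: `v |Im| = w |Im| - |Im|²` on the circle,
  so it is integrable).
`N2`: given `η, C` for `w`, take `K, M` of (N2) for `v` with `η, 2 C`; new constants `K`,
`M + 1 + 1`.  `w c = v c` on the reals; `VV w c ≥ (M + 2) c` gives `VV v c ≥ (M + 1) c ≥ c`, so
`VV v r ≤ VV w r ≤ C (r / c) VV w c ≤ C (r / c) (VV v c + c) ≤ 2 C (r / c) VV v c`, in the same way
on the fine side; `w c = v c < η VV v c ≤ η VV w c`.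
`N4`: `η / 2`, `a`, `C₄`, `M' := max M 1 + 1`: `Con w (η / 2) κ r` gives `Con v η (κ - 1) r`:
`v ρ = w ρ - |Im ρ| ≤ κ ((1 + η/2) |Im ρ| + (η/2) r) - |Im ρ| ≤ (κ - 1)((1 + η) |Im ρ| + η r)`
(`κ ≥ 2`), `|AA v r - (κ - 1)| = |AA w r - κ| ≤ (η/2) κ ≤ η (κ - 1)`.

-/

set_option autoImplicit false

noncomputable section

namespace Pool.Agent.MP_ae5b4e_an_N5

open Complex Set Filter Topology Metric
open Real (circleAverage)
open Pool.Agent.Lib.MP_ae5b4e_an_LL (SubH LocBdd ulim)
open scoped ComplexConjugate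


variable {v : ℂ → ℝ} {R' C0 R r0 : ℝ}

/-- the extension of `v + |Im|` -/
def ww (v : ℂ → ℝ) (R C : ℝ) (z : ℂ) : ℝ := if ‖z‖ < R then v z + |z.im| else C

private theorem ww_in {R C : ℝ} {z : ℂ} (h : ‖z‖ < R) : ww v R C z = v z + |z.im| := by
  unfold ww
  rw [if_pos h]

private theorem subH_abs_im (U : Set ℂ) : SubH (fun z : ℂ => |z.im|) U := by
  have h1 : SubH (fun z : ℂ => z.im) univ := SubH.of_harmonic isOpen_univ fun z _ =>
    AnalyticAt.harmonicAt_im analyticAt_id
  have h2 : SubH (fun z : ℂ => -z.im) univ := SubH.of_harmonic isOpen_univ fun z _ =>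
    (AnalyticAt.harmonicAt_im analyticAt_id).neg
  exact (h1.max h2).mono (subset_univ U)

private theorem C0_nonneg (hv : NV v R' C0) (hR : 0 < R) (hRR : R < R') : 0 ≤ C0 := by
  have h := hv.up 0 (mem_ball_self (hR.trans hRR))
  rwa [hv.zero] at h

theorem nw_ww (hv : NV v R' C0) (hR : 0 < R) (hRR : R < R') :
    NW (ww v R (C0 + R)) R (C0 + R) := by
  have hC := C0_nonneg hv hR hRR
  have hin : ∀ z : ℂ, ‖z‖ < R → z ∈ ball (0:ℂ) R' := fun z hz =>
    mem_ball_zero_iff.2 (hz.trans hRR)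
  have hup : ∀ z, ww v R (C0 + R) z ≤ C0 + R := by
    intro z
    by_cases h : ‖z‖ < R
    · rw [ww_in h]
      have h1 := hv.up z (hin z h)
      have h2 := Complex.abs_im_le_norm z
      linarith
    · unfold ww
      rw [if_neg h]
  have hsub : SubH (ww v R (C0 + R)) (ball 0 R) := by
    have h1 := SubH.add isOpen_ball (hv.sub.mono (ball_subset_ball hRR.le))
      (subH_abs_im (ball (0:ℂ) R))
    refine h1.congr isOpen_ball fun z hz => ?_
    rw [mem_ball_zero_iff] at hz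
    exact (ww_in hz).symm
  refine ⟨?_, hsub, ?_, ?_, ?_, hup⟩
  · intro z
    by_cases h : ‖z‖ < R
    · have hz : z ∈ ball (0:ℂ) R := mem_ball_zero_iff.2 h
      have h2 := hsub.usc z hz
      intro y hy
      have h3 := h2 y hy
      rwa [isOpen_ball.nhdsWithin_eq hz] at h3
    · intro y hy
      have h1 : ww v R (C0 + R) z = C0 + R := by
        unfold ww
        rw [if_neg h]
      rw [h1] at hy
      exact Eventually.of_forall fun x => lt_of_le_of_lt (hup x) hy
  · intro z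
    by_cases h : ‖z‖ < R
    · rw [ww_in h]
      have h1 := hv.low z (hin z h)
      linarith
    · unfold ww
      rw [if_neg h]
      linarith
  · intro z
    by_cases h : ‖z‖ < R
    · rw [ww_in h, ww_in (by rwa [norm_neg]), hv.even z (hin z h), Complex.neg_im, abs_neg]
    · unfold ww
      rw [if_neg h, if_neg (by rwa [norm_neg])]
  · rw [ww_in (by rwa [norm_zero]), hv.zero]
    simp

private theorem bdd_v (hv : NV v R' C0) (hRR : R < R') {r : ℝ} (hrR : r < R) :
    BddAbove (v '' closedBall (0:ℂ) r) := by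
  refine ⟨C0, ?_⟩
  rintro _ ⟨z, hz, rfl⟩
  rw [mem_closedBall_zero_iff] at hz
  exact hv.up z (mem_ball_zero_iff.2 (by linarith))

private theorem le_VV_v (hv : NV v R' C0) (hRR : R < R') {r : ℝ} (hrR : r < R) {z : ℂ}
    (hz : ‖z‖ ≤ r) : v z ≤ VV v r :=
  le_csSup (bdd_v hv hRR hrR) ⟨z, mem_closedBall_zero_iff.2 hz, rfl⟩

theorem VV_ww_le (hv : NV v R' C0) (hR : 0 < R) (hRR : R < R') {r : ℝ} (hr : 0 < r)
    (hrR : r < R) : VV v r ≤ VV (ww v R (C0 + R)) r ∧ VV (ww v R (C0 + R)) r ≤ VV v r + r ∧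
      0 ≤ VV v r := by
  have hw := nw_ww hv hR hRR
  refine ⟨?_, ?_, ?_⟩
  · refine csSup_le (Set.Nonempty.image _ ⟨0, mem_closedBall_self hr.le⟩) ?_
    rintro _ ⟨z, hz, rfl⟩
    rw [mem_closedBall_zero_iff] at hz
    have h1 := hw.le_VV hz
    rw [ww_in (hz.trans_lt hrR)] at h1
    linarith [abs_nonneg z.im]
  · refine hw.VV_le hr.le fun z hz => ?_
    rw [ww_in (hz.trans_lt hrR)]
    have h1 := le_VV_v hv hRR hrR hz
    have h2 := Complex.abs_im_le_norm z
    linarith
  · have h1 := le_VV_v hv hRR hrR (z := 0) (by rw [norm_zero]; exact hr.le)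
    rwa [hv.zero] at h1

theorem AA_ww (hv : NV v R' C0) (hR : 0 < R) (hRR : R < R') {r : ℝ} (hr : 0 < r)
    (hrR : r < R) : AA (ww v R (C0 + R)) r = AA v r + 1 := by
  have hw := nw_ww hv hR hRR
  have hcont : Continuous fun z : ℂ => |z.im| := by fun_prop
  have i1 : CircleIntegrable (fun z => ww v R (C0 + R) z * |z.im|) 0 r :=
    hw.circleIntegrable_mul hcont r
  have i2 : CircleIntegrable (fun z : ℂ => |z.im| * |z.im|) 0 r :=
    (hcont.mul hcont).continuousOn.circleIntegrable hr.le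
  have h1 : circleAverage (fun z => v z * |z.im|) 0 r =
      circleAverage (fun z => ww v R (C0 + R) z * |z.im| - |z.im| * |z.im|) 0 r := by
    apply Real.circleAverage_congr_sphere
    intro z hz
    rw [abs_of_pos hr, mem_sphere_zero_iff_norm] at hz
    show v z * |z.im| = ww v R (C0 + R) z * |z.im| - |z.im| * |z.im|
    rw [ww_in (by linarith)]
    ring
  unfold AA
  rw [h1, Real.circleAverage_fun_sub i1 i2, circleAverage_im_sq]
  field_simp
  ring

theorem N2_ww {β : ℝ} (hv : NV v R' C0) (hR : 0 < R) (hRR : R < R') (hr0 : 4 * r0 < R)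
    (h : N2 v r0 β) : N2 (ww v R (C0 + R)) r0 β := by
  intro η hη C hC
  obtain ⟨K, hK, M, hM, h1⟩ := h η hη (2 * C) (by positivity)
  refine ⟨K, hK, M + 1 + 1, by positivity, fun c hc hKc hMc hgr hfi => ?_⟩
  have hcK : c ≤ K * c := by nlinarith
  have hr0R : r0 < R := by linarith
  have hcR : c < R := by linarith
  obtain ⟨a1, a2, a3⟩ := VV_ww_le hv hR hRR hc hcR
  have hV : (M + 1) * c ≤ VV v c := by linarith
  have hVM : M * c ≤ VV v c := by linarith
  have hVc : c ≤ VV v c := by nlinarith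
  have h2 := h1 c hc hKc hVM (fun r hcr hrK => by
    have hr : 0 < r := by linarith
    obtain ⟨b1, b2, b3⟩ := VV_ww_le hv hR hRR hr (by linarith : r < R)
    have h3 := hgr r hcr hrK
    have h4 : 0 ≤ C * (r / c) := by positivity
    calc VV v r ≤ VV (ww v R (C0 + R)) r := b1
      _ ≤ C * (r / c) * VV (ww v R (C0 + R)) c := h3
      _ ≤ C * (r / c) * (VV v c + VV v c) := mul_le_mul_of_nonneg_left (by linarith) h4
      _ = 2 * C * (r / c) * VV v c := by ring) (fun r hr hrc => by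
    obtain ⟨b1, b2, b3⟩ := VV_ww_le hv hR hRR hr (by linarith : r < R)
    have h3 := hfi r hr hrc
    have h4 : 0 ≤ C * (r / c) ^ β := by positivity
    calc VV v r ≤ VV (ww v R (C0 + R)) r := b1
      _ ≤ C * (r / c) ^ β * VV (ww v R (C0 + R)) c := h3
      _ ≤ C * (r / c) ^ β * (VV v c + VV v c) := mul_le_mul_of_nonneg_left (by linarith) h4
      _ = 2 * C * (r / c) ^ β * VV v c := by ring)
  have hcn : ‖(c : ℂ)‖ < R := by
    rw [Complex.norm_real, Real.norm_eq_abs, abs_of_pos hc]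
    exact hcR
  rw [ww_in hcn, Complex.ofReal_im, abs_zero, add_zero]
  exact h2.trans_le (mul_le_mul_of_nonneg_left a1 hη.le)

theorem N4_ww (hv : NV v R' C0) (hR : 0 < R) (hRR : R < R') (hr0 : 4 * r0 < R)
    (h : N4 v r0) : N4 (ww v R (C0 + R)) r0 := by
  obtain ⟨η, hη, a, ha, C₄, hC₄, M, hM⟩ := h
  refine ⟨η / 2, by positivity, a, ha, C₄, hC₄, max M 1 + 1, fun rf re κ hrf hrr hre hκM hh => ?_⟩
  have hM1 := le_max_left M 1
  have hM2 := le_max_right M 1
  have hκ2 : 2 ≤ κ := by linarith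
  have hηκ : η / 2 * κ ≤ η * (κ - 1) := by nlinarith
  have hr0R : r0 < R := by linarith
  have key : ∀ r, rf ≤ r → r ≤ re → Con v η (κ - 1) r := by
    intro r h2 h3
    have hr : 0 < r := by linarith
    have hrR : r < R := by linarith
    obtain ⟨c1, c2⟩ := hh r h2 h3
    rw [AA_ww hv hR hRR hr hrR] at c2
    refine ⟨fun ρ hρ1 hρ2 => ?_, ?_⟩
    · have h4 := c1 ρ hρ1 hρ2
      rw [ww_in (by linarith : ‖ρ‖ < R)] at h4
      have h5 : η / 2 * κ * |ρ.im| ≤ η * (κ - 1) * |ρ.im| :=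
        mul_le_mul_of_nonneg_right hηκ (abs_nonneg _)
      have h6 : η / 2 * κ * r ≤ η * (κ - 1) * r := mul_le_mul_of_nonneg_right hηκ hr.le
      calc v ρ ≤ κ * ((1 + η / 2) * |ρ.im| + η / 2 * r) - |ρ.im| := by linarith
        _ = (κ - 1) * |ρ.im| + η / 2 * κ * |ρ.im| + η / 2 * κ * r := by ring
        _ ≤ (κ - 1) * |ρ.im| + η * (κ - 1) * |ρ.im| + η * (κ - 1) * r := by linarith
        _ = (κ - 1) * ((1 + η) * |ρ.im| + η * r) := by ring
    · rw [abs_le] at c2 ⊢
      constructor <;> linarith [c2.1, c2.2]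
  obtain ⟨k1, k2⟩ := hM rf re (κ - 1) hrf hrr hre (by linarith) key
  refine ⟨fun r h2 h3 => ?_, ?_⟩
  · have hr : 0 < r := by linarith
    have hre0 : 0 < re := by linarith
    have hrn : ‖(r : ℂ)‖ < R := by
      rw [Complex.norm_real, Real.norm_eq_abs, abs_of_pos hr]
      linarith
    rw [ww_in hrn, Complex.ofReal_im, abs_zero, add_zero]
    refine (k1 r h2 h3).trans ?_
    have h5 : 0 < C₄ * r := by positivity
    have h6 : 0 ≤ (r / re) ^ a + (rf / r) ^ a := by positivity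
    refine mul_le_mul_of_nonneg_left ?_ h5.le
    have h7 : (κ - 1) * ((r / re) ^ a + (rf / r) ^ a) ≤ κ * ((r / re) ^ a + (rf / r) ^ a) :=
      mul_le_mul_of_nonneg_right (by linarith) h6
    linarith
  · refine k2.trans (mul_le_mul_of_nonneg_left ?_ hC₄.le)
    exact Real.log_le_log (by linarith) (by linarith)

end Pool.Agent.MP_ae5b4e_an_N5
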