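import Pool.Agent.Lib.MP_ae5b4e_an_N5.Main
import Pool.Agent.Lib.MP_ae5b4e_an_N5.Conv

/-!
# N5, module Fin: the theorem N5

Proof. (N2) and (N4) are monotone in `r0` (`N2.mono`, `N4.mono`), so we may assume `32 r0 < R'`,
and use `R := R' / 2`, `n5w` for `ww v R (C0 + R)`, and `VV v r ≤ VV (ww ..) r`.

-/

set_option autoImplicit false

noncomputable section

namespace Pool.Agent.MP_ae5b4e_an_N5

open Complex Set Filter Topology Metric
open Real (circleAverage)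
open Pool.Agent.Lib.MP_ae5b4e_an_LL (SubH LocBdd ulim)
open scoped ComplexConjugate


theorem N2.mono {v : ℂ → ℝ} {r0 r1 β : ℝ} (h : N2 v r0 β) (hr : r1 ≤ r0) : N2 v r1 β := by
  intro η hη C hC
  obtain ⟨K, hK, M, hM, h⟩ := h η hη C hC
  exact ⟨K, hK, M, hM, fun c hc h1 => h c hc (h1.trans hr)⟩

theorem N4.mono {v : ℂ → ℝ} {r0 r1 : ℝ} (h : N4 v r0) (hr : r1 ≤ r0) : N4 v r1 := by
  obtain ⟨η, h0, a, ha, C₄, hC, M, h⟩ := h
  exact ⟨η, h0, a, ha, C₄, hC, M, fun rf re κ h3 h4 h5 => h rf re κ h3 h4 (h5.trans hr)⟩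

/-- **Theorem N5** -/
theorem n5 {v : ℂ → ℝ} {R' C0 r0 β δ C r₁ : ℝ} (hv : NV v R' C0) (hR : 0 < R') (hr0 : 0 < r0)
    (hβ : 0 < β) (hβδ : β < δ) (hδ : δ ≤ 1) (hr₁ : 0 < r₁)
    (hup : ∀ r, 0 < r → r < r₁ → VV v r ≤ C * r ^ δ)
    (h2 : N2 v r0 β) (h4 : N4 v r0) : ∃ M r1, 0 < r1 ∧ ∀ r, 0 < r → r < r1 → VV v r ≤ M * r := by
  set r2 : ℝ := min r0 (R' / 64) with hr2
  have h1 : 0 < r2 := lt_min hr0 (by positivity)
  have h3 : r2 ≤ R' / 64 := min_le_right _ _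
  have hRh : 0 < R' / 2 := by positivity
  have hRR : R' / 2 < R' := by linarith
  have h5 : 8 * r2 < R' / 2 := by linarith
  have h6 : 4 * r2 < R' / 2 := by linarith
  have h7 : 0 < min (min r₁ 1) (R' / 2) := lt_min (lt_min hr₁ one_pos) hRh
  obtain ⟨M, r1, hr1, h⟩ := n5w (C := C + 1) (nw_ww hv hRh hRR) h1 h5 hβ hβδ hδ h7
    (fun r ha hb => by
      have hb1 : r < r₁ := hb.trans_le ((min_le_left _ _).trans (min_le_left _ _))
      have hb2 : r < 1 := hb.trans_le ((min_le_left _ _).trans (min_le_right _ _))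
      have hb3 : r < R' / 2 := hb.trans_le (min_le_right _ _)
      have hb4 : r ≤ r ^ δ := by
        calc r = r ^ (1:ℝ) := (Real.rpow_one _).symm
          _ ≤ r ^ δ := Real.rpow_le_rpow_of_exponent_ge ha hb2.le hδ
      have hb5 := (VV_ww_le hv hRh hRR ha hb3).2.1
      have hb6 := hup r ha hb1
      linarith)
    (N2_ww hv hRh hRR h6 (h2.mono (min_le_left _ _)))
    (N4_ww hv hRh hRR h6 (h4.mono (min_le_left _ _)))
  refine ⟨M, min r1 (R' / 2), lt_min hr1 hRh, fun r hr hr' => ?_⟩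
  exact (VV_ww_le hv hRh hRR hr (lt_of_lt_of_le hr' (min_le_right _ _))).1.trans
    (h r hr (lt_of_lt_of_le hr' (min_le_left _ _)))

end Pool.Agent.MP_ae5b4e_an_N5
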