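import Pool.Agent.Lib.MP_ae5b4e_an_N5.Defs

/-!
# N5, module Bas: elementary facts about `VV`

`w` is bounded above by `C0`, so all the suprema are of bounded nonempty sets (`0 ≤ r`).
`exists_VV`: `w` attains its maximum over the compact sphere (`UpperSemicontinuousOn.exists_isMaxOn`),
say `w z₁ = M`; `SubH.le_dirichlet` with the constant `u = M` gives `w ≤ M` on the closed disc
(`closedBall 0 r ⊆ ball 0 R'`), hence `VV w r ≤ M = w z₁ ≤ VV w r`.

-/

set_option autoImplicit false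

noncomputable section

namespace Pool.Agent.MP_ae5b4e_an_N5

open Complex Set Filter Topology Metric
open Real (circleAverage)
open Pool.Agent.Lib.MP_ae5b4e_an_LL (SubH LocBdd ulim)
open scoped ComplexConjugate


variable {w : ℂ → ℝ} {R' C0 r s b : ℝ}

theorem NW.mono (hw : NW w R' C0) {R : ℝ} (h : R ≤ R') : NW w R C0 :=
  ⟨hw.usc, hw.sub.mono (ball_subset_ball h), hw.nonneg, hw.even, hw.zero, hw.up⟩

theorem NW.le_VV (hw : NW w R' C0) {z : ℂ} (hz : ‖z‖ ≤ r) : w z ≤ VV w r := by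
  unfold VV
  refine le_csSup ⟨C0, ?_⟩ ⟨z, ?_, rfl⟩
  · rintro _ ⟨y, -, rfl⟩
    exact hw.up y
  · rw [mem_closedBall_zero_iff]
    exact hz

theorem NW.VV_nonneg (hw : NW w R' C0) (hr : 0 ≤ r) : 0 ≤ VV w r := by
  exact (hw.nonneg 0).trans (hw.le_VV (z := 0) (by rwa [norm_zero]))

theorem NW.VV_le (hw : NW w R' C0) (hr : 0 ≤ r) (h : ∀ z, ‖z‖ ≤ r → w z ≤ b) : VV w r ≤ b := by
  unfold VV
  refine csSup_le ⟨w 0, 0, mem_closedBall_self hr, rfl⟩ ?_
  rintro _ ⟨y, hy, rfl⟩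
  exact h y (mem_closedBall_zero_iff.mp hy)

theorem NW.VV_mono (hw : NW w R' C0) (hr : 0 ≤ r) (hrs : r ≤ s) : VV w r ≤ VV w s := by
  exact hw.VV_le hr fun z hz => hw.le_VV (hz.trans hrs)

theorem NW.VV_le_C0 (hw : NW w R' C0) (hr : 0 ≤ r) : VV w r ≤ C0 := by
  exact hw.VV_le hr fun z _ => hw.up z

theorem NW.exists_VV (hw : NW w R' C0) (hr : 0 < r) (hR : r < R') :
    ∃ z : ℂ, ‖z‖ = r ∧ w z = VV w r := by
  have hne : (sphere (0:ℂ) r).Nonempty := NormedSpace.sphere_nonempty.mpr hr.le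
  obtain ⟨z₁, hz₁, hmax⟩ := UpperSemicontinuousOn.exists_isMaxOn hne (isCompact_sphere (0:ℂ) r)
    (hw.usc.upperSemicontinuousOn _)
  rw [mem_sphere_zero_iff_norm] at hz₁
  refine ⟨z₁, hz₁, le_antisymm (hw.le_VV hz₁.le) ?_⟩
  refine hw.VV_le hr.le fun z hz => ?_
  have hsub : SubH w (ball 0 r) := hw.sub.mono (ball_subset_ball hR.le)
  exact hsub.le_dirichlet (u := fun _ => w z₁) (hw.usc.upperSemicontinuousOn _)
    continuousOn_const (fun z _ => InnerProductSpace.harmonicAt_const (w z₁))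
    (fun z hz => hmax hz) z (mem_closedBall_zero_iff.mpr hz)

theorem NW.VV_le_of_sphere (hw : NW w R' C0) (hr : 0 < r) (hR : r < R')
    (h : ∀ z : ℂ, ‖z‖ = r → w z ≤ b) : VV w r ≤ b := by
  obtain ⟨z, hz, hz'⟩ := hw.exists_VV hr hR
  rw [← hz']
  exact h z hz

end Pool.Agent.MP_ae5b4e_an_N5
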