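import Pool.Agent.Lib.MP_ae5b4e_an_N5.Bas

/-!
# N5, module Cut: from `w` to `cut w b`

`cut w b z = (w z - b)⁺` for `Im z > 0` and `0` for `Im z ≤ 0`.  If `w x ≤ b` for the real `x`,
`|x| < S ≤ R'`, this is subharmonic on `ball 0 S`.

Proof. Upper semicontinuity: clear at `z` with `Im z ≠ 0`; at a real `x`: given `ε > 0`,
`w < b + ε` near `x`, so `cut w b < ε` near `x`.  Sub mean value inequality: if `cut w b z = 0`
it is clear (`cut ≥ 0`, so every continuous majorant on a circle is `≥ 0`); if `cut w b z > 0` then
`Im z > 0` and on small discs `cut w b = max (w - b) 0`, which is subharmonic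
(`SubH.max`, `SubH.add_const`, `SubH.const`); or use `SubH.of_local`.
`AA_le`: by evenness `AA w r = AZ w⁺ r`, `w⁺ z = w z` for `Im z > 0` and `0` otherwise
(`circleAverage (w |Im|) = 2 circleAverage (w max(Im, 0))`: substitute `z ↦ -z`), and
`w z Im z ≤ cut w b z Im z + b Im z` for `Im z > 0`, `circleAverage (max (Im, 0)) ≤ r / 2`
(indeed it is `r / π`; it is `circleAverage |Im| / 2 ≤ r / 2`).
`AZ_le`: `cut w b ≤ w` for `Im z > 0` since `w, b ≥ 0`.

-/

set_option autoImplicit false

noncomputable section

namespace Pool.Agent.MP_ae5b4e_an_N5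

open Complex Set Filter Topology Metric
open Real (circleAverage)
open Pool.Agent.Lib.MP_ae5b4e_an_LL (SubH LocBdd ulim)
open scoped ComplexConjugate


variable {w : ℂ → ℝ} {R' C0 r S b : ℝ}

private theorem cut_nonneg (w : ℂ → ℝ) (b : ℝ) (z : ℂ) : 0 ≤ cut w b z := by
  unfold cut
  split_ifs
  · exact le_max_right _ _
  · exact le_rfl

private theorem cut_pos_im (w : ℂ → ℝ) (b : ℝ) {z : ℂ} (hz : 0 < z.im) :
    cut w b z = max (w z - b) 0 := by
  unfold cut
  rw [if_pos hz]

private theorem cut_low (w : ℂ → ℝ) (b : ℝ) {z : ℂ} (hz : z.im ≤ 0) : cut w b z = 0 := by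
  unfold cut
  rw [if_neg (not_lt.2 hz)]

private theorem cut_meas (hw : Measurable w) (b : ℝ) : Measurable (cut w b) := by
  unfold cut
  exact Measurable.ite (measurableSet_lt measurable_const Complex.measurable_im)
    ((hw.sub_const b).max measurable_const) measurable_const

private theorem circ_int {f : ℂ → ℝ} (hf : Measurable f) {C : ℝ}
    (hC : ∀ z : ℂ, ‖z‖ = r → |f z| ≤ C) (hr : 0 < r) : CircleIntegrable f 0 r := by
  unfold CircleIntegrable
  refine (intervalIntegrable_const (c := C)).mono_fun' ?_ ?_
  · exact (hf.comp (continuous_circleMap 0 r).measurable).aestronglyMeasurable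
  · refine Filter.Eventually.of_forall fun θ => ?_
    beta_reduce
    rw [Real.norm_eq_abs]
    apply hC
    rw [norm_circleMap_zero, abs_of_pos hr]

private theorem ca_neg (f : ℂ → ℝ) (r : ℝ) :
    circleAverage (fun z => f (-z)) 0 r = circleAverage f 0 r := by
  rw [← Real.circleAverage_neg_radius (f := f), Real.circleAverage_def, Real.circleAverage_def]
  congr 1
  apply intervalIntegral.integral_congr
  intro θ _
  change f (-(circleMap 0 r θ)) = f (circleMap 0 (-r) θ)
  congr 1
  simp [circleMap]

private theorem abs_im_le' {z : ℂ} (hz : ‖z‖ = r) : |z.im| ≤ r := hz ▸ Complex.abs_im_le_norm z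

private theorem max_im_le {z : ℂ} (hz : ‖z‖ = r) (hr : 0 < r) : |max z.im 0| ≤ r := by
  rw [abs_of_nonneg (le_max_right _ _)]
  exact max_le ((le_abs_self _).trans (abs_im_le' hz)) hr.le

private theorem w_bd (hw : NW w R' C0) (z : ℂ) : |w z| ≤ C0 := by
  rw [abs_of_nonneg (hw.nonneg z)]
  exact hw.up z

private theorem int_wmax (hw : NW w R' C0) (hr : 0 < r) :
    CircleIntegrable (fun z => w z * max z.im 0) 0 r := by
  have hC : 0 ≤ C0 := (hw.nonneg 0).trans (hw.up 0)
  refine circ_int (C := C0 * r) (hw.usc.measurable.mul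
    (Complex.measurable_im.max measurable_const)) (fun z hz => ?_) hr
  rw [abs_mul]
  exact mul_le_mul (w_bd hw z) (max_im_le hz hr) (abs_nonneg _) hC

private theorem int_wmax' (hw : NW w R' C0) (hr : 0 < r) :
    CircleIntegrable (fun z => w z * max (-z.im) 0) 0 r := by
  have hC : 0 ≤ C0 := (hw.nonneg 0).trans (hw.up 0)
  refine circ_int (C := C0 * r) (hw.usc.measurable.mul
    (Complex.measurable_im.neg.max measurable_const)) (fun z hz => ?_) hr
  rw [abs_mul]
  refine mul_le_mul (w_bd hw z) ?_ (abs_nonneg _) hC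
  have h1 : ‖-z‖ = r := by rw [norm_neg]; exact hz
  have h2 := max_im_le h1 hr
  rwa [Complex.neg_im] at h2

private theorem AA_eq (hw : NW w R' C0) (hr : 0 < r) :
    AA w r = 4 / r ^ 2 * circleAverage (fun z => w z * max z.im 0) 0 r := by
  have h1 : (fun z : ℂ => w z * |z.im|) =
      fun z : ℂ => w z * max z.im 0 + w z * max (-z.im) 0 := by
    funext z
    rw [← mul_add]
    congr 1
    rcases le_total 0 z.im with h | h
    · rw [abs_of_nonneg h, max_eq_left h, max_eq_right (by linarith), add_zero]
    · rw [abs_of_nonpos h, max_eq_right h, max_eq_left (by linarith), zero_add]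
  have h2 : circleAverage (fun z : ℂ => w z * max (-z.im) 0) 0 r =
      circleAverage (fun z : ℂ => w z * max z.im 0) 0 r := by
    rw [← ca_neg (fun z : ℂ => w z * max z.im 0)]
    congr 1
    funext z
    rw [hw.even, Complex.neg_im]
  unfold AA
  rw [h1, Real.circleAverage_fun_add (int_wmax hw hr) (int_wmax' hw hr), h2]
  ring

private theorem cut_le_w (hw : NW w R' C0) (hb : 0 ≤ b) (z : ℂ) : cut w b z ≤ w z := by
  unfold cut
  split_ifs
  · exact max_le (by linarith) (hw.nonneg z)
  · exact hw.nonneg z

private theorem int_cut (hw : NW w R' C0) (hr : 0 < r) (hb : 0 ≤ b) :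
    CircleIntegrable (fun z => cut w b z * z.im) 0 r := by
  have hC : 0 ≤ C0 := (hw.nonneg 0).trans (hw.up 0)
  refine circ_int (C := C0 * r) ((cut_meas hw.usc.measurable b).mul
    Complex.measurable_im) (fun z hz => ?_) hr
  rw [abs_mul, abs_of_nonneg (cut_nonneg w b z)]
  exact mul_le_mul ((cut_le_w hw hb z).trans (hw.up z)) (abs_im_le' hz) (abs_nonneg _) hC

private theorem int_max (hr : 0 < r) : CircleIntegrable (fun z : ℂ => max z.im 0) 0 r :=
  circ_int (Complex.measurable_im.max measurable_const) (fun _ hz => max_im_le hz hr) hr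

private theorem ca_max_le (hr : 0 < r) :
    circleAverage (fun z : ℂ => max z.im 0) 0 r ≤ r / 2 := by
  have h2 : circleAverage (fun z : ℂ => max (-z.im) 0) 0 r =
      circleAverage (fun z : ℂ => max z.im 0) 0 r := by
    rw [← ca_neg (fun z : ℂ => max z.im 0)]
    congr 1
  have hi : CircleIntegrable (fun z : ℂ => max (-z.im) 0) 0 r := by
    refine circ_int (C := r) (Complex.measurable_im.neg.max measurable_const)
      (fun z hz => ?_) hr
    have h1 : ‖-z‖ = r := by rw [norm_neg]; exact hz
    have h2 := max_im_le h1 hr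
    rwa [Complex.neg_im] at h2
  have h3 := Real.circleAverage_fun_add (int_max hr) hi
  have h4 : circleAverage (fun z : ℂ => max z.im 0 + max (-z.im) 0) 0 r ≤ r := by
    have h5 : circleAverage (fun z : ℂ => max z.im 0 + max (-z.im) 0) 0 r ≤
        circleAverage (fun _ : ℂ => r) 0 r := by
      refine Real.circleAverage_mono ((int_max hr).add hi)
        (continuousOn_const.circleIntegrable hr.le) fun z hz => ?_
      rw [abs_of_pos hr, mem_sphere_zero_iff_norm] at hz
      have h6 := abs_im_le' hz
      beta_reduce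
      rcases le_total 0 z.im with h | h
      · rw [max_eq_left h, max_eq_right (by linarith), add_zero]
        exact (le_abs_self _).trans h6
      · rw [max_eq_right h, max_eq_left (by linarith), zero_add]
        exact (neg_le_abs _).trans h6
    rwa [Real.circleAverage_const] at h5
  rw [h3, h2] at h4
  linarith

theorem NW.zz (hw : NW w R' C0) (hS : 0 < S) (hSR : S ≤ R') (hb : 0 ≤ b)
    (h : ∀ x : ℝ, |x| < S → w x ≤ b) : ZZ (cut w b) S := by
  refine ⟨⟨?_, ?_⟩, cut_nonneg w b, fun z hz => cut_low w b hz⟩
  · intro z hz y hy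
    have hy0 : 0 < y := lt_of_le_of_lt (cut_nonneg w b z) hy
    have key : w z < y + b → ∀ᶠ z' in 𝓝[ball 0 S] z, cut w b z' < y := by
      intro h1
      have h2 := hw.usc z (y + b) h1
      filter_upwards [h2.filter_mono nhdsWithin_le_nhds] with z' hz'
      unfold cut
      split_ifs
      · exact max_lt (by linarith) hy0
      · exact hy0
    rcases lt_trichotomy z.im 0 with h0 | h0 | h0
    · have h1 : ∀ᶠ z' : ℂ in 𝓝 z, z'.im < 0 :=
        Complex.continuous_im.continuousAt.eventually_lt continuousAt_const h0
      filter_upwards [h1.filter_mono nhdsWithin_le_nhds] with z' hz'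
      rw [cut_low w b hz'.le]
      exact hy0
    · apply key
      have hzr : z = ((z.re : ℝ) : ℂ) := Complex.ext (by simp) (by simp [h0])
      have h1 : |z.re| < S :=
        lt_of_le_of_lt (Complex.abs_re_le_norm z) (mem_ball_zero_iff.1 hz)
      have h2 := h z.re h1
      rw [← hzr] at h2
      linarith
    · apply key
      rw [cut_pos_im w b h0] at hy
      have := lt_of_le_of_lt (le_max_left _ _) hy
      linarith
  · intro c hc
    by_cases h0 : cut w b c = 0
    · filter_upwards [self_mem_nhdsWithin] with r hr g _ hg2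
      rw [h0]
      refine Real.circleAverage_nonneg_of_nonneg fun z hz => ?_
      rw [abs_of_pos (show 0 < r from hr)] at hz
      exact (cut_nonneg w b z).trans (hg2 z hz)
    · have him : 0 < c.im := by
        by_contra h1
        exact h0 (cut_low w b (not_lt.1 h1))
      have hF : SubH (fun z => max (w z + -b) 0) (ball 0 R') :=
        (hw.sub.add_const (-b)).max (SubH.const 0 _)
      have hU : {z : ℂ | 0 < z.im} ∈ 𝓝 c :=
        (isOpen_lt continuous_const Complex.continuous_im).mem_nhds him
      filter_upwards [hF.mean c (ball_subset_ball hSR hc),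
        Pool.Agent.Lib.MP_ae5b4e_an_LL.eventually_closedBall_subset hU] with r h1 h2 g hg1 hg2
      have h3 := h1 g hg1 fun z hz => by
        have h4 := hg2 z hz
        rw [cut_pos_im w b (h2.2 (sphere_subset_closedBall hz))] at h4
        rwa [← sub_eq_add_neg]
      rw [cut_pos_im w b him, sub_eq_add_neg]
      exact h3

theorem NW.AA_le_AZ (hw : NW w R' C0) (hr : 0 < r) (hb : 0 ≤ b) :
    AA w r ≤ AZ (cut w b) r + 2 * b / r := by
  rw [AA_eq hw hr]
  unfold AZ
  have h1 : circleAverage (fun z => w z * max z.im 0) 0 r ≤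
      circleAverage (fun z => cut w b z * z.im + b * max z.im 0) 0 r := by
    have hbm : CircleIntegrable (fun z : ℂ => b * max z.im 0) 0 r := by
      refine circ_int (C := b * r) ((Complex.measurable_im.max measurable_const).const_mul b)
        (fun z hz => ?_) hr
      rw [abs_mul, abs_of_nonneg hb]
      exact mul_le_mul_of_nonneg_left (max_im_le hz hr) hb
    refine Real.circleAverage_mono (int_wmax hw hr) ((int_cut hw hr hb).add hbm) fun z _ => ?_
    beta_reduce
    rcases lt_or_ge 0 z.im with h | h
    · rw [max_eq_left h.le, cut_pos_im w b h, ← add_mul]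
      refine mul_le_mul_of_nonneg_right ?_ h.le
      have := le_max_left (w z - b) 0
      linarith
    · rw [max_eq_right h, cut_low w b h]
      simp
  have hbm : CircleIntegrable (fun z : ℂ => b * max z.im 0) 0 r := by
    refine circ_int (C := b * r) ((Complex.measurable_im.max measurable_const).const_mul b)
      (fun z hz => ?_) hr
    rw [abs_mul, abs_of_nonneg hb]
    exact mul_le_mul_of_nonneg_left (max_im_le hz hr) hb
  rw [Real.circleAverage_fun_add (int_cut hw hr hb) hbm] at h1
  have h2 : circleAverage (fun z : ℂ => b * max z.im 0) 0 r =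
      b * circleAverage (fun z : ℂ => max z.im 0) 0 r := by
    have := Real.circleAverage_fun_smul (a := b) (f := fun z : ℂ => max z.im 0) (c := 0) (R := r)
    simpa [smul_eq_mul] using this
  rw [h2] at h1
  have h3 := mul_le_mul_of_nonneg_left (ca_max_le hr) hb
  have h4 : circleAverage (fun z => w z * max z.im 0) 0 r ≤
      circleAverage (fun z => cut w b z * z.im) 0 r + b * (r / 2) := by linarith
  have h5 := mul_le_mul_of_nonneg_left h4 (show 0 ≤ 4 / r ^ 2 by positivity)
  refine h5.trans (le_of_eq ?_)
  field_simp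
  ring

theorem NW.AZ_le_AA (hw : NW w R' C0) (hr : 0 < r) (hb : 0 ≤ b) : AZ (cut w b) r ≤ AA w r := by
  rw [AA_eq hw hr]
  unfold AZ
  refine mul_le_mul_of_nonneg_left ?_ (by positivity)
  refine Real.circleAverage_mono (int_cut hw hr hb) (int_wmax hw hr) fun z _ => ?_
  beta_reduce
  rcases lt_or_ge 0 z.im with h | h
  · rw [max_eq_left h.le]
    exact mul_le_mul_of_nonneg_right (cut_le_w hw hb z) h.le
  · rw [max_eq_right h, cut_low w b h, zero_mul, mul_zero]

end Pool.Agent.MP_ae5b4e_an_N5
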