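import Pool.Agent.Lib.MP_ae5b4e_an_N5.Bas

/-!
# N5, module Mea: elementary facts about `AA`

`w` is upper semicontinuous (hence Borel measurable) and `0 ≤ w ≤ C0`, so all the integrals exist.
* `circleIntegrable_mul`: `θ ↦ w (circleMap 0 r θ) * φ (circleMap 0 r θ)` is measurable and bounded
  on the compact interval.
* `circleAverage_im_sq`: `circleAverage` of `(Im z)²` on the circle of radius `r` is `r² / 2`
  (`integral_sin_sq`), also `r = 0`.
* `AA_le_lin`: integrate `w z |Im z| ≤ κ |Im z|² + b |Im z|` and `|Im z| ≤ r`: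
  `AA ≤ (2 / r²)(κ r² / 2 + b r)`.
* `AA_le_VV`: the case `κ = 0`, `b = VV w r`.

-/

set_option autoImplicit false

noncomputable section

namespace Pool.Agent.MP_ae5b4e_an_N5

open Complex Set Filter Topology Metric
open Real (circleAverage)
open Pool.Agent.Lib.MP_ae5b4e_an_LL (SubH LocBdd ulim)
open scoped ComplexConjugate


variable {w : ℂ → ℝ} {R' C0 r b κ : ℝ}

theorem NW.circleIntegrable_mul (hw : NW w R' C0) {φ : ℂ → ℝ} (hφ : Continuous φ) (r : ℝ) :
    CircleIntegrable (fun z => w z * φ z) 0 r := by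
  have hc : Continuous (circleMap (0:ℂ) r) := continuous_circleMap 0 r
  have hm : Measurable (fun θ : ℝ => w (circleMap 0 r θ) * φ (circleMap 0 r θ)) :=
    (hw.usc.measurable.comp hc.measurable).mul (hφ.comp hc).measurable
  have hg : Continuous (fun θ : ℝ => C0 * |φ (circleMap 0 r θ)|) :=
    continuous_const.mul (hφ.comp hc).abs
  refine IntervalIntegrable.mono_fun' (hg.intervalIntegrable _ _) hm.aestronglyMeasurable
    (Filter.Eventually.of_forall fun θ => ?_)
  show ‖w (circleMap 0 r θ) * φ (circleMap 0 r θ)‖ ≤ C0 * |φ (circleMap 0 r θ)|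
  rw [norm_mul, Real.norm_eq_abs, Real.norm_eq_abs, abs_of_nonneg (hw.nonneg _)]
  exact mul_le_mul_of_nonneg_right (hw.up _) (abs_nonneg _)

theorem circleAverage_im_sq (r : ℝ) :
    circleAverage (fun z : ℂ => |z.im| * |z.im|) 0 r = r ^ 2 / 2 := by
  have e : ∀ θ : ℝ, |(circleMap (0:ℂ) r θ).im| * |(circleMap (0:ℂ) r θ).im| =
      r ^ 2 * Real.sin θ ^ 2 := by
    intro θ
    have h1 : (circleMap (0:ℂ) r θ).im = r * Real.sin θ := by
      simp [circleMap, Complex.exp_ofReal_mul_I_im]
    rw [abs_mul_abs_self, h1]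
    ring
  rw [Real.circleAverage]
  simp only [e]
  rw [intervalIntegral.integral_const_mul, integral_sin_sq]
  have hpi := Real.pi_ne_zero
  simp only [Real.sin_zero, Real.cos_zero, Real.sin_two_pi, Real.cos_two_pi, smul_eq_mul]
  field_simp
  ring

theorem NW.AA_nonneg (hw : NW w R' C0) (r : ℝ) : 0 ≤ AA w r := by
  unfold AA
  refine mul_nonneg (by positivity) ?_
  exact Real.circleAverage_nonneg_of_nonneg fun x _ => mul_nonneg (hw.nonneg x) (abs_nonneg _)

theorem NW.AA_le_lin (hw : NW w R' C0) (hr : 0 < r) (hκ : 0 ≤ κ) (hb : 0 ≤ b)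
    (h : ∀ z : ℂ, ‖z‖ = r → w z ≤ κ * |z.im| + b) : AA w r ≤ κ + 2 * b / r := by
  have him : Continuous fun z : ℂ => |z.im| := Complex.continuous_im.abs
  have i1 : CircleIntegrable (fun z => w z * |z.im|) 0 r := hw.circleIntegrable_mul him r
  have i2 : CircleIntegrable (fun z : ℂ => κ * (|z.im| * |z.im|)) 0 r :=
    (continuous_const.mul (him.mul him)).continuousOn.circleIntegrable'
  have i3 : CircleIntegrable (fun _ : ℂ => b * r) 0 r :=
    continuous_const.continuousOn.circleIntegrable'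
  have h1 : circleAverage (fun z => w z * |z.im|) 0 r ≤
      circleAverage (fun z : ℂ => κ * (|z.im| * |z.im|) + b * r) 0 r := by
    refine Real.circleAverage_mono i1 (i2.add i3) fun z hz => ?_
    have hz' : ‖z‖ = r := by
      rw [mem_sphere_zero_iff_norm, abs_of_pos hr] at hz
      exact hz
    have h2 := mul_le_mul_of_nonneg_right (h z hz') (abs_nonneg z.im)
    have h3 : b * |z.im| ≤ b * r :=
      mul_le_mul_of_nonneg_left ((Complex.abs_im_le_norm z).trans hz'.le) hb
    show w z * |z.im| ≤ κ * (|z.im| * |z.im|) + b * r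
    linarith
  have h2 : circleAverage (fun z : ℂ => κ * (|z.im| * |z.im|) + b * r) 0 r =
      κ * (r ^ 2 / 2) + b * r := by
    rw [Real.circleAverage_fun_add i2 i3, Real.circleAverage_const]
    have h3 : circleAverage (fun z : ℂ => κ * (|z.im| * |z.im|)) 0 r =
        κ • circleAverage (fun z : ℂ => |z.im| * |z.im|) 0 r :=
      Real.circleAverage_fun_smul (a := κ) (f := fun z : ℂ => |z.im| * |z.im|)
    rw [h3, circleAverage_im_sq, smul_eq_mul]
  unfold AA
  rw [h2] at h1
  calc 2 / r ^ 2 * circleAverage (fun z => w z * |z.im|) 0 r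
      ≤ 2 / r ^ 2 * (κ * (r ^ 2 / 2) + b * r) := mul_le_mul_of_nonneg_left h1 (by positivity)
    _ = κ + 2 * b / r := by
      field_simp

theorem NW.AA_le_VV (hw : NW w R' C0) (hr : 0 < r) : AA w r ≤ 2 * (VV w r / r) := by
  have h1 := hw.AA_le_lin (κ := 0) (b := VV w r) hr le_rfl (hw.VV_nonneg hr.le) fun z hz => by
    have := hw.le_VV hz.le
    linarith
  rw [zero_add, mul_div_assoc] at h1
  exact h1

end Pool.Agent.MP_ae5b4e_an_N5
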