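import Pool.Agent.Lib.MP_ae5b4e_an_N5.T1

/-!
# N5, module T2: the sine mean is monotone

`AZ Z r ≤ AZ Z R` for `0 < r < R < R'`.

Proof. Put `F ρ := pint Z 0 R ρ - pint Z 0 R (conj ρ)` for `‖ρ‖ < R`; `F (conj ρ) = - F ρ`.
For all `‖ρ‖ = r`:  `Z ρ · Im ρ + Z (conj ρ) · Im (conj ρ) ≤ F ρ · Im ρ`
(if `Im ρ ≥ 0` the second term vanishes and the first is `≤` by `ZZ.odd_poisson`; if `Im ρ < 0`
apply this to `conj ρ`).  The average over the circle is invariant under `conj`
(`circleMap 0 r (-θ) = conj (circleMap 0 r θ)` and periodicity), so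
`2 avg (Z Im) ≤ avg (F Im) = 2 avg (pint Z 0 R ρ · Im ρ)`.
Fubini (`Z` is integrable on the circle of radius `R`, the kernel is continuous and bounded):
`avg_ρ (pint Z 0 R ρ · Im ρ) = avg_ζ (Z ζ · avg_ρ (P(ρ,ζ) Im ρ))`.  With `ρ = r ξ`, `ζ = R η`,
`|ξ| = |η| = 1`: `P(ρ,ζ) = (R² - r²) / |R η - r ξ|² = (R² - r²) / |R ξ - r η|² = P(r η, R ξ)`, so
`avg_ρ (P(ρ,ζ) Im ρ) = (r / R) avg_{ζ'} (P(r η, ζ') Im ζ') = (r / R) Im (r η) = (r² / R²) Im ζ`
(Poisson formula for the harmonic function `Im`, e.g. `dir`/`SubH` uniqueness or Mathlib's Poisson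
integral formula).  Hence `avg_r (Z Im) ≤ (r² / R²) avg_R (Z Im)`.

-/

set_option autoImplicit false

noncomputable section

namespace Pool.Agent.MP_ae5b4e_an_N5

open Complex Set Filter Topology Metric
open Real (circleAverage)
open Pool.Agent.Lib.MP_ae5b4e_an_LL (SubH LocBdd ulim)
open scoped ComplexConjugate


variable {Z : ℂ → ℝ} {R' R r : ℝ}

/-- the Poisson kernel in polar coordinates -/
private def kk (R r θ φ : ℝ) : ℝ :=
  (R ^ 2 - r ^ 2) / (R ^ 2 + r ^ 2 - 2 * R * r * Real.cos (θ - φ))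

private theorem kk_den {R r : ℝ} (hr : 0 < r) (hrR : r < R) (x : ℝ) :
    (R - r) ^ 2 ≤ R ^ 2 + r ^ 2 - 2 * R * r * Real.cos x := by
  have h1 := Real.cos_le_one x
  have h2 : 0 ≤ 2 * R * r * (1 - Real.cos x) := by
    have : 0 < R := by linarith
    have : 0 ≤ 1 - Real.cos x := by linarith
    positivity
  nlinarith

private theorem kk_symm (R r θ φ : ℝ) : kk R r θ φ = kk R r φ θ := by
  unfold kk
  rw [← Real.cos_neg (θ - φ), neg_sub]

private theorem kk_per (R r θ φ : ℝ) : kk R r (θ + 2 * Real.pi) φ = kk R r θ φ := by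
  unfold kk
  have : θ + 2 * Real.pi - φ = θ - φ + 2 * Real.pi := by ring
  rw [this, Real.cos_add_two_pi]

private theorem kk_cont {R r : ℝ} (hr : 0 < r) (hrR : r < R) :
    Continuous fun q : ℝ × ℝ => kk R r q.1 q.2 := by
  unfold kk
  refine Continuous.div (by fun_prop) (by fun_prop) fun q => ?_
  have h1 := kk_den hr hrR (q.1 - q.2)
  have h2 : 0 < (R - r) ^ 2 := by
    have : 0 < R - r := by linarith
    positivity
  linarith

private theorem kk_bd {R r : ℝ} (hr : 0 < r) (hrR : r < R) (θ φ : ℝ) :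
    |kk R r θ φ| ≤ (R ^ 2 - r ^ 2) / (R - r) ^ 2 := by
  have h1 := kk_den hr hrR (θ - φ)
  have h0 : 0 < R - r := by linarith
  have h2 : 0 < (R - r) ^ 2 := by positivity
  have h3 : 0 ≤ R ^ 2 - r ^ 2 := by nlinarith
  unfold kk
  rw [abs_of_nonneg (div_nonneg h3 (by linarith))]
  exact div_le_div_of_nonneg_left h3 h2 h1

private theorem cm_re (R θ : ℝ) : (circleMap 0 R θ).re = R * Real.cos θ := by
  simp [circleMap, Complex.exp_ofReal_mul_I_re]

private theorem cm_im (R θ : ℝ) : (circleMap 0 R θ).im = R * Real.sin θ := by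
  simp [circleMap, Complex.exp_ofReal_mul_I_im]

private theorem cm_conj (R θ : ℝ) : circleMap 0 R (-θ) = conj (circleMap 0 R θ) := by
  apply Complex.ext
  · rw [cm_re, Complex.conj_re, cm_re, Real.cos_neg]
  · rw [cm_im, Complex.conj_im, cm_im, Real.sin_neg, mul_neg]

private theorem pk_eq {R r : ℝ} (hr : 0 < r) (hrR : r < R) (θ φ : ℝ) :
    poissonKernel 0 (circleMap 0 r θ) (circleMap 0 R φ) = kk R r θ φ := by
  have hR : 0 < R := by linarith
  unfold poissonKernel kk
  have h1 : ‖circleMap 0 R φ‖ = R := by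
    rw [norm_circleMap_zero, abs_of_pos hR]
  have h2 : ‖circleMap 0 r θ‖ = r := by
    rw [norm_circleMap_zero, abs_of_pos hr]
  have h3 : ‖circleMap 0 R φ - circleMap 0 r θ‖ ^ 2 =
      R ^ 2 + r ^ 2 - 2 * R * r * Real.cos (θ - φ) := by
    rw [Complex.sq_norm, Complex.normSq_apply, Complex.sub_re, Complex.sub_im, cm_re, cm_re,
      cm_im, cm_im, Real.cos_sub]
    have e1 := Real.sin_sq_add_cos_sq θ
    have e2 := Real.sin_sq_add_cos_sq φ
    linear_combination R ^ 2 * e2 + r ^ 2 * e1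
  rw [sub_zero, sub_zero, h1, h2, h3]

open Pool.Agent.Lib.MP_1f4a82_an (pint) in
private theorem pint_eq {R r : ℝ} (hr : 0 < r) (hrR : r < R) (g : ℂ → ℝ) (θ : ℝ) :
    pint g 0 R (circleMap 0 r θ) =
      (2 * Real.pi)⁻¹ * ∫ φ in (0 : ℝ)..(2 * Real.pi), kk R r θ φ * g (circleMap 0 R φ) := by
  unfold pint
  rw [Real.circleAverage_def, smul_eq_mul]
  congr 1
  refine intervalIntegral.integral_congr fun φ _ => ?_
  show poissonKernel 0 (circleMap 0 r θ) (circleMap 0 R φ) * g (circleMap 0 R φ) = _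
  rw [pk_eq hr hrR]

private theorem int_neg {h : ℝ → ℝ} (hp : Function.Periodic h (2 * Real.pi)) :
    ∫ θ in (0 : ℝ)..(2 * Real.pi), h (-θ) = ∫ θ in (0 : ℝ)..(2 * Real.pi), h θ := by
  rw [intervalIntegral.integral_comp_neg, neg_zero]
  have h1 := hp.intervalIntegral_add_eq (-(2 * Real.pi)) 0
  rw [neg_add_cancel, zero_add] at h1
  exact h1

/-- the average of the kernel against the sine -/
private theorem kk_sin {R r : ℝ} (hr : 0 < r) (hrR : r < R) (φ : ℝ) :
    ∫ θ in (0 : ℝ)..(2 * Real.pi), kk R r θ φ * (r * Real.sin θ) =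
      2 * Real.pi * (r ^ 2 / R ^ 2) * (R * Real.sin φ) := by
  have hR : 0 < R := by linarith
  have hπ : 0 < 2 * Real.pi := by positivity
  have h1 := pint_eq hr hrR (fun z => z.im) φ
  have hb : circleMap 0 r φ ∈ ball (0 : ℂ) R := by
    rw [mem_ball, dist_zero_right, norm_circleMap_zero, abs_of_pos hr]
    exact hrR
  have h2 : Pool.Agent.Lib.MP_1f4a82_an.pint (fun z => z.im) 0 R (circleMap 0 r φ) =
      (circleMap 0 r φ).im := by
    refine InnerProductSpace.HarmonicOnNhd.circleAverage_poissonKernel_smul ?_ hb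
    intro z _
    exact (analyticAt_id (𝕜 := ℂ) (z := z)).harmonicAt_im
  rw [h2, cm_im] at h1
  have h3 : ∫ θ in (0 : ℝ)..(2 * Real.pi), kk R r φ θ * (circleMap 0 R θ).im =
      2 * Real.pi * (r * Real.sin φ) := by
    rw [h1]
    field_simp
  have h4 : ∫ θ in (0 : ℝ)..(2 * Real.pi), kk R r θ φ * (r * Real.sin θ) =
      (r / R) * ∫ θ in (0 : ℝ)..(2 * Real.pi), kk R r φ θ * (circleMap 0 R θ).im := by
    rw [← intervalIntegral.integral_const_mul]
    refine intervalIntegral.integral_congr fun θ _ => ?_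
    show kk R r θ φ * (r * Real.sin θ) = r / R * (kk R r φ θ * (circleMap 0 R θ).im)
    rw [cm_im, kk_symm R r θ φ]
    field_simp
  rw [h4, h3]
  field_simp

theorem ZZ.AZ_mono (hZ : ZZ Z R') (hr : 0 < r) (hrR : r < R) (hRR : R < R') :
    AZ Z r ≤ AZ Z R := by
  have hR : 0 < R := hr.trans hrR
  have hπ : (0 : ℝ) ≤ 2 * Real.pi := by positivity
  have hπ0 : (0 : ℝ) < 2 * Real.pi := by positivity
  set μ : MeasureTheory.Measure ℝ := MeasureTheory.volume.restrict (Ioc 0 (2 * Real.pi)) with hμ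
  set z : ℝ → ℝ := fun φ => Z (circleMap 0 R φ) with hz
  have hzint : MeasureTheory.Integrable z μ := by
    have h1 := hZ.circleIntegrable hR hRR
    exact (intervalIntegrable_iff_integrableOn_Ioc_of_le hπ).1 h1
  have hprod : MeasureTheory.Integrable
      (fun q : ℝ × ℝ => kk R r q.1 q.2 * (r * Real.sin q.1) * (1 * z q.2)) (μ.prod μ) := by
    have h1 : MeasureTheory.Integrable (fun q : ℝ × ℝ => (1 : ℝ) * z q.2) (μ.prod μ) :=
      (MeasureTheory.integrable_const (1 : ℝ)).mul_prod hzint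
    refine h1.bdd_mul (c := (R ^ 2 - r ^ 2) / (R - r) ^ 2 * r) ?_ ?_
    · exact ((kk_cont hr hrR).mul (by fun_prop)).aestronglyMeasurable
    · refine Filter.Eventually.of_forall fun q => ?_
      rw [Real.norm_eq_abs, abs_mul]
      refine mul_le_mul (kk_bd hr hrR _ _) ?_ (abs_nonneg _) ?_
      · rw [abs_mul, abs_of_pos hr]
        exact mul_le_of_le_one_right hr.le (Real.abs_sin_le_one _)
      · exact (abs_nonneg _).trans (kk_bd hr hrR 0 0)
  set a : ℝ → ℝ := fun θ => ∫ φ in (0 : ℝ)..(2 * Real.pi), kk R r θ φ * z φ with ha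
  have hH : ∀ θ, ∫ φ, kk R r θ φ * (r * Real.sin θ) * (1 * z φ) ∂μ = a θ * (r * Real.sin θ) := by
    intro θ
    rw [ha]
    simp only
    rw [intervalIntegral.integral_of_le hπ, ← MeasureTheory.integral_mul_const]
    refine MeasureTheory.integral_congr_ae (Filter.Eventually.of_forall fun φ => ?_)
    simp only
    ring
  have hHint : IntervalIntegrable (fun θ => a θ * (r * Real.sin θ)) MeasureTheory.volume 0
      (2 * Real.pi) := by
    rw [intervalIntegrable_iff_integrableOn_Ioc_of_le hπ]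
    have h1 := hprod.integral_prod_left
    simp only [hH] at h1
    exact h1
  have hswap : ∫ θ in (0 : ℝ)..(2 * Real.pi), a θ * (r * Real.sin θ) =
      2 * Real.pi * (r ^ 2 / R ^ 2) *
        ∫ φ in (0 : ℝ)..(2 * Real.pi), z φ * (R * Real.sin φ) := by
    rw [intervalIntegral.integral_of_le hπ]
    have h1 := MeasureTheory.integral_integral_swap (μ := μ) (ν := μ)
      (f := fun θ φ => kk R r θ φ * (r * Real.sin θ) * (1 * z φ)) hprod
    simp only [hH] at h1
    refine h1.trans ?_
    rw [← intervalIntegral.integral_const_mul, intervalIntegral.integral_of_le hπ]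
    refine MeasureTheory.integral_congr_ae (Filter.Eventually.of_forall fun φ => ?_)
    simp only
    have h2 := kk_sin hr hrR φ
    rw [intervalIntegral.integral_of_le hπ] at h2
    rw [MeasureTheory.integral_mul_const, h2]
    ring
  set g : ℝ → ℝ := fun θ => Z (circleMap 0 r θ) * (circleMap 0 r θ).im with hg
  have hgint : IntervalIntegrable g MeasureTheory.volume 0 (2 * Real.pi) := by
    have h1 := hZ.circleIntegrable hr (hrR.trans hRR)
    refine IntervalIntegrable.mul_continuousOn h1 ?_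
    exact (Complex.continuous_im.comp (continuous_circleMap 0 r)).continuousOn
  have hgper : Function.Periodic g (2 * Real.pi) := by
    intro θ
    simp only [hg, periodic_circleMap 0 r θ]
  have hHper : Function.Periodic (fun θ => a θ * (r * Real.sin θ)) (2 * Real.pi) := by
    intro θ
    simp only [ha, kk_per, Real.sin_add_two_pi]
  have hball : ∀ θ, ‖circleMap 0 r θ‖ < R := fun θ => by
    rw [norm_circleMap_zero, abs_of_pos hr]
    exact hrR
  have hpt : ∀ θ, g θ + g (-θ) ≤
      (2 * Real.pi)⁻¹ * (a θ * (r * Real.sin θ) + a (-θ) * (r * Real.sin (-θ))) := by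
    have key : ∀ θ, 0 ≤ Real.sin θ → g θ + g (-θ) ≤
        (2 * Real.pi)⁻¹ * (a θ * (r * Real.sin θ) + a (-θ) * (r * Real.sin (-θ))) := by
      intro θ hθ
      have hi : 0 ≤ (circleMap 0 r θ).im := by
        rw [cm_im]
        positivity
      have h1 := hZ.odd_poisson hR hRR (hball θ) hi
      rw [← cm_conj, pint_eq hr hrR, pint_eq hr hrR] at h1
      have h2 : Z (circleMap 0 r (-θ)) = 0 := by
        apply hZ.low
        rw [cm_im, Real.sin_neg]
        nlinarith
      have h3 : g (-θ) = 0 := by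
        simp only [hg, h2, zero_mul]
      rw [h3, add_zero]
      have h4 := mul_le_mul_of_nonneg_right h1 hi
      have h5 : g θ = Z (circleMap 0 r θ) * (circleMap 0 r θ).im := rfl
      rw [h5]
      refine h4.trans (le_of_eq ?_)
      rw [cm_im, Real.sin_neg]
      simp only [ha, hz]
      ring
    intro θ
    rcases le_total 0 (Real.sin θ) with h | h
    · exact key θ h
    · have h1 := key (-θ) (by rw [Real.sin_neg]; linarith)
      rw [neg_neg] at h1
      linarith
  have hint1 : IntervalIntegrable (fun θ => g (-θ)) MeasureTheory.volume 0 (2 * Real.pi) := by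
    have h1 : IntervalIntegrable g MeasureTheory.volume (-(2 * Real.pi)) (-0) := by
      have h2 := hgper.intervalIntegrable (t := 0) hπ0.ne' (by simpa using hgint)
        (-(2 * Real.pi)) (-0)
      exact h2
    have h3 := h1.comp_sub_left 0
    simpa using h3.symm
  have hint2 : IntervalIntegrable (fun θ => a (-θ) * (r * Real.sin (-θ)))
      MeasureTheory.volume 0 (2 * Real.pi) := by
    have h1 : IntervalIntegrable (fun θ => a θ * (r * Real.sin θ)) MeasureTheory.volume
        (-(2 * Real.pi)) (-0) := by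
      have h2 := hHper.intervalIntegrable (t := 0) hπ0.ne' (by simpa using hHint)
        (-(2 * Real.pi)) (-0)
      exact h2
    have h3 := h1.comp_sub_left 0
    simpa using h3.symm
  have hmain := intervalIntegral.integral_mono hπ (hgint.add hint1)
    ((hHint.add hint2).const_mul (2 * Real.pi)⁻¹) (fun θ => hpt θ)
  rw [intervalIntegral.integral_add hgint hint1, intervalIntegral.integral_const_mul,
    intervalIntegral.integral_add hHint hint2, int_neg hgper, int_neg hHper, hswap] at hmain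
  have hfin : ∫ θ in (0 : ℝ)..(2 * Real.pi), g θ ≤
      r ^ 2 / R ^ 2 * ∫ φ in (0 : ℝ)..(2 * Real.pi), z φ * (R * Real.sin φ) := by
    have e1 : (2 * Real.pi)⁻¹ * (2 * Real.pi * (r ^ 2 / R ^ 2) *
        (∫ φ in (0 : ℝ)..(2 * Real.pi), z φ * (R * Real.sin φ)) + 2 * Real.pi * (r ^ 2 / R ^ 2) *
        ∫ φ in (0 : ℝ)..(2 * Real.pi), z φ * (R * Real.sin φ)) = 2 * (r ^ 2 / R ^ 2 *
        ∫ φ in (0 : ℝ)..(2 * Real.pi), z φ * (R * Real.sin φ)) := by
      field_simp
      ring
    rw [e1] at hmain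
    linarith
  unfold AZ
  rw [Real.circleAverage_def, Real.circleAverage_def, smul_eq_mul, smul_eq_mul]
  have e2 : ∫ θ in (0 : ℝ)..(2 * Real.pi), Z (circleMap 0 R θ) * (circleMap 0 R θ).im =
      ∫ φ in (0 : ℝ)..(2 * Real.pi), z φ * (R * Real.sin φ) := by
    refine intervalIntegral.integral_congr fun θ _ => ?_
    simp only [hz, cm_im]
  rw [e2]
  set Q : ℝ := ∫ φ in (0 : ℝ)..(2 * Real.pi), z φ * (R * Real.sin φ) with hQ
  have e3 : 4 / R ^ 2 * ((2 * Real.pi)⁻¹ * Q) =
      4 / r ^ 2 * ((2 * Real.pi)⁻¹ * (r ^ 2 / R ^ 2 * Q)) := by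
    field_simp
  rw [e3]
  refine mul_le_mul_of_nonneg_left ?_ (by positivity)
  exact mul_le_mul_of_nonneg_left hfin (by positivity)

end Pool.Agent.MP_ae5b4e_an_N5
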