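import Pool.Agent.Lib.MP_ae5b4e_an_N5.T1k
import Pool.Agent.Lib.MP_ae5b4e_an_N5.T2
import Pool.Agent.Lib.MP_ae5b4e_an_N5.Cut
import Pool.Agent.Lib.MP_ae5b4e_an_N5.Mea

/-!
# N5, module Dr: drift and the bound near the centre for `w`

Both follow from `NW.zz` (radius `S`), `ZZ.AZ_mono`, `ZZ.near`, `NW.AA_le_AZ`, `NW.AZ_le_AA`.
For `near` and `Im ρ > 0`: `w ρ ≤ b + cut w b ρ`; `Im ρ < 0`: evenness; `Im ρ = 0`: `w ρ ≤ b` by
the hypothesis (`‖ρ‖ ≤ δ R < S`).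

-/

set_option autoImplicit false

noncomputable section

namespace Pool.Agent.MP_ae5b4e_an_N5

open Complex Set Filter Topology Metric
open Real (circleAverage)
open Pool.Agent.Lib.MP_ae5b4e_an_LL (SubH LocBdd ulim)
open scoped ComplexConjugate


variable {w : ℂ → ℝ} {R' C0 r R S b δ : ℝ}

theorem NW.drift (hw : NW w R' C0) (hr : 0 < r) (hrR : r < R) (hRS : R < S) (hS : S ≤ R')
    (hb : 0 ≤ b) (h : ∀ x : ℝ, |x| < S → w x ≤ b) : AA w r ≤ AA w R + 2 * b / r := by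
  have hR : 0 < R := hr.trans hrR
  have hZ := hw.zz (hR.trans hRS) hS hb h
  have h1 := hw.AA_le_AZ hr hb
  have h2 := hZ.AZ_mono hr hrR hRS
  have h3 := hw.AZ_le_AA hR hb
  linarith

private lemma near_pos (hw : NW w R' C0) (hR : 0 < R) (hRS : R < S) (hS : S ≤ R')
    (hb : 0 ≤ b) (h : ∀ x : ℝ, |x| < S → w x ≤ b) (hδ : 0 < δ) (hδ1 : δ < 1) {ρ : ℂ}
    (hρ : ‖ρ‖ ≤ δ * R) (hi : 0 < ρ.im) :
    w ρ ≤ b + ((1 - δ) ^ 4)⁻¹ * AA w R * |ρ.im| := by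
  have hZ := hw.zz (hR.trans hRS) hS hb h
  have h1 := hZ.near hR hRS hδ hδ1 hρ hi.le
  have h2 : w ρ ≤ b + cut w b ρ := by
    simp only [cut, if_pos hi]
    have := le_max_left (w ρ - b) 0
    linarith
  have h3 : ((1 - δ) ^ 4)⁻¹ * AZ (cut w b) R * ρ.im ≤ ((1 - δ) ^ 4)⁻¹ * AA w R * |ρ.im| := by
    rw [abs_of_pos hi]
    refine mul_le_mul_of_nonneg_right ?_ hi.le
    refine mul_le_mul_of_nonneg_left (hw.AZ_le_AA hR hb) ?_
    have : 0 < 1 - δ := by linarith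
    positivity
  linarith

theorem NW.near (hw : NW w R' C0) (hR : 0 < R) (hRS : R < S) (hS : S ≤ R')
    (hb : 0 ≤ b) (h : ∀ x : ℝ, |x| < S → w x ≤ b) (hδ : 0 < δ) (hδ1 : δ < 1) {ρ : ℂ}
    (hρ : ‖ρ‖ ≤ δ * R) : w ρ ≤ b + ((1 - δ) ^ 4)⁻¹ * AA w R * |ρ.im| := by
  rcases lt_trichotomy ρ.im 0 with hi | hi | hi
  · have h1 := near_pos (ρ := -ρ) hw hR hRS hS hb h hδ hδ1 (by rwa [norm_neg])
      (by simpa using hi)
    rwa [hw.even, Complex.neg_im, abs_neg] at h1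
  · have h1 : ρ = ((ρ.re : ℝ) : ℂ) := Complex.ext (by simp) (by simp [hi])
    have h2 : |ρ.re| < S := by
      have h3 := Complex.abs_re_le_norm ρ
      have h4 : δ * R < S := by nlinarith
      linarith
    have h3 : w ρ ≤ b := by
      rw [h1]
      exact h _ h2
    rw [hi, abs_zero, mul_zero, add_zero]
    exact h3
  · exact near_pos hw hR hRS hS hb h hδ hδ1 hρ hi

end Pool.Agent.MP_ae5b4e_an_N5
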