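import Pool.Agent.Lib.MP_ae5b4e_an_N5.Dr

/-!
# N5, module Drf: the sum of the drifts

Proof. For `k < N` put `r = 2^k rn`.  `NW.drift` from `r` to `2 r` with `S = 4 r ≤ 2^(N+1) rn ≤ re`
and `b = 4 κ rf + 4 C₄ r (1 + η κ ((4 r / re)^a + (rf / (4 r))^a))`: for real `|x| < 4 r` (evenness:
`x ≥ 0`) either `x < rf` (`H2`) or `H1` and, since `a ≤ 1`, `x (rf / x)^a = rf^a x^(1-a)` and
`x (x / re)^a` are nondecreasing in `x`.  Induction on `k`; the error terms `2 b / r` are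
`8 κ rf / r + 8 C₄ + 8 C₄ η κ ((4 r / re)^a + (rf / (4 r))^a)`, and with `q := 2^(-a) < 1`:
`∑_{k<N} rf / (2^k rn) ≤ 2 rf / rn`,
`∑_{k<N} (4 · 2^k rn / re)^a = (2^(N+1) rn / re)^a ∑_{j<N} q^j ≤ 2 (2^N rn / re)^a / (1 - q)`,
`∑_{k<N} (rf / (4 · 2^k rn))^a ≤ (rf / rn)^a ∑ q^k ≤ (rf / rn)^a / (1 - q)`.

-/

set_option autoImplicit false

noncomputable section

namespace Pool.Agent.MP_ae5b4e_an_N5

open Complex Set Filter Topology Metric
open Real (circleAverage)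
open Pool.Agent.Lib.MP_ae5b4e_an_LL (SubH LocBdd ulim)
open scoped ComplexConjugate

private theorem drf_mono {rf x y a : ℝ} (hrf : 0 < rf) (hx : 0 < x) (hxy : x ≤ y) (ha1 : a ≤ 1) :
    x * (rf / x) ^ a ≤ y * (rf / y) ^ a := by
  have h : ∀ t : ℝ, 0 < t → t * (rf / t) ^ a = rf ^ a * t ^ (1 - a) := by
    intro t ht
    rw [Real.div_rpow hrf.le ht.le, Real.rpow_sub ht, Real.rpow_one]
    ring
  rw [h x hx, h y (hx.trans_le hxy)]
  exact mul_le_mul_of_nonneg_left (Real.rpow_le_rpow hx.le hxy (by linarith))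
    (Real.rpow_nonneg hrf.le a)

private theorem drf_step {w : ℂ → ℝ} {R' C0 rf r re κ η a C₄ : ℝ} (hw : NW w R' C0)
    (hr : 0 < r) (hrf : 0 < rf) (hN : 4 * r ≤ re) (hre : re ≤ R') (ha : 0 < a)
    (ha1 : a ≤ 1) (hκ : 0 < κ) (hη : 0 ≤ η) (hC : 0 < C₄)
    (H1 : ∀ x : ℝ, rf ≤ x → x ≤ re →
      w (x : ℂ) ≤ C₄ * x * (1 + η * κ * ((x / re) ^ a + (rf / x) ^ a)))
    (H2 : ∀ x : ℝ, 0 ≤ x → x < rf → w (x : ℂ) ≤ 4 * κ * rf) :
    AA w r ≤ AA w (2 * r) + (8 * κ * (rf / r) + 8 * C₄ +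
      8 * C₄ * η * κ * ((4 * r / re) ^ a + (rf / (4 * r)) ^ a)) := by
  have hre0 : 0 < re := by linarith
  have hp1 : 0 ≤ (4 * r / re) ^ a := Real.rpow_nonneg (by positivity) a
  have hp2 : 0 ≤ (rf / (4 * r)) ^ a := Real.rpow_nonneg (by positivity) a
  obtain ⟨b, hb⟩ : ∃ b : ℝ, b = 4 * κ * rf +
      C₄ * (4 * r) * (1 + η * κ * ((4 * r / re) ^ a + (rf / (4 * r)) ^ a)) := ⟨_, rfl⟩
  have hb2 : 0 ≤ C₄ * (4 * r) * (1 + η * κ * ((4 * r / re) ^ a + (rf / (4 * r)) ^ a)) := by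
    positivity
  have hb0 : 0 ≤ b := by
    rw [hb]
    positivity
  have hpos : ∀ x : ℝ, 0 ≤ x → x < 4 * r → w (x : ℂ) ≤ b := by
    intro x hx hx4
    rcases lt_or_ge x rf with h | h
    · have h1 := H2 x hx h
      rw [hb]
      linarith
    · have hx0 : 0 < x := hrf.trans_le h
      have h1 := H1 x h (by linarith)
      have h2 : x * (x / re) ^ a ≤ 4 * r * (4 * r / re) ^ a := by
        refine mul_le_mul hx4.le ?_ (Real.rpow_nonneg (by positivity) a) (by positivity)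
        exact Real.rpow_le_rpow (by positivity) (div_le_div_of_nonneg_right hx4.le hre0.le) ha.le
      have h3 := drf_mono hrf hx0 hx4.le ha1
      have h4 : C₄ * x * (1 + η * κ * ((x / re) ^ a + (rf / x) ^ a)) ≤
          C₄ * (4 * r) * (1 + η * κ * ((4 * r / re) ^ a + (rf / (4 * r)) ^ a)) := by
        have e1 : C₄ * x * (1 + η * κ * ((x / re) ^ a + (rf / x) ^ a)) =
          C₄ * x + C₄ * (η * κ) * (x * (x / re) ^ a + x * (rf / x) ^ a) := by ring
        have e2 : C₄ * (4 * r) * (1 + η * κ * ((4 * r / re) ^ a + (rf / (4 * r)) ^ a)) =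
          C₄ * (4 * r) + C₄ * (η * κ) * (4 * r * (4 * r / re) ^ a +
            4 * r * (rf / (4 * r)) ^ a) := by ring
        rw [e1, e2]
        refine add_le_add (mul_le_mul_of_nonneg_left hx4.le hC.le) ?_
        exact mul_le_mul_of_nonneg_left (add_le_add h2 h3) (by positivity)
      have h5 : 0 ≤ 4 * κ * rf := by positivity
      rw [hb]
      linarith
  have hall : ∀ x : ℝ, |x| < 4 * r → w x ≤ b := by
    intro x hx
    rw [abs_lt] at hx
    rcases le_or_gt 0 x with h | h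
    · exact hpos x h hx.2
    · have h1 := hpos (-x) (by linarith) (by linarith)
      have h2 := hw.even (x : ℂ)
      rw [← h2]
      push_cast at h1
      exact h1
  have hd := hw.drift hr (show r < 2 * r by linarith) (show 2 * r < 4 * r by linarith)
    (by linarith) hb0 hall
  have h6 : 2 * b / r = 8 * κ * (rf / r) + 8 * C₄ +
      8 * C₄ * η * κ * ((4 * r / re) ^ a + (rf / (4 * r)) ^ a) := by
    rw [hb]
    field_simp
    ring
  rw [h6] at hd
  exact hd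

private theorem drf_geo {q : ℝ} (hq0 : 0 ≤ q) (hq : q < 1) (n : ℕ) :
    ∑ k ∈ Finset.range n, q ^ k ≤ 1 / (1 - q) := by
  have h1 : (1 - q) * ∑ k ∈ Finset.range n, q ^ k = 1 - q ^ n := mul_neg_geom_sum q n
  rw [le_div_iff₀ (by linarith)]
  have h2 := pow_nonneg hq0 n
  linarith

private theorem drf_geo2 {Q q : ℝ} (hQ : 0 < Q) (hQq : Q * q = 1) (hq : q < 1) (n : ℕ) :
    ∑ k ∈ Finset.range n, Q ^ 2 * Q ^ k ≤ Q / (1 - q) * Q ^ n := by
  induction n with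
  | zero =>
    rw [Finset.sum_range_zero]
    have : 0 < 1 - q := by linarith
    positivity
  | succ n ih =>
    rw [Finset.sum_range_succ]
    have h1 : 0 < 1 - q := by linarith
    have h2 : Q / (1 - q) * Q ^ (n + 1) = Q / (1 - q) * Q ^ n + Q ^ 2 * Q ^ n := by
      field_simp
      linear_combination (Q ^ n) * hQq
    rw [h2]
    linarith

theorem drift_sum {w : ℂ → ℝ} {R' C0 rf rn re κ η a C₄ : ℝ} (hw : NW w R' C0) (N : ℕ)
    (hrf : 0 < rf) (hfn : rf ≤ rn) (hN : 2 ^ (N + 1) * rn ≤ re) (hre : re ≤ R') (ha : 0 < a)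
    (ha1 : a ≤ 1) (hκ : 0 < κ) (hη : 0 ≤ η) (hC : 0 < C₄)
    (H1 : ∀ x : ℝ, rf ≤ x → x ≤ re →
      w (x : ℂ) ≤ C₄ * x * (1 + η * κ * ((x / re) ^ a + (rf / x) ^ a)))
    (H2 : ∀ x : ℝ, 0 ≤ x → x < rf → w (x : ℂ) ≤ 4 * κ * rf) :
    AA w rn ≤ AA w (2 ^ N * rn) + 16 * κ * (rf / rn) + 8 * C₄ * N +
      16 * C₄ * η * κ / (1 - 2 ^ (-a)) * ((2 ^ N * rn / re) ^ a + (rf / rn) ^ a) := by
  have hrn : 0 < rn := hrf.trans_le hfn
  have hre0 : 0 < re := by
    have : 0 < 2 ^ (N + 1) * rn := by positivity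
    linarith
  obtain ⟨e, he⟩ : ∃ e : ℕ → ℝ, ∀ k, e k = 8 * κ * (rf / (2 ^ k * rn)) + 8 * C₄ +
      8 * C₄ * η * κ * ((4 * (2 ^ k * rn) / re) ^ a + (rf / (4 * (2 ^ k * rn))) ^ a) :=
    ⟨_, fun _ => rfl⟩
  have hstep : ∀ n, n ≤ N → AA w rn ≤ AA w (2 ^ n * rn) + ∑ k ∈ Finset.range n, e k := by
    intro n
    induction n with
    | zero => intro _; simp
    | succ n ih =>
      intro hn
      have h1 := ih (by omega)
      have h4 : 4 * (2 ^ n * rn) ≤ re := by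
        refine le_trans ?_ hN
        have h5 : (2 : ℝ) ^ (n + 2) ≤ 2 ^ (N + 1) := pow_le_pow_right₀ one_le_two (by omega)
        have h6 : 4 * (2 ^ n * rn) = 2 ^ (n + 2) * rn := by ring
        rw [h6]
        exact mul_le_mul_of_nonneg_right h5 hrn.le
      have h2 := drf_step hw (r := 2 ^ n * rn) (by positivity) hrf h4 hre ha ha1 hκ hη hC H1 H2
      rw [← he n] at h2
      rw [Finset.sum_range_succ]
      have h3 : (2 : ℝ) * (2 ^ n * rn) = 2 ^ (n + 1) * rn := by ring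
      rw [h3] at h2
      linarith
  have hmain := hstep N le_rfl
  -- the sums
  obtain ⟨Q, hQ⟩ : ∃ Q : ℝ, Q = 2 ^ a := ⟨_, rfl⟩
  obtain ⟨q, hq⟩ : ∃ q : ℝ, q = 2 ^ (-a) := ⟨_, rfl⟩
  have hQ0 : 0 < Q := by rw [hQ]; positivity
  have hq0 : 0 < q := by rw [hq]; positivity
  have hQq : Q * q = 1 := by
    rw [hQ, hq, ← Real.rpow_add two_pos, add_neg_cancel, Real.rpow_zero]
  have hQ2 : Q ≤ 2 := by
    rw [hQ]
    calc (2 : ℝ) ^ a ≤ 2 ^ (1 : ℝ) := Real.rpow_le_rpow_of_exponent_le one_le_two ha1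
      _ = 2 := Real.rpow_one 2
  have hq1 : q < 1 := by
    rw [hq]
    exact Real.rpow_lt_one_of_one_lt_of_neg one_lt_two (by linarith)
  have h1q : 0 < 1 - q := by linarith
  have hpow : ∀ k : ℕ, ((2 : ℝ) ^ k) ^ a = Q ^ k := by
    intro k
    rw [hQ, ← Real.rpow_natCast, ← Real.rpow_natCast, ← Real.rpow_mul zero_le_two,
      ← Real.rpow_mul zero_le_two, mul_comm]
  have h4a : (4 : ℝ) ^ a = Q ^ 2 := by
    have h := hpow 2
    norm_num at h
    exact h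
  obtain ⟨X, hX⟩ : ∃ X : ℝ, X = (rn / re) ^ a := ⟨_, rfl⟩
  obtain ⟨Y, hY⟩ : ∃ Y : ℝ, Y = (rf / rn) ^ a := ⟨_, rfl⟩
  have hX0 : 0 ≤ X := by rw [hX]; positivity
  have hY0 : 0 ≤ Y := by rw [hY]; positivity
  have t1 : ∀ k : ℕ, (4 * (2 ^ k * rn) / re) ^ a = X * (Q ^ 2 * Q ^ k) := by
    intro k
    have h1 : 4 * (2 ^ k * rn) / re = 4 * (2 ^ k * (rn / re)) := by ring
    rw [h1, Real.mul_rpow (by norm_num) (by positivity), Real.mul_rpow (by positivity)
      (by positivity), hpow, h4a, ← hX]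
    ring
  have t2 : ∀ k : ℕ, (rf / (4 * (2 ^ k * rn))) ^ a ≤ Y * q ^ k := by
    intro k
    have h1 : rf / (4 * (2 ^ k * rn)) ≤ rf / rn * (2 ^ k)⁻¹ := by
      have h2 : rf / rn * (2 ^ k)⁻¹ = rf / (2 ^ k * rn) := by
        rw [← div_eq_mul_inv, div_div, mul_comm rn]
      rw [h2]
      refine div_le_div_of_nonneg_left hrf.le (by positivity) ?_
      have : 0 < 2 ^ k * rn := by positivity
      linarith
    have h3 : (((2 : ℝ) ^ k)⁻¹) ^ a = q ^ k := by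
      rw [Real.inv_rpow (by positivity), hpow]
      have h4 : Q ^ k * q ^ k = 1 := by rw [← mul_pow, hQq, one_pow]
      exact inv_eq_of_mul_eq_one_right h4
    calc (rf / (4 * (2 ^ k * rn))) ^ a ≤ (rf / rn * (2 ^ k)⁻¹) ^ a :=
          Real.rpow_le_rpow (by positivity) h1 ha.le
      _ = Y * q ^ k := by
          rw [Real.mul_rpow (by positivity) (by positivity), h3, ← hY]
  have t3 : (2 ^ N * rn / re) ^ a = X * Q ^ N := by
    have h1 : 2 ^ N * rn / re = 2 ^ N * (rn / re) := by ring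
    rw [h1, Real.mul_rpow (by positivity) (by positivity), hpow, ← hX]
    ring
  have s1 : ∑ k ∈ Finset.range N, X * (Q ^ 2 * Q ^ k) ≤ 2 / (1 - q) * (X * Q ^ N) := by
    rw [← Finset.mul_sum]
    have h1 := mul_le_mul_of_nonneg_left (drf_geo2 hQ0 hQq hq1 N) hX0
    have h2 : X * (Q / (1 - q) * Q ^ N) ≤ 2 / (1 - q) * (X * Q ^ N) := by
      have h3 : Q / (1 - q) ≤ 2 / (1 - q) := div_le_div_of_nonneg_right hQ2 h1q.le
      have h4 : 0 ≤ X * Q ^ N := by positivity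
      have h5 := mul_le_mul_of_nonneg_right h3 h4
      linarith
    exact h1.trans h2
  have s2 : ∑ k ∈ Finset.range N, Y * q ^ k ≤ Y * (1 / (1 - q)) := by
    rw [← Finset.mul_sum]
    exact mul_le_mul_of_nonneg_left (drf_geo hq0.le hq1 N) hY0
  have s3 : ∑ k ∈ Finset.range N, 8 * κ * (rf / (2 ^ k * rn)) ≤ 16 * κ * (rf / rn) := by
    have h1 : ∀ k ∈ Finset.range N, 8 * κ * (rf / (2 ^ k * rn)) =
        8 * κ * (rf / rn) * (1 / 2) ^ k := by
      intro k _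
      rw [one_div, inv_pow]
      field_simp
    rw [Finset.sum_congr rfl h1, ← Finset.mul_sum]
    have h2 := drf_geo (q := 1 / 2) (by norm_num) (by norm_num) N
    have h3 : 0 ≤ 8 * κ * (rf / rn) := by positivity
    have h4 := mul_le_mul_of_nonneg_left h2 h3
    norm_num at h4 ⊢
    linarith
  have s4 : ∑ k ∈ Finset.range N, e k ≤ 16 * κ * (rf / rn) + 8 * C₄ * N +
      8 * C₄ * η * κ * (2 / (1 - q) * (X * Q ^ N) + Y * (1 / (1 - q))) := by
    have h1 : ∀ k ∈ Finset.range N, e k ≤ 8 * κ * (rf / (2 ^ k * rn)) + 8 * C₄ +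
        8 * C₄ * η * κ * (X * (Q ^ 2 * Q ^ k) + Y * q ^ k) := by
      intro k _
      rw [he, t1]
      have h2 : 0 ≤ 8 * C₄ * η * κ := by positivity
      have h3 := mul_le_mul_of_nonneg_left (add_le_add_right (t2 k) (X * (Q ^ 2 * Q ^ k))) h2
      linarith
    refine (Finset.sum_le_sum h1).trans ?_
    have h9 : ∑ k ∈ Finset.range N, 8 * C₄ * η * κ * (X * (Q ^ 2 * Q ^ k) + Y * q ^ k) =
        8 * C₄ * η * κ * (∑ k ∈ Finset.range N, X * (Q ^ 2 * Q ^ k) +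
          ∑ k ∈ Finset.range N, Y * q ^ k) := by
      rw [← Finset.mul_sum, Finset.sum_add_distrib]
    rw [Finset.sum_add_distrib, Finset.sum_add_distrib, Finset.sum_const, Finset.card_range,
      nsmul_eq_mul, h9]
    have h2 : 0 ≤ 8 * C₄ * η * κ := by positivity
    have h3 := mul_le_mul_of_nonneg_left (add_le_add s1 s2) h2
    linarith
  rw [← hq, t3, ← hY]
  have h5 : 8 * C₄ * η * κ * (2 / (1 - q) * (X * Q ^ N) + Y * (1 / (1 - q))) ≤
      16 * C₄ * η * κ / (1 - q) * (X * Q ^ N + Y) := by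
    have h6 : 16 * C₄ * η * κ / (1 - q) * (X * Q ^ N + Y) -
        8 * C₄ * η * κ * (2 / (1 - q) * (X * Q ^ N) + Y * (1 / (1 - q))) =
        8 * C₄ * η * κ * Y / (1 - q) := by
      field_simp
      ring
    have h7 : 0 ≤ 8 * C₄ * η * κ * Y / (1 - q) := by positivity
    linarith
  linarith

end Pool.Agent.MP_ae5b4e_an_N5
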