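import Pool.Agent.Lib.MP_ae5b4e_an_N5.Bas

/-!
# N5, module RS: real values are small (this uses (N2))

Proof. (N2) with `η = d`, `C = 1 / d` gives `K ≥ 1`, `M > 0`; `κ0 := max 1 (M / d)`.
Let `x : ℝ`, `K |x| ≤ r0`; by evenness and `w 0 = 0` we may assume `x > 0`.  Suppose
`w x > d κ max x q`.  Then `VV w x ≥ w x > d κ x ≥ M x`.  For `x ≤ r ≤ K x` (so `r ≤ r0`):
`VV w r ≤ κ max r rn ≤ κ (r / x) max x rn ≤ κ (r / x) max x q ≤ (1 / d) (r / x) w x
  ≤ (1 / d) (r / x) VV w x`.  For `0 < r ≤ x`: `VV w r ≤ κ max x rn (r / x)^β`: `r ≥ rn`: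
`VV w r ≤ κ r = κ x (r / x) ≤ κ x (r / x)^β`; `r < rn`: `VV w r ≤ κ rn (r / rn)^β` and
`rn (r / rn)^β ≤ m (r / m)^β ≤ m (r / x)^β` for `m = max x rn`.
So (N2) gives `w x < d VV w x ≤ d κ max x rn ≤ d κ max x q`.

-/

set_option autoImplicit false

noncomputable section

namespace Pool.Agent.MP_ae5b4e_an_N5

open Complex Set Filter Topology Metric
open Real (circleAverage)
open Pool.Agent.Lib.MP_ae5b4e_an_LL (SubH LocBdd ulim)
open scoped ComplexConjugate


private theorem rs_pow {r x y β : ℝ} (hr : 0 < r) (hx : 0 < x) (hxy : x ≤ y) (hβ : β ≤ 1) :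
    x * (r / x) ^ β ≤ y * (r / y) ^ β := by
  have h : ∀ t : ℝ, 0 < t → t * (r / t) ^ β = r ^ β * t ^ (1 - β) := by
    intro t ht
    rw [Real.div_rpow hr.le ht.le, Real.rpow_sub ht, Real.rpow_one]
    ring
  rw [h x hx, h y (hx.trans_le hxy)]
  exact mul_le_mul_of_nonneg_left (Real.rpow_le_rpow hx.le hxy (by linarith))
    (Real.rpow_nonneg hr.le β)

theorem reals_small {w : ℂ → ℝ} {R' C0 r0 β d : ℝ} (hw : NW w R' C0) (h2 : N2 w r0 β)
    (hβ0 : 0 ≤ β) (hβ : β ≤ 1) (hd : 0 < d) :
    ∃ K : ℝ, 1 ≤ K ∧ ∃ κ0 : ℝ, 0 < κ0 ∧ ∀ κ ≥ κ0, ∀ rn, Rec w r0 β κ rn → ∀ q ≥ rn, ∀ x : ℝ,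
      K * |x| ≤ r0 → w (x : ℂ) ≤ d * κ * max |x| q := by
  obtain ⟨K, hK, M, hM, hN⟩ := h2 d hd (1 / d) (by positivity)
  refine ⟨K, hK, max 1 (M / d), by positivity, fun κ hκ rn hrec q hq => ?_⟩
  have hκ1 : 1 ≤ κ := (le_max_left _ _).trans hκ
  have hκ2 : M ≤ d * κ := by
    have h3 : M / d ≤ κ := (le_max_right _ _).trans hκ
    rw [div_le_iff₀ hd] at h3
    linarith
  have hκ0 : 0 < κ := by linarith
  have hq0 : 0 < q := lt_of_lt_of_le hrec.pos hq
  have hpos : ∀ x : ℝ, 0 < x → K * x ≤ r0 → w (x : ℂ) ≤ d * κ * max x q := by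
    intro x hx hxr
    by_contra hc
    rw [not_le] at hc
    have hxK : x ≤ K * x := by nlinarith
    have hbd : BddAbove (w '' closedBall (0:ℂ) x) := by
      refine ⟨C0, ?_⟩
      rintro _ ⟨z, _, rfl⟩
      exact hw.up z
    have hV : w (x : ℂ) ≤ VV w x := by
      refine le_csSup hbd ⟨(x : ℂ), ?_, rfl⟩
      rw [mem_closedBall_zero_iff, Complex.norm_real, Real.norm_eq_abs, abs_of_pos hx]
    have hdκ : 0 < d * κ := by positivity
    have h3 : d * κ * x ≤ d * κ * max x q :=
      mul_le_mul_of_nonneg_left (le_max_left _ _) hdκ.le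
    have h4 : M * x ≤ VV w x := by
      have h5 : M * x ≤ d * κ * x := mul_le_mul_of_nonneg_right hκ2 hx.le
      linarith
    have h6 : κ * max x q ≤ 1 / d * w (x : ℂ) := by
      rw [one_div, ← div_eq_inv_mul, le_div_iff₀ hd]
      nlinarith
    have h7 : ∀ r, x ≤ r → r ≤ K * x → VV w r ≤ 1 / d * (r / x) * VV w x := by
      intro r hr1 hr2
      have hr0 : 0 < r := lt_of_lt_of_le hx hr1
      have h8 : VV w r ≤ κ * max r rn := hrec.bd r hr0 (hr2.trans hxr)
      have hrx : 1 ≤ r / x := (one_le_div hx).2 hr1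
      have h9 : max r rn ≤ r / x * max x q := by
        refine max_le ?_ ?_
        · calc r = r / x * x := by rw [div_mul_cancel₀ _ hx.ne']
            _ ≤ r / x * max x q := mul_le_mul_of_nonneg_left (le_max_left _ _) (by linarith)
        · calc rn ≤ q := hq
            _ ≤ max x q := le_max_right _ _
            _ ≤ r / x * max x q := by
              have : 0 ≤ max x q := hx.le.trans (le_max_left _ _)
              nlinarith
      calc VV w r ≤ κ * max r rn := h8
        _ ≤ κ * (r / x * max x q) := mul_le_mul_of_nonneg_left h9 hκ0.le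
        _ = r / x * (κ * max x q) := by ring
        _ ≤ r / x * (1 / d * w (x : ℂ)) := mul_le_mul_of_nonneg_left h6 (by linarith)
        _ ≤ r / x * (1 / d * VV w x) :=
            mul_le_mul_of_nonneg_left (mul_le_mul_of_nonneg_left hV (by positivity))
              (by linarith)
        _ = 1 / d * (r / x) * VV w x := by ring
    have hfine : ∀ r, 0 < r → r ≤ x → VV w r ≤ 1 / d * (r / x) ^ β * VV w x := by
      intro r hr1 hr2
      have hrx : 0 < r / x := div_pos hr1 hx
      have hp0 : 0 ≤ (r / x) ^ β := Real.rpow_nonneg hrx.le _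
      have hrn0 := hrec.pos
      have h8 : VV w r ≤ κ * (max x rn * (r / x) ^ β) := by
        rcases le_or_gt rn r with h | h
        · have h9 := hrec.bd r hr1 (hr2.trans (hxK.trans hxr))
          rw [max_eq_left h] at h9
          have h11 : r / x ≤ (r / x) ^ β := by
            have h12 : r / x ≤ 1 := (div_le_one hx).2 hr2
            calc r / x = (r / x) ^ (1:ℝ) := (Real.rpow_one _).symm
              _ ≤ (r / x) ^ β := Real.rpow_le_rpow_of_exponent_ge hrx h12 hβ
          calc VV w r ≤ κ * r := h9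
            _ = κ * (x * (r / x)) := by rw [mul_div_cancel₀ _ hx.ne']
            _ ≤ κ * (max x rn * (r / x) ^ β) := by
                refine mul_le_mul_of_nonneg_left ?_ hκ0.le
                exact mul_le_mul (le_max_left _ _) h11 hrx.le (hx.le.trans (le_max_left _ _))
        · have h9 := hrec.fine r hr1 h.le
          have h11 := rs_pow (β := β) hr1 hrn0 (le_max_right x rn) hβ
          have h12 : (r / max x rn) ^ β ≤ (r / x) ^ β := by
            refine Real.rpow_le_rpow (by positivity) ?_ hβ0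
            exact div_le_div_of_nonneg_left hr1.le hx (le_max_left _ _)
          have h13 : 0 ≤ max x rn := hx.le.trans (le_max_left _ _)
          calc VV w r ≤ κ * rn * (r / rn) ^ β := h9
            _ = κ * (rn * (r / rn) ^ β) := by ring
            _ ≤ κ * (max x rn * (r / max x rn) ^ β) := mul_le_mul_of_nonneg_left h11 hκ0.le
            _ ≤ κ * (max x rn * (r / x) ^ β) :=
                mul_le_mul_of_nonneg_left (mul_le_mul_of_nonneg_left h12 h13) hκ0.le
      have h9 : κ * max x rn ≤ 1 / d * VV w x := by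
        have h14 : κ * max x rn ≤ κ * max x q :=
          mul_le_mul_of_nonneg_left (max_le_max le_rfl hq) hκ0.le
        have h15 : 1 / d * w (x : ℂ) ≤ 1 / d * VV w x :=
          mul_le_mul_of_nonneg_left hV (by positivity)
        linarith
      calc VV w r ≤ κ * (max x rn * (r / x) ^ β) := h8
        _ = κ * max x rn * (r / x) ^ β := by ring
        _ ≤ 1 / d * VV w x * (r / x) ^ β := mul_le_mul_of_nonneg_right h9 hp0
        _ = 1 / d * (r / x) ^ β * VV w x := by ring
    have h10 := hN x hx hxr h4 h7 hfine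
    have h11 : VV w x ≤ κ * max x rn := hrec.bd x hx (hxK.trans hxr)
    have h12 : max x rn ≤ max x q := max_le_max le_rfl hq
    have h13 : d * VV w x ≤ d * κ * max x q := by
      rw [mul_assoc]
      exact mul_le_mul_of_nonneg_left
        (h11.trans (mul_le_mul_of_nonneg_left h12 hκ0.le)) hd.le
    linarith
  intro x hx
  rcases lt_trichotomy x 0 with h | h | h
  · rw [abs_of_neg h] at hx ⊢
    have h3 := hpos (-x) (by linarith) hx
    have h4 : w ((-x : ℝ) : ℂ) = w (x : ℂ) := by
      rw [Complex.ofReal_neg, hw.even]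
    rwa [h4] at h3
  · subst h
    rw [Complex.ofReal_zero, hw.zero]
    have : 0 ≤ max |(0 : ℝ)| q := hq0.le.trans (le_max_right _ _)
    positivity
  · rw [abs_of_pos h] at hx ⊢
    exact hpos x h hx

end Pool.Agent.MP_ae5b4e_an_N5
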