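import Pool.Agent.Lib.MP_ae5b4e_an_N5.Defs
import Pool.Agent.Lib.MP_ae5b4e_an_LL.Comp

/-!
# N5, module Sca: rescaling

`sc w q κ z = w (q z) / (κ q)` for `q, κ > 0`.
* `NW.sc`: upper semicontinuity and evenness are clear; `SubH` by `SubH.comp` (with the map
  `z ↦ q z` from `ball 0 (R' / q)` to `ball 0 R'`) and `SubH.const_mul`.
* `VV_sc`: `(fun z => q z)` maps `closedBall 0 s` onto `closedBall 0 (q s)` and
  `sSup (c • S) = c • sSup S` for `c ≥ 0` (`Real.sSup_smul_of_nonneg`).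
* `AA_sc`: `circleAverage (fun z => w (q z) / (κ q) * |z.im|) 0 s =
   (κ q²)⁻¹ * circleAverage (fun z => w z * |z.im|) 0 (q s)` since `q * circleMap 0 s θ =
   circleMap 0 (q s) θ`.

-/

set_option autoImplicit false

noncomputable section

namespace Pool.Agent.MP_ae5b4e_an_N5

open Complex Set Filter Topology Metric
open Real (circleAverage)
open Pool.Agent.Lib.MP_ae5b4e_an_LL (SubH LocBdd ulim)
open scoped ComplexConjugate Pointwise


variable {w : ℂ → ℝ} {R' C0 q κ s : ℝ}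

private theorem sca_norm (hq : 0 < q) (z : ℂ) : ‖(q : ℂ) * z‖ = q * ‖z‖ := by
  rw [norm_mul, Complex.norm_real, Real.norm_of_nonneg hq.le]

theorem NW.sc (hw : NW w R' C0) (hq : 0 < q) (hκ : 0 < κ) :
    NW (sc w q κ) (R' / q) (C0 / (κ * q)) := by
  have hκq : 0 < κ * q := mul_pos hκ hq
  have hcont : Continuous fun z : ℂ => (q : ℂ) * z := by fun_prop
  refine ⟨?_, ?_, ?_, ?_, ?_, ?_⟩
  · intro z y hy
    unfold MP_ae5b4e_an_N5.sc at hy ⊢
    rw [div_lt_iff₀ hκq] at hy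
    have h1 := hcont.continuousAt.eventually (hw.usc ((q : ℂ) * z) (y * (κ * q)) hy)
    filter_upwards [h1] with z' hz'
    rwa [div_lt_iff₀ hκq]
  · have h1 : SubH (fun z => w ((q : ℂ) * z)) (ball 0 (R' / q)) := by
      refine Pool.Agent.Lib.MP_ae5b4e_an_LL.SubH.comp (φ := fun z : ℂ => (q : ℂ) * z)
        isOpen_ball isOpen_ball hw.sub (fun z _ => ?_) (fun z hz => ?_)
      · exact analyticAt_const.mul analyticAt_id
      · rw [mem_ball_zero_iff] at hz ⊢
        rw [sca_norm hq]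
        rw [lt_div_iff₀ hq] at hz
        linarith
    have h2 := h1.const_mul (inv_pos.2 hκq).le
    have h3 : (fun z => (κ * q)⁻¹ * w ((q : ℂ) * z)) = MP_ae5b4e_an_N5.sc w q κ := by
      funext z
      unfold MP_ae5b4e_an_N5.sc
      rw [div_eq_inv_mul]
    rwa [h3] at h2
  · intro z
    exact div_nonneg (hw.nonneg _) hκq.le
  · intro z
    unfold MP_ae5b4e_an_N5.sc
    rw [mul_neg, hw.even]
  · unfold MP_ae5b4e_an_N5.sc
    rw [mul_zero, hw.zero, zero_div]
  · intro z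
    exact div_le_div_of_nonneg_right (hw.up _) hκq.le

theorem VV_sc (hq : 0 < q) (hκ : 0 < κ) : VV (sc w q κ) s = VV w (q * s) / (κ * q) := by
  have hκq : 0 < κ * q := mul_pos hκ hq
  have hq0 : (q : ℂ) ≠ 0 := by exact_mod_cast hq.ne'
  have h1 : sc w q κ '' closedBall (0 : ℂ) s = (κ * q)⁻¹ • (w '' closedBall (0 : ℂ) (q * s)) := by
    ext y
    constructor
    · rintro ⟨z, hz, rfl⟩
      rw [mem_closedBall_zero_iff] at hz
      refine ⟨w ((q : ℂ) * z), ⟨(q : ℂ) * z, ?_, rfl⟩, ?_⟩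
      · rw [mem_closedBall_zero_iff, sca_norm hq]
        exact mul_le_mul_of_nonneg_left hz hq.le
      · change (κ * q)⁻¹ * w ((q : ℂ) * z) = w ((q : ℂ) * z) / (κ * q)
        rw [div_eq_inv_mul]
    · rintro ⟨_, ⟨z, hz, rfl⟩, rfl⟩
      rw [mem_closedBall_zero_iff] at hz
      refine ⟨(q : ℂ)⁻¹ * z, ?_, ?_⟩
      · rw [mem_closedBall_zero_iff]
        have h2 := sca_norm hq ((q : ℂ)⁻¹ * z)
        rw [mul_inv_cancel_left₀ hq0] at h2
        rw [h2] at hz
        exact le_of_mul_le_mul_left hz hq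
      · change w ((q : ℂ) * ((q : ℂ)⁻¹ * z)) / (κ * q) = (κ * q)⁻¹ * w z
        rw [mul_inv_cancel_left₀ hq0, div_eq_inv_mul]
  unfold VV
  rw [h1, Real.sSup_smul_of_nonneg (inv_pos.2 hκq).le, smul_eq_mul, div_eq_inv_mul]

theorem AA_sc (hq : 0 < q) (hκ : 0 < κ) : AA (sc w q κ) s = AA w (q * s) / κ := by
  have h1 : circleAverage (fun z => sc w q κ z * |z.im|) 0 s =
      (κ * q ^ 2)⁻¹ * circleAverage (fun z => w z * |z.im|) 0 (q * s) := by
    unfold circleAverage
    rw [smul_eq_mul, smul_eq_mul, mul_left_comm, ← intervalIntegral.integral_const_mul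
      (κ * q ^ 2)⁻¹]
    congr 1
    refine intervalIntegral.integral_congr fun θ _ => ?_
    have h2 : (q : ℂ) * circleMap 0 s θ = circleMap 0 (q * s) θ := by
      simp [circleMap, mul_assoc]
    have h3 : (circleMap 0 (q * s) θ).im = q * (circleMap 0 s θ).im := by
      rw [← h2]
      simp
    change w ((q : ℂ) * circleMap 0 s θ) / (κ * q) * |(circleMap 0 s θ).im| =
      (κ * q ^ 2)⁻¹ * (w (circleMap 0 (q * s) θ) * |(circleMap 0 (q * s) θ).im|)
    rw [h2, h3, abs_mul, abs_of_pos hq]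
    field_simp
  unfold AA
  rw [h1]
  rcases eq_or_ne s 0 with rfl | hs
  · simp
  · field_simp

end Pool.Agent.MP_ae5b4e_an_N5
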