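import Pool.Agent.Lib.MP_ae5b4e_an_N5.Upp
import Pool.Agent.Lib.MP_ae5b4e_an_N5.RS
import Pool.Agent.Lib.MP_ae5b4e_an_N5.Sca
import Pool.Agent.Lib.MP_ae5b4e_an_N5.Dr

/-!
# N5, module EndS: the coarse end of a conical interval can be moved

Proof. Take `R₂`, `d₁` from `upper` with `e = η / 4`, `R₁ = 2^(ℓ+4)`; `d := min d₁ (η / 2^(ℓ+9))`;
`K₁`, `κ₁` from `reals_small` with `d`; `K := K₁ (R₂ + 2^(ℓ+4))`, `κ0 := κ₁`.
Let `rn ≤ q`, `K q ≤ r0`.  `u := sc w q κ`: `NW u R₂ _` (`R₂ q ≤ r0 < R'`), `u z ≤ max 1 ‖z‖`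
for `‖z‖ < R₂` (`w (q z) ≤ VV w (q ‖z‖) ≤ κ max (q ‖z‖) rn ≤ κ q max ‖z‖ 1`), `u x ≤ d max 1 |x|`
for
`|x| < R₂` (`reals_small`).  So `w ρ ≤ κ (|Im ρ| + (η / 4) q)` for `‖ρ‖ ≤ 2^(ℓ+4) q`.
`NW.drift` from `q` to `r` (`r = q` trivial), `S = 2^(ℓ+3) q`, `b = d κ 2^(ℓ+3) q`:
`AA w r ≥ AA w q - d κ 2^(ℓ+4) ≥ (1 - η/32 - η/32) κ = (1 - η/16) κ`;
`AA w r ≤ κ + 2 κ (η / 4) q / r ≤ (1 + η / 2) κ` (`AA_le_lin`).
`Con w η κ r`: `‖ρ‖ ≤ 4 r ≤ 2^(ℓ+4) q`, `q ≤ r`.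

-/

set_option autoImplicit false

noncomputable section

namespace Pool.Agent.MP_ae5b4e_an_N5

open Complex Set Filter Topology Metric
open Real (circleAverage)
open Pool.Agent.Lib.MP_ae5b4e_an_LL (SubH LocBdd ulim)
open scoped ComplexConjugate


/-- the unit scale picture around a record scale -/
private theorem es_scale {w : ℂ → ℝ} {R' C0 r0 β κ q rn R₂ d : ℝ} (hw : NW w R' C0)
    (hκ : 0 < κ) (hrec : Rec w r0 β κ rn) (hq : rn ≤ q) (hR₂ : R₂ * q ≤ r0) (hR : r0 < R')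
    (hd : ∀ x : ℝ, |x| < R₂ → w ((q * x : ℝ) : ℂ) ≤ d * κ * max |q * x| q) :
    NW (sc w q κ) R₂ (C0 / (κ * q)) ∧ (∀ z, ‖z‖ < R₂ → sc w q κ z ≤ max 1 ‖z‖) ∧
      (∀ x : ℝ, |x| < R₂ → sc w q κ x ≤ d * max 1 |x|) := by
  have hq0 : 0 < q := hrec.pos.trans_le hq
  have hκq : 0 < κ * q := mul_pos hκ hq0
  refine ⟨(hw.sc hq0 hκ).mono ?_, fun z hz => ?_, fun x hx => ?_⟩
  · rw [le_div_iff₀ hq0]
    linarith
  · unfold sc
    rw [div_le_iff₀ hκq]
    rcases eq_or_ne z 0 with rfl | hz0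
    · rw [mul_zero, hw.zero]
      positivity
    · have hzn : 0 < ‖z‖ := norm_pos_iff.2 hz0
      have h1 : ‖(q : ℂ) * z‖ = q * ‖z‖ := by
        rw [norm_mul, norm_real, Real.norm_eq_abs, abs_of_pos hq0]
      have h2 := hw.le_VV (z := (q : ℂ) * z) h1.le
      have h3 : q * ‖z‖ ≤ r0 := by
        have := mul_le_mul_of_nonneg_left hz.le hq0.le
        linarith
      have h4 := hrec.bd (q * ‖z‖) (mul_pos hq0 hzn) h3
      have h5 : κ * max (q * ‖z‖) rn ≤ κ * (q * max 1 ‖z‖) := by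
        refine mul_le_mul_of_nonneg_left (max_le ?_ ?_) hκ.le
        · exact mul_le_mul_of_nonneg_left (le_max_right _ _) hq0.le
        · have := mul_le_mul_of_nonneg_left (le_max_left 1 ‖z‖) hq0.le
          linarith
      linarith
  · unfold sc
    rw [div_le_iff₀ hκq]
    have h1 := hd x hx
    have h2 : max |q * x| q = q * max 1 |x| := by
      rw [abs_mul, abs_of_pos hq0, mul_max_of_nonneg _ _ hq0.le, mul_one, max_comm]
    rw [h2] at h1
    push_cast at h1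
    linarith

theorem end_step {w : ℂ → ℝ} {R' C0 r0 β η : ℝ} (hw : NW w R' C0) (hR : r0 < R')
    (h2 : N2 w r0 β) (hβ0 : 0 ≤ β) (hβ : β ≤ 1) (hη : 0 < η) (ℓ : ℕ) :
    ∃ K : ℝ, 1 ≤ K ∧ ∃ κ0 : ℝ, 0 < κ0 ∧ ∀ κ ≥ κ0, ∀ rn, Rec w r0 β κ rn → ∀ q, rn ≤ q →
      K * q ≤ r0 → (1 - η / 32) * κ ≤ AA w q → ∀ r, q ≤ r → r ≤ 2 ^ (ℓ + 2) * q →
        Con w η κ r := by
  obtain ⟨P, hP⟩ : ∃ P : ℝ, P = 2 ^ (ℓ + 2) := ⟨_, rfl⟩
  have hP1 : 1 ≤ P := by rw [hP]; exact one_le_pow₀ (by norm_num)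
  have hP3 : (2 : ℝ) ^ (ℓ + 3) = 2 * P := by rw [hP]; ring
  have hP4 : (2 : ℝ) ^ (ℓ + 4) = 4 * P := by rw [hP]; ring
  rw [← hP]
  obtain ⟨R₂, hR₂, d₁, hd₁, hup⟩ := upper (show 0 < η / 4 by linarith)
    (show (0:ℝ) < 4 * P by linarith)
  obtain ⟨d, hdd⟩ : ∃ d : ℝ, d = min d₁ (η / (128 * P)) := ⟨_, rfl⟩
  have hd : 0 < d := by rw [hdd]; exact lt_min hd₁ (by positivity)
  have hd1 : d ≤ d₁ := by rw [hdd]; exact min_le_left _ _
  have hd2 : d * (128 * P) ≤ η := by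
    rw [← le_div_iff₀ (by positivity), hdd]
    exact min_le_right _ _
  obtain ⟨K₁, hK₁, κ1, hκ1, hrs⟩ := reals_small hw h2 hβ0 hβ hd
  have hR₂0 : 0 < R₂ := by linarith
  refine ⟨K₁ * (R₂ + 4 * P), ?_, κ1, hκ1, ?_⟩
  · have h3 : 1 * (R₂ + 4 * P) ≤ K₁ * (R₂ + 4 * P) :=
      mul_le_mul_of_nonneg_right hK₁ (by positivity)
    show 1 ≤ K₁ * (R₂ + 4 * P)
    linarith
  intro κ hκ rn hrec q hq hKq hAq r hr1 hr2
  have hκ0 : 0 < κ := by linarith
  have hq0 : 0 < q := hrec.pos.trans_le hq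
  have hr0 : 0 < r := by linarith
  have hsmall : ∀ T : ℝ, 0 ≤ T → T ≤ R₂ + 4 * P → K₁ * (T * q) ≤ r0 := by
    intro T _ hT
    have h3 : K₁ * (T * q) ≤ K₁ * ((R₂ + 4 * P) * q) :=
      mul_le_mul_of_nonneg_left (mul_le_mul_of_nonneg_right hT hq0.le) (by linarith)
    have h4 : K₁ * ((R₂ + 4 * P) * q) = K₁ * (R₂ + 4 * P) * q := by ring
    linarith
  have hsmall1 : ∀ T : ℝ, 0 ≤ T → T ≤ R₂ + 4 * P → T * q ≤ r0 := by
    intro T hT0 hT
    have h3 := hsmall T hT0 hT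
    have h4 : 1 * (T * q) ≤ K₁ * (T * q) := mul_le_mul_of_nonneg_right hK₁ (by positivity)
    linarith
  obtain ⟨g1, g2, g3⟩ := es_scale (d := d) hw hκ0 hrec hq (hsmall1 R₂ hR₂0.le (by linarith)) hR
    (fun x hx => by
      refine hrs κ hκ rn hrec q hq (q * x) ?_
      rw [abs_mul, abs_of_pos hq0, mul_comm q]
      have h3 : K₁ * (|x| * q) ≤ K₁ * (R₂ * q) :=
        mul_le_mul_of_nonneg_left (mul_le_mul_of_nonneg_right hx.le hq0.le) (by linarith)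
      have h4 := hsmall R₂ hR₂0.le (by linarith)
      linarith)
  have k1 := hup (sc w q κ) _ g1 g2 (fun x hx => (g3 x hx).trans
    (mul_le_mul_of_nonneg_right hd1 (le_max_of_le_left zero_le_one)))
  have hA : (1 - η / 16) * κ ≤ AA w r := by
    rcases eq_or_lt_of_le hr1 with h | h
    · rw [← h]
      have h3 : η / 32 * κ ≤ η / 16 * κ := mul_le_mul_of_nonneg_right (by linarith) hκ0.le
      linarith
    · have h3 := hw.drift (r := q) (R := r) (S := 2 * P * q) (b := d * κ * (2 * P * q)) hq0 h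
        (by nlinarith) (by
          have := hsmall1 (2 * P) (by linarith) (by linarith)
          linarith) (by positivity) (fun x hx => by
          have h4 := hrs κ hκ rn hrec q hq x (by
            have h5 : K₁ * |x| ≤ K₁ * (2 * P * q) :=
              mul_le_mul_of_nonneg_left hx.le (by linarith)
            have h6 := hsmall (2 * P) (by linarith) (by linarith)
            linarith)
          refine h4.trans (mul_le_mul_of_nonneg_left (max_le hx.le ?_) (by positivity))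
          nlinarith)
      have h4 : 2 * (d * κ * (2 * P * q)) / q = 4 * (d * P) * κ := by
        field_simp
        ring
      rw [h4] at h3
      have h5 : 4 * (d * P) * κ ≤ η / 32 * κ :=
        mul_le_mul_of_nonneg_right (by linarith) hκ0.le
      linarith
  have hbound : ∀ ρ : ℂ, ‖ρ‖ ≤ 4 * r → w ρ ≤ κ * (|ρ.im| + η / 4 * q) := by
    intro ρ hρ
    have hqC : (q : ℂ) ≠ 0 := by exact_mod_cast hq0.ne'
    have hn : ‖ρ / q‖ ≤ 4 * P := by
      rw [norm_div, norm_real, Real.norm_eq_abs, abs_of_pos hq0, div_le_iff₀ hq0]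
      linarith
    have h3 := k1 _ hn
    unfold sc at h3
    have him : |(ρ / q).im| = |ρ.im| / q := by
      rw [div_ofReal_im, abs_div, abs_of_pos hq0]
    rw [mul_div_cancel₀ _ hqC, him, div_le_iff₀ (mul_pos hκ0 hq0)] at h3
    have h4 : (|ρ.im| / q + η / 4) * (κ * q) = κ * (|ρ.im| + η / 4 * q) := by
      field_simp
    rwa [h4] at h3
  have hqr : η / 4 * q ≤ η / 4 * r := mul_le_mul_of_nonneg_left hr1 (by positivity)
  refine ⟨fun ρ _ hρ => ?_, ?_⟩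
  · refine (hbound ρ hρ).trans (mul_le_mul_of_nonneg_left ?_ hκ0.le)
    have h10 : 0 ≤ η * |ρ.im| := by positivity
    have h11 : 0 < η * r := mul_pos hη hr0
    linarith
  · have hup2 := hw.AA_le_lin (r := r) (κ := κ) (b := κ * (η / 4 * q)) hr0 hκ0.le (by positivity)
      (fun z hz => by
        have h3 := hbound z (by rw [hz]; linarith)
        linarith)
    have h3 : 2 * (κ * (η / 4 * q)) / r ≤ η / 2 * κ := by
      rw [div_le_iff₀ hr0]
      have h4 : κ * (η / 4 * q) ≤ κ * (η / 4 * r) := mul_le_mul_of_nonneg_left hqr hκ0.le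
      linarith
    have h5 : 0 < η * κ := mul_pos hη hκ0
    rw [abs_le]
    constructor <;> linarith

end Pool.Agent.MP_ae5b4e_an_N5
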