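import Pool.Agent.Lib.MP_ae5b4e_an_N5.Seq

/-!
# N5, module Low: the lower bound of the sine mean by compactness

Proof. Otherwise there are `u n` with radii `s₀ + 2 + n` and `d n = 1 / (n + 1)`, points
`z n`, `‖z n‖ = 1`, `1 ≤ u n (z n)`, and `AA (u n) s₀ < 1 - e` (so `e < 1`).  Replacing `z n` by
`- z n` (evenness) we may take `Im (z n) ≥ 0`.  A subsequence `z n → ζ`, `‖ζ‖ = 1`, `Im ζ ≥ 0`; so
`1 ≤ ulim u ζ` (`le_ulim`: frequently in `atTop ×ˢ 𝓝 ζ`; no passage to subsequences of `u` needed),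
and `ulim u ζ ≤ |Im ζ| ≤ 1`: `ζ = i`.  `f := ulim u - Im` is subharmonic and `≤ 0` on the upper half
plane and `f i = 0`: `SubH.eq_of_isMax` gives `ulim u z = Im z` for `Im z > 0`.
On the other hand `NW.near` with `R := s₀`, `S := s₀ + 1`, `b := d n (s₀ + 1)`, `δ` with
`(1 - δ)⁻⁴ (1 - e) ≤ 1 - e / 2`, gives for `‖ρ‖ ≤ δ s₀`:
`u n ρ ≤ d n (s₀ + 1) + (1 - e / 2) |Im ρ|`, so `ulim u z ≤ (1 - e / 2) Im z < Im z` at
`z = i δ s₀ / 2` (`ulim_le`): contradiction.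

-/

set_option autoImplicit false

noncomputable section

namespace Pool.Agent.MP_ae5b4e_an_N5

open Complex Set Filter Topology Metric
open Real (circleAverage)
open Pool.Agent.Lib.MP_ae5b4e_an_LL (SubH LocBdd ulim)
open scoped ComplexConjugate

private theorem low_max {f : ℂ → ℝ} (hf : SubH f univ) (hle : ∀ z, f z ≤ |z.im|) {ζ : ℂ}
    (h0 : 0 < ζ.im) (h1 : ζ.im ≤ f ζ) : ∀ z : ℂ, 0 < z.im → f z = z.im := by
  have hU : IsOpen {z : ℂ | 0 < z.im} := isOpen_lt continuous_const Complex.continuous_im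
  have hc : IsPreconnected {z : ℂ | 0 < z.im} := (convex_halfSpace_im_gt 0).isPreconnected
  have hs : SubH (fun z => f z - z.im) {z : ℂ | 0 < z.im} :=
    (hf.mono (subset_univ _)).sub_harmonic hU fun z _ =>
      AnalyticAt.harmonicAt_im analyticAt_id
  have hle' : ∀ z ∈ {z : ℂ | 0 < z.im}, f z - z.im ≤ 0 := by
    intro z hz
    have h2 := hle z
    rw [abs_of_pos hz] at h2
    linarith
  have h3 : f ζ - ζ.im = 0 := le_antisymm (hle' ζ h0) (by linarith)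
  have h4 := SubH.eq_of_isMax hU hc hs (z := ζ) h0 (fun w hw => by
    have := hle' w hw
    show f w - w.im ≤ f ζ - ζ.im
    linarith)
  intro z hz
  have h5 : f z - z.im = f ζ - ζ.im := h4 z hz
  linarith

private theorem low_delta {e : ℝ} (he : 0 < e) (he1 : e < 1) :
    ((1 - e / 8) ^ 4)⁻¹ * (1 - e) ≤ 1 - e / 2 := by
  have h1 : 1 - e / 2 ≤ (1 - e / 8) ^ 4 := by
    have := one_add_mul_le_pow (show (-2 : ℝ) ≤ -(e / 8) by linarith) 4
    have h2 : (1 + -(e / 8)) ^ 4 = (1 - e / 8) ^ 4 := by ring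
    rw [h2] at this
    push_cast at this
    linarith
  have h3 : 0 < 1 - e / 2 := by linarith
  have h4 : 0 < (1 - e / 8) ^ 4 := lt_of_lt_of_le h3 h1
  rw [inv_mul_le_iff₀ h4]
  calc 1 - e ≤ (1 - e / 2) * (1 - e / 2) := by nlinarith [sq_nonneg e]
    _ ≤ (1 - e / 8) ^ 4 * (1 - e / 2) := mul_le_mul_of_nonneg_right h1 h3.le

theorem lower {e s₀ : ℝ} (he : 0 < e) (hs : 0 < s₀) : ∃ R₂ > s₀, ∃ d > 0, ∀ (w : ℂ → ℝ) (C0 : ℝ),
    NW w R₂ C0 → (∀ z, ‖z‖ < R₂ → w z ≤ max 1 ‖z‖) → (∀ x : ℝ, |x| < R₂ → w x ≤ d * max 1 |x|) →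
    (∃ z : ℂ, ‖z‖ = 1 ∧ 1 ≤ w z) → 1 - e ≤ AA w s₀ := by
  by_contra hcon
  have hex : ∀ n : ℕ, ∃ (w : ℂ → ℝ) (C0 : ℝ), NW w (s₀ + 2 + n) C0 ∧
      (∀ z, ‖z‖ < s₀ + 2 + n → w z ≤ max 1 ‖z‖) ∧
      (∀ x : ℝ, |x| < s₀ + 2 + n → w x ≤ 1 / ((n : ℝ) + 1) * max 1 |x|) ∧
      (∃ z : ℂ, ‖z‖ = 1 ∧ 0 ≤ z.im ∧ 1 ≤ w z) ∧ AA w s₀ < 1 - e := by
    intro n
    by_contra hn
    apply hcon
    refine ⟨s₀ + 2 + n, ?_, 1 / ((n : ℝ) + 1), by positivity, fun w C0 h1 h2 h3 h4 => ?_⟩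
    · have : (0 : ℝ) ≤ n := Nat.cast_nonneg n
      show s₀ < s₀ + 2 + n
      linarith
    · by_contra h5
      apply hn
      obtain ⟨z, hz1, hz2⟩ := h4
      refine ⟨w, C0, h1, h2, h3, ?_, not_le.1 h5⟩
      rcases le_total 0 z.im with h6 | h6
      · exact ⟨z, hz1, h6, hz2⟩
      · refine ⟨-z, by rw [norm_neg, hz1], by simpa using h6, ?_⟩
        rw [h1.even]
        exact hz2
  choose u C hNW h1 h0 hz hAA using hex
  choose z hz1 hz2 hz3 using hz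
  have hR : Tendsto (fun n : ℕ => s₀ + 2 + (n : ℝ)) atTop atTop :=
    tendsto_atTop_add_const_left _ _ tendsto_natCast_atTop_atTop
  have hd : Tendsto (fun n : ℕ => 1 / ((n : ℝ) + 1)) atTop (𝓝 0) :=
    tendsto_one_div_add_atTop_nhds_zero_nat
  obtain ⟨hloc, hsub, hnn, hle⟩ := seq_lim hNW hR hd h1 h0
  obtain ⟨ζ, hζ, φ, hφ, hlim⟩ := (isCompact_sphere (0 : ℂ) 1).tendsto_subseq (x := z)
    fun n => by simpa using hz1 n
  have hζ1 : ‖ζ‖ = 1 := by simpa using hζ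
  have hζi : 0 ≤ ζ.im := by
    have h2 : Tendsto (fun n => (z (φ n)).im) atTop (𝓝 ζ.im) :=
      (Complex.continuous_im.tendsto ζ).comp hlim
    exact ge_of_tendsto' h2 fun n => hz2 (φ n)
  have hζu : 1 ≤ ulim u ζ := by
    refine Pool.Agent.Lib.MP_ae5b4e_an_LL.le_ulim (hloc ζ) ?_
    have h2 : Tendsto (fun n => (φ n, z (φ n))) atTop (atTop ×ˢ 𝓝 ζ : Filter (ℕ × ℂ)) :=
      hφ.tendsto_atTop.prodMk hlim
    exact h2.frequently (Frequently.of_forall fun n => hz3 (φ n))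
  have hζ2 : |ζ.im| ≤ 1 := by
    rw [← hζ1]
    exact Complex.abs_im_le_norm ζ
  have hζ3 : ulim u ζ ≤ |ζ.im| := hle ζ
  have hζ4 : |ζ.im| = ζ.im := abs_of_nonneg hζi
  have heq := low_max hsub hle (ζ := ζ) (by linarith) (by linarith)
  have he1 : e < 1 := by
    have := (hNW 0).AA_nonneg s₀
    linarith [hAA 0]
  have hnear : ∀ n : ℕ, ∀ ρ : ℂ, ‖ρ‖ ≤ e / 8 * s₀ →
      u n ρ ≤ 1 / ((n : ℝ) + 1) * (s₀ + 1) + (1 - e / 2) * |ρ.im| := by
    intro n ρ hρ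
    have hn : (0 : ℝ) ≤ n := Nat.cast_nonneg n
    have h2 := (hNW n).near (R := s₀) (S := s₀ + 1) (b := 1 / ((n : ℝ) + 1) * (s₀ + 1))
      (δ := e / 8) hs (by linarith) (by linarith) (by positivity) (fun x hx => by
        refine (h0 n x (by linarith)).trans ?_
        apply mul_le_mul_of_nonneg_left _ (by positivity)
        exact max_le (by linarith) hx.le) (by linarith) (by linarith) hρ
    refine h2.trans ?_
    have h3 : ((1 - e / 8) ^ 4)⁻¹ * AA (u n) s₀ ≤ 1 - e / 2 := by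
      refine le_trans ?_ (low_delta he he1)
      apply mul_le_mul_of_nonneg_left (hAA n).le
      positivity
    have h4 := mul_le_mul_of_nonneg_right h3 (abs_nonneg ρ.im)
    linarith
  obtain ⟨y, hy⟩ : ∃ y, y = e / 16 * s₀ := ⟨_, rfl⟩
  have hy0 : 0 < y := by rw [hy]; positivity
  have hP : ulim u ((y : ℂ) * I) = y := by
    have := heq ((y : ℂ) * I) (by simpa using hy0)
    rw [this]
    simp
  have hlt : ulim u ((y : ℂ) * I) ≤ (1 - e / 4) * y := by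
    refine Pool.Agent.Lib.MP_ae5b4e_an_LL.ulim_le (hloc _) ?_
    have h2 : Tendsto (fun p : ℕ × ℂ => 1 / ((p.1 : ℝ) + 1) * (s₀ + 1) + (1 - e / 2) * |p.2.im|)
        (atTop ×ˢ 𝓝 ((y : ℂ) * I)) (𝓝 (0 * (s₀ + 1) + (1 - e / 2) * |((y : ℂ) * I).im|)) := by
      refine Tendsto.add ?_ ?_
      · exact (hd.comp tendsto_fst).mul_const _
      · refine Tendsto.const_mul _ ?_
        exact (Complex.continuous_im.abs.tendsto _).comp tendsto_snd
    have h3 : 0 * (s₀ + 1) + (1 - e / 2) * |((y : ℂ) * I).im| < (1 - e / 4) * y := by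
      have h4 : ((y : ℂ) * I).im = y := by simp
      rw [h4, abs_of_pos hy0]
      nlinarith [mul_pos he hy0]
    have h5 := h2.eventually (Iio_mem_nhds h3)
    have h6 : ∀ᶠ p in (atTop ×ˢ 𝓝 ((y : ℂ) * I) : Filter (ℕ × ℂ)), ‖p.2‖ < e / 8 * s₀ := by
      have h8 : ‖(y : ℂ) * I‖ < e / 8 * s₀ := by
        rw [norm_mul, Complex.norm_I, mul_one, Complex.norm_real, Real.norm_of_nonneg hy0.le, hy]
        nlinarith [mul_pos he hs]
      have h7 : ∀ᶠ ρ : ℂ in 𝓝 ((y : ℂ) * I), ‖ρ‖ < e / 8 * s₀ :=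
        (isOpen_lt continuous_norm continuous_const).mem_nhds h8
      exact tendsto_snd.eventually h7
    filter_upwards [h5, h6] with p hp1 hp2
    exact (hnear p.1 p.2 hp2.le).trans (le_of_lt hp1)
  rw [hP] at hlt
  nlinarith [mul_pos he hy0]

end Pool.Agent.MP_ae5b4e_an_N5
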