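import Pool.Agent.Lib.MP_ae5b4e_an_N5.Nr1
import Pool.Agent.Lib.MP_ae5b4e_an_N5.RS
import Pool.Agent.Lib.MP_ae5b4e_an_N5.Sca

/-!
# N5, module Near: conical scales around a record scale

Proof. Put `e' := min (e, 1/2, η / (2 (4 + L)))` and take `R₂`, `d` from `near_one e' (4 L)`; take
`K`, `κ1` from `reals_small` with this `d`.  `κ0` large: `κ0 ≥ κ1`, and `C0 / κ0 * (K R₂) ≤ r0`.
Let `κ ≥ κ0` and `Rec w r0 κ rn`, `κ rn ≤ C0`, so `K R₂ rn ≤ r0 < R'`.  `u := sc w rn κ` satisfies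
`NW u R₂ _` (`NW.sc`, `NW.mono`), `u z ≤ max 1 ‖z‖` for `‖z‖ < R₂` (`rn ‖z‖ ≤ r0`:
`w (rn z) ≤ VV w (rn ‖z‖) ≤ κ max (rn ‖z‖) rn`; for `z = 0` use `w 0 = 0`),
`u x ≤ d max 1 |x|` (`reals_small`, `q = rn`), and the maximum over the sphere of radius `rn` is
attained: `w z = VV w rn = κ rn` (`exists_VV`).  So `near_one` gives: `w ρ ≤ κ (|Im ρ| + e' rn)` for
`‖ρ‖ ≤ 4 L rn` and `(1 - e') κ ≤ AA w r ≤ (1 + e') κ` for `rn / (4 L) ≤ r ≤ 4 L rn` (`AA_sc`).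
`Con w η κ r` for `rn / L ≤ r ≤ L rn`: for `‖ρ‖ ≤ 4 r`:
`w ρ ≤ κ (|Im ρ| + e' rn) ≤ κ (|Im ρ| + e' L r) ≤ κ ((1 + η) |Im ρ| + η r)`.

-/

set_option autoImplicit false

noncomputable section

namespace Pool.Agent.MP_ae5b4e_an_N5

open Complex Set Filter Topology Metric
open Real (circleAverage)
open Pool.Agent.Lib.MP_ae5b4e_an_LL (SubH LocBdd ulim)
open scoped ComplexConjugate


/-- the unit scale picture around a record scale -/
private theorem nr_scale {w : ℂ → ℝ} {R' C0 r0 β κ q rn R₂ d : ℝ} (hw : NW w R' C0)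
    (hκ : 0 < κ) (hrec : Rec w r0 β κ rn) (hq : rn ≤ q) (hR₂ : R₂ * q ≤ r0) (hR : r0 < R')
    (hd : ∀ x : ℝ, |x| < R₂ → w ((q * x : ℝ) : ℂ) ≤ d * κ * max |q * x| q) :
    NW (sc w q κ) R₂ (C0 / (κ * q)) ∧ (∀ z, ‖z‖ < R₂ → sc w q κ z ≤ max 1 ‖z‖) ∧
      (∀ x : ℝ, |x| < R₂ → sc w q κ x ≤ d * max 1 |x|) := by
  have hq0 : 0 < q := hrec.pos.trans_le hq
  have hκq : 0 < κ * q := mul_pos hκ hq0
  refine ⟨(hw.sc hq0 hκ).mono ?_, fun z hz => ?_, fun x hx => ?_⟩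
  · rw [le_div_iff₀ hq0]
    linarith
  · unfold sc
    rw [div_le_iff₀ hκq]
    rcases eq_or_ne z 0 with rfl | hz0
    · rw [mul_zero, hw.zero]
      positivity
    · have hzn : 0 < ‖z‖ := norm_pos_iff.2 hz0
      have h1 : ‖(q : ℂ) * z‖ = q * ‖z‖ := by
        rw [norm_mul, norm_real, Real.norm_eq_abs, abs_of_pos hq0]
      have h2 := hw.le_VV (z := (q : ℂ) * z) h1.le
      have h3 : q * ‖z‖ ≤ r0 := by
        have := mul_le_mul_of_nonneg_left hz.le hq0.le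
        linarith
      have h4 := hrec.bd (q * ‖z‖) (mul_pos hq0 hzn) h3
      have h5 : κ * max (q * ‖z‖) rn ≤ κ * (q * max 1 ‖z‖) := by
        refine mul_le_mul_of_nonneg_left (max_le ?_ ?_) hκ.le
        · exact mul_le_mul_of_nonneg_left (le_max_right _ _) hq0.le
        · have := mul_le_mul_of_nonneg_left (le_max_left 1 ‖z‖) hq0.le
          linarith
      linarith
  · unfold sc
    rw [div_le_iff₀ hκq]
    have h1 := hd x hx
    have h2 : max |q * x| q = q * max 1 |x| := by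
      rw [abs_mul, abs_of_pos hq0, mul_max_of_nonneg _ _ hq0.le, mul_one, max_comm]
    rw [h2] at h1
    push_cast at h1
    linarith

theorem near_rec {w : ℂ → ℝ} {R' C0 r0 β η e L : ℝ} (hw : NW w R' C0) (hr0 : 0 < r0)
    (hR : r0 < R') (h2 : N2 w r0 β) (hβ0 : 0 ≤ β) (hβ : β ≤ 1) (hη : 0 < η) (he : 0 < e)
    (hL : 1 ≤ L) :
    ∃ κ0 : ℝ, 0 < κ0 ∧ ∀ κ ≥ κ0, ∀ rn, Rec w r0 β κ rn → κ * rn ≤ C0 → ∀ r, rn / L ≤ r →
      r ≤ L * rn → Con w η κ r ∧ (1 - e) * κ ≤ AA w r ∧ AA w r ≤ (1 + e) * κ := by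
  have hL0 : 0 < L := by linarith
  obtain ⟨e', he'⟩ : ∃ e' : ℝ, e' = min (min e (1 / 2)) (η / (2 * (4 + L))) := ⟨_, rfl⟩
  have he0 : 0 < e' := by
    rw [he']
    exact lt_min (lt_min he (by norm_num)) (by positivity)
  have he1 : e' ≤ e := by rw [he']; exact (min_le_left _ _).trans (min_le_left _ _)
  have he2 : e' ≤ 1 / 2 := by rw [he']; exact (min_le_left _ _).trans (min_le_right _ _)
  have he3 : e' * (2 * (4 + L)) ≤ η := by
    rw [← le_div_iff₀ (by positivity), he']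
    exact min_le_right _ _
  obtain ⟨R₂, hR₂, d, hd, hno⟩ := near_one he0 (show 1 ≤ 4 * L by linarith)
  obtain ⟨K, hK, κ1, hκ1, hrs⟩ := reals_small hw h2 hβ0 hβ hd
  have hR₂0 : 0 < R₂ := by linarith
  have hC0 : 0 ≤ C0 := (hw.nonneg 0).trans (hw.up 0)
  have hq0 : 0 ≤ C0 * K * R₂ / r0 := by positivity
  refine ⟨max κ1 (C0 * K * R₂ / r0 + 1), lt_max_of_lt_left hκ1, ?_⟩
  intro κ hκ rn hrec hrn r hr1 hr2
  have hκ' : κ1 ≤ κ := (le_max_left _ _).trans hκ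
  have hκ'' : C0 * K * R₂ / r0 + 1 ≤ κ := (le_max_right _ _).trans hκ
  have hκ0 : 0 < κ := by linarith
  have hrn0 := hrec.pos
  have hKR : K * (R₂ * rn) ≤ r0 := by
    have h3 : C0 * K * R₂ ≤ κ * r0 := by
      rw [← div_le_iff₀ hr0]
      linarith
    have h4 : κ * (K * (R₂ * rn)) ≤ κ * r0 := by
      calc κ * (K * (R₂ * rn)) = (κ * rn) * (K * R₂) := by ring
        _ ≤ C0 * (K * R₂) := mul_le_mul_of_nonneg_right hrn (by positivity)
        _ ≤ κ * r0 := by linarith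
    exact le_of_mul_le_mul_left h4 hκ0
  have hR2r : R₂ * rn ≤ r0 := by
    have h3 : 1 * (R₂ * rn) ≤ K * (R₂ * rn) := mul_le_mul_of_nonneg_right hK (by positivity)
    linarith
  obtain ⟨g1, g2, g3⟩ := nr_scale (d := d) hw hκ0 hrec le_rfl hR2r hR (fun x hx => by
    refine hrs κ hκ' rn hrec rn le_rfl (rn * x) ?_
    rw [abs_mul, abs_of_pos hrn0]
    have h3 : K * (rn * |x|) ≤ K * (R₂ * rn) := by
      refine mul_le_mul_of_nonneg_left ?_ (by linarith)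
      have := mul_le_mul_of_nonneg_left hx.le hrn0.le
      linarith
    linarith)
  have g4 : ∃ z : ℂ, ‖z‖ = 1 ∧ 1 ≤ sc w rn κ z := by
    obtain ⟨z, hz1, hz2⟩ := hw.exists_VV hrn0 (hrec.le.trans_lt hR)
    have hrC : (rn : ℂ) ≠ 0 := by exact_mod_cast hrn0.ne'
    refine ⟨z / rn, ?_, ?_⟩
    · rw [norm_div, hz1, norm_real, Real.norm_eq_abs, abs_of_pos hrn0, div_self hrn0.ne']
    · unfold sc
      rw [mul_div_cancel₀ _ hrC, hz2, hrec.eq, div_self (mul_pos hκ0 hrn0).ne']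
  obtain ⟨k1, k2⟩ := hno (sc w rn κ) _ g1 g2 g3 g4
  have hrpos : 0 < r := (div_pos hrn0 hL0).trans_le hr1
  have hrL : rn ≤ r * L := by rwa [div_le_iff₀ hL0] at hr1
  have hAA : 1 - e' ≤ AA w r / κ ∧ AA w r / κ ≤ 1 + e' := by
    have h3 := k2 (r / rn) (by
      rw [div_le_div_iff₀ (by positivity) hrn0]
      nlinarith) (by
      rw [div_le_iff₀ hrn0]
      nlinarith)
    rw [AA_sc hrn0 hκ0, mul_div_cancel₀ _ hrn0.ne'] at h3
    exact h3
  have hA1 : (1 - e') * κ ≤ AA w r := by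
    have := hAA.1
    rwa [le_div_iff₀ hκ0] at this
  have hA2 : AA w r ≤ (1 + e') * κ := by
    have := hAA.2
    rwa [div_le_iff₀ hκ0] at this
  have he4 : e' ≤ η := by
    have h3 : e' * 1 ≤ e' * (2 * (4 + L)) := mul_le_mul_of_nonneg_left (by linarith) he0.le
    linarith
  refine ⟨⟨?_, ?_⟩, ?_, ?_⟩
  · intro ρ _ hρ
    have hrC : (rn : ℂ) ≠ 0 := by exact_mod_cast hrn0.ne'
    have hn : ‖ρ / rn‖ ≤ 4 * L := by
      rw [norm_div, norm_real, Real.norm_eq_abs, abs_of_pos hrn0, div_le_iff₀ hrn0]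
      linarith
    have h3 := k1 _ hn
    unfold sc at h3
    have him : |(ρ / rn).im| = |ρ.im| / rn := by
      rw [div_ofReal_im, abs_div, abs_of_pos hrn0]
    rw [mul_div_cancel₀ _ hrC, him, div_le_iff₀ (mul_pos hκ0 hrn0)] at h3
    have h4 : (|ρ.im| / rn + e') * (κ * rn) = κ * (|ρ.im| + e' * rn) := by
      field_simp
    rw [h4] at h3
    refine h3.trans (mul_le_mul_of_nonneg_left ?_ hκ0.le)
    have h8 : e' * rn ≤ e' * (r * L) := mul_le_mul_of_nonneg_left hrL he0.le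
    have h9 : e' * (2 * (4 + L)) * r ≤ η * r := mul_le_mul_of_nonneg_right he3 hrpos.le
    have h10 : 0 ≤ η * |ρ.im| := by positivity
    have h11 : 0 ≤ e' * r := by positivity
    have h12 : 0 ≤ e' * (r * L) := by positivity
    nlinarith
  · rw [abs_le]
    have h3 : e' * κ ≤ η * κ := mul_le_mul_of_nonneg_right he4 hκ0.le
    constructor <;> linarith
  · have := mul_le_mul_of_nonneg_right (show 1 - e ≤ 1 - e' by linarith) hκ0.le
    linarith
  · have := mul_le_mul_of_nonneg_right (show 1 + e' ≤ 1 + e by linarith) hκ0.le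
    linarith

end Pool.Agent.MP_ae5b4e_an_N5
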