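import Pool.Agent.Lib.MP_ae5b4e_an_N5.RecE
import Pool.Agent.Lib.MP_ae5b4e_an_N5.Near
import Pool.Agent.Lib.MP_ae5b4e_an_N5.Drf
import Pool.Agent.Lib.MP_ae5b4e_an_N5.EndS

/-!
# N5, module Main: the global argument for `w`

Proof. Suppose not.  Let `η₀, a, C₄, M` be the constants of (N4); put `a := min a 1` (`(r / re)^a`
increases) and `η := min η₀ (1/2)` (`Con.mono`).
`D := 16 C₄ / (1 - 2^(-a))`.  Choose `ℓ : ℕ` with `D (2^(-ℓ))^a ≤ η / 128`, `j : ℕ` with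
`16 · 2^(-j) + D (2^(-j))^a ≤ η / 128`.  `K`, `κ₁` from `end_step ℓ`; `κ₂` from `near_rec` with
`e := η / 128`, `L := 2^(max j ℓ + 2)`.  Let `κ` be large and `rn` a record scale with record `κ`
(`exists_rec`), `rf := 2^(-j) rn`.
`A := {r | rn ≤ r ∧ r ≤ r0 ∧ ∀ r' ∈ [rf, r], Con w η κ r'}`; `L rn ∈ A` by
`near_rec`, `r ∈ A → r ≤ 4 C0 / κ` (`κ / 2 ≤ AA w r ≤ 2 VV w r / r ≤ 2 C0 / r`).  `σ := sSup A`; take
`re ∈ A`, `re > σ / 2`, so `re ≥ 2^(ℓ+1) rn`.  (N4): `H1` of `drift_sum` with `η = 1`, and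
`log (re / rf) ≤ C₄ log κ`.  `H2`: `Con w η κ rf` and `VV_le_of_sphere`.
`N` := the largest natural number with `2^N rn ≤ 2^(-ℓ) re`, `q := 2^N rn`, so
`2^ℓ q ≤ re < 2^(ℓ+1) q` and `N log 2 ≤ C₄ log κ`.  `drift_sum`:
`(1 - η/128) κ ≤ AA w rn ≤ AA w q + 16 κ 2^(-j) + 8 C₄ N + D κ ((2^(-ℓ))^a + (2^(-j))^a)`,
so `AA w q ≥ (1 - η / 32) κ` for `κ` large.  `end_step`: all `r ∈ [q, 2^(ℓ+2) q]` satisfy
`Con w η κ r`; in particular `2 re ∈ A`, but `2 re > σ`.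

-/

set_option autoImplicit false

noncomputable section

namespace Pool.Agent.MP_ae5b4e_an_N5

open Complex Set Filter Topology Metric
open Real (circleAverage)
open Pool.Agent.Lib.MP_ae5b4e_an_LL (SubH LocBdd ulim)
open scoped ComplexConjugate


theorem Con.mono {w : ℂ → ℝ} {η η' κ r : ℝ} (h : Con w η κ r) (hη : η ≤ η') (hκ : 0 ≤ κ)
    (hr : 0 ≤ r) : Con w η' κ r := by
  refine ⟨fun ρ h1 h2 => (h.1 ρ h1 h2).trans ?_, h.2.trans (mul_le_mul_of_nonneg_right hη hκ)⟩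
  have h3 : η * |ρ.im| ≤ η' * |ρ.im| := mul_le_mul_of_nonneg_right hη (abs_nonneg _)
  have h4 : η * r ≤ η' * r := mul_le_mul_of_nonneg_right hη hr
  exact mul_le_mul_of_nonneg_left (by linarith) hκ

theorem n5w {w : ℂ → ℝ} {R' C0 r0 β δ C r₁ : ℝ} (hw : NW w R' C0) (hr0 : 0 < r0)
    (h8 : 8 * r0 < R') (hβ : 0 < β) (hβδ : β < δ) (hδ : δ ≤ 1) (hr₁ : 0 < r₁)
    (hup : ∀ r, 0 < r → r < r₁ → VV w r ≤ C * r ^ δ)
    (h2 : N2 w r0 β) (h4 : N4 w r0) : ∃ M r1, 0 < r1 ∧ ∀ r, 0 < r → r < r1 → VV w r ≤ M * r := by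
  by_contra hcon
  push Not at hcon
  have hRr : r0 < R' := by linarith
  have hβ0 : 0 ≤ β := hβ.le
  have hβ1 : β ≤ 1 := by linarith
  have hC0 : 0 ≤ C0 := by
    have h1 := hw.up 0
    rw [hw.zero] at h1
    exact h1
  obtain ⟨η₀, hη₀, a₀, ha₀, C₄, hC₄, M, hM⟩ := h4
  obtain ⟨η, hηd⟩ : ∃ η, η = min η₀ (1 / 2) := ⟨_, rfl⟩
  have hη : 0 < η := by rw [hηd]; exact lt_min hη₀ (by norm_num)
  have hηη₀ : η ≤ η₀ := by rw [hηd]; exact min_le_left _ _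
  have hη1 : η ≤ 1 / 2 := by rw [hηd]; exact min_le_right _ _
  obtain ⟨a, had⟩ : ∃ a, a = min a₀ 1 := ⟨_, rfl⟩
  have ha : 0 < a := by rw [had]; exact lt_min ha₀ one_pos
  have haa₀ : a ≤ a₀ := by rw [had]; exact min_le_left _ _
  have ha1 : a ≤ 1 := by rw [had]; exact min_le_right _ _
  have h2a : (0:ℝ) < 1 - 2 ^ (-a) := by
    have h1 : (2:ℝ) ^ (-a) < 1 := Real.rpow_lt_one_of_one_lt_of_neg one_lt_two (by linarith)
    linarith
  obtain ⟨D, hDd⟩ : ∃ D, D = 16 * C₄ / (1 - (2:ℝ) ^ (-a)) := ⟨_, rfl⟩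
  have hD : 0 < D := by rw [hDd]; positivity
  -- the choice of `ℓ`
  have hpow : Tendsto (fun n : ℕ => ((1/2:ℝ) ^ n)) atTop (𝓝 0) :=
    tendsto_pow_atTop_nhds_zero_of_lt_one (by norm_num) (by norm_num)
  have hpowa : Tendsto (fun n : ℕ => ((1/2:ℝ) ^ n) ^ a) atTop (𝓝 0) := by
    have h1 := hpow.rpow_const (p := a) (Or.inr ha.le)
    rwa [Real.zero_rpow ha.ne'] at h1
  obtain ⟨ℓ, hℓ1, hℓ⟩ : ∃ ℓ : ℕ, 1 ≤ ℓ ∧ D * ((1/2:ℝ) ^ ℓ) ^ a ≤ η / 128 := by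
    have h1 : Tendsto (fun n : ℕ => D * ((1/2:ℝ) ^ n) ^ a) atTop (𝓝 (D * 0)) :=
      hpowa.const_mul D
    rw [mul_zero] at h1
    exact ((eventually_ge_atTop 1).and (h1.eventually (ge_mem_nhds (by positivity)))).exists
  obtain ⟨j, hj⟩ : ∃ j : ℕ, 16 * (1/2:ℝ) ^ j + D * ((1/2:ℝ) ^ j) ^ a ≤ η / 128 := by
    have h1 : Tendsto (fun n : ℕ => 16 * (1/2:ℝ) ^ n + D * ((1/2:ℝ) ^ n) ^ a) atTop
        (𝓝 (16 * 0 + D * 0)) := (hpow.const_mul 16).add (hpowa.const_mul D)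
    rw [mul_zero, mul_zero, add_zero] at h1
    exact (h1.eventually (ge_mem_nhds (by positivity))).exists
  obtain ⟨K, hK1, κ₁, hκ₁, hend⟩ := end_step hw hRr h2 hβ0 hβ1 hη ℓ
  obtain ⟨L, hLd⟩ : ∃ L : ℝ, L = 2 ^ (max j ℓ + 2) := ⟨_, rfl⟩
  have hL1 : 1 ≤ L := by rw [hLd]; exact one_le_pow₀ one_le_two
  obtain ⟨κ₂, hκ₂, hnear⟩ := near_rec (e := η / 128) (L := L) hw hr0 hRr h2 hβ0 hβ1 hη
    (by positivity) hL1
  -- the choice of `κ`
  have hlog : ∀ᶠ κ : ℝ in atTop, 8 * C₄ * (C₄ * Real.log κ / Real.log 2) ≤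
      η * κ / 128 := by
    have h1 : Tendsto (fun κ : ℝ => Real.log κ / κ) atTop (𝓝 0) :=
      Real.isLittleO_log_id_atTop.tendsto_div_nhds_zero
    have hl2 : 0 < Real.log 2 := Real.log_pos one_lt_two
    obtain ⟨t, htd⟩ : ∃ t, t = η / 128 * Real.log 2 / (8 * C₄ * C₄) := ⟨_, rfl⟩
    have ht : 0 < t := by rw [htd]; positivity
    filter_upwards [h1.eventually (ge_mem_nhds ht), eventually_gt_atTop 0] with κ hκ hκ0
    rw [div_le_iff₀ hκ0] at hκ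
    calc 8 * C₄ * (C₄ * Real.log κ / Real.log 2)
        = 8 * C₄ * C₄ / Real.log 2 * Real.log κ := by ring
      _ ≤ 8 * C₄ * C₄ / Real.log 2 * (t * κ) := by gcongr
      _ = η * κ / 128 := by rw [htd]; field_simp
  obtain ⟨κ₃, hκ₃⟩ := eventually_atTop.1 ((eventually_ge_atTop κ₁).and ((eventually_ge_atTop κ₂).and
      ((eventually_ge_atTop M).and ((eventually_ge_atTop 1).and
      ((eventually_ge_atTop (L * C0 / r0)).and ((eventually_ge_atTop (8 * C0 / r0)).and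
      ((eventually_ge_atTop (4 * K * C0 / r0)).and hlog)))))))
  obtain ⟨κ, hκa, rn, hrn, hrnC⟩ := exists_rec hw hr0 hRr hβδ hδ hr₁ hup hcon κ₃
  obtain ⟨hκb, hκc, hκd, hκe, hκf, hκg, hκh, hκi⟩ := hκ₃ κ hκa
  have hκ : 0 < κ := by linarith
  rw [div_le_iff₀ hr0] at hκf hκg hκh
  have hrn0 : 0 < rn := hrn.pos
  have hne := hnear κ hκc rn hrn hrnC
  obtain ⟨rf, hrfd⟩ : ∃ rf, rf = (1/2:ℝ) ^ j * rn := ⟨_, rfl⟩
  have hhj : 0 < (1/2:ℝ) ^ j := by positivity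
  have hrf : 0 < rf := by rw [hrfd]; positivity
  have hfn : rf ≤ rn := by
    rw [hrfd]
    have h1 : (1/2:ℝ) ^ j ≤ 1 := pow_le_one₀ (by norm_num) (by norm_num)
    exact mul_le_of_le_one_left hrn0.le h1
  have hjL : (2:ℝ) ^ j ≤ L := by
    rw [hLd]; exact pow_le_pow_right₀ one_le_two (by omega)
  have hLf : rn / L ≤ rf := by
    rw [hrfd, div_le_iff₀ (by linarith)]
    have h1 : (1/2:ℝ) ^ j * 2 ^ j = 1 := by rw [← mul_pow]; norm_num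
    have h2 : 1 ≤ (1/2:ℝ) ^ j * L := by
      calc (1:ℝ) = (1/2:ℝ) ^ j * 2 ^ j := h1.symm
        _ ≤ (1/2:ℝ) ^ j * L := by gcongr
    calc rn = 1 * rn := (one_mul _).symm
      _ ≤ (1/2:ℝ) ^ j * L * rn := by gcongr
      _ = (1/2:ℝ) ^ j * rn * L := by ring
  have hLr0 : L * rn ≤ r0 := by
    have h1 : L * C0 ≤ κ * r0 := by linarith
    have h2 : κ * (L * rn) ≤ κ * r0 := by
      calc κ * (L * rn) = L * (κ * rn) := by ring
        _ ≤ L * C0 := by gcongr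
        _ ≤ κ * r0 := h1
    exact le_of_mul_le_mul_left h2 hκ
  -- the set `A`
  let A : Set ℝ := {r | rn ≤ r ∧ r ≤ r0 ∧ ∀ r', rf ≤ r' → r' ≤ r → Con w η κ r'}
  have hLA : L * rn ∈ A := by
    refine ⟨le_mul_of_one_le_left hrn0.le hL1, hLr0, ?_⟩
    intro r' h1 h2
    exact (hne r' (hLf.trans h1) h2).1
  have hAb : ∀ r ∈ A, κ * r ≤ 4 * C0 := by
    rintro r ⟨h1, h2, h3⟩
    have hr : 0 < r := by linarith
    have h4' := (h3 r (hfn.trans h1) le_rfl).2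
    have h4 : κ / 2 ≤ AA w r := by
      rw [abs_le] at h4'
      have h5 : η * κ ≤ 1 / 2 * κ := mul_le_mul_of_nonneg_right hη1 hκ.le
      linarith [h4'.1]
    have h5 := hw.AA_le_VV hr
    have h6 := hw.VV_le_C0 hr.le
    have h7 : κ / 2 ≤ 2 * (C0 / r) := by
      calc κ / 2 ≤ 2 * (VV w r / r) := h4.trans h5
        _ ≤ 2 * (C0 / r) := by gcongr
    have h8 : κ / 2 * r ≤ 2 * C0 := by
      calc κ / 2 * r ≤ 2 * (C0 / r) * r := by gcongr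
        _ = 2 * C0 := by field_simp
    linarith
  have hAbdd : BddAbove A := ⟨r0, fun r hr => hr.2.1⟩
  have hσ0 : L * rn ≤ sSup A := le_csSup hAbdd hLA
  have hLrn : 0 < L * rn := by positivity
  obtain ⟨re, hreA, hreσ⟩ : ∃ re ∈ A, sSup A / 2 < re :=
    exists_lt_of_lt_csSup ⟨_, hLA⟩ (by linarith)
  obtain ⟨hnre, here0, hreP⟩ := hreA
  have hre0 : 0 < re := by linarith
  have hκre : κ * re ≤ 4 * C0 := hAb re ⟨hnre, here0, hreP⟩
  have hℓre : 2 ^ (ℓ + 1) * rn ≤ re := by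
    have h1 : (2:ℝ) ^ (ℓ + 1) * 2 ≤ L := by
      rw [hLd, ← pow_succ]; exact pow_le_pow_right₀ one_le_two (by omega)
    have h2 : (2:ℝ) ^ (ℓ + 1) * 2 * rn ≤ L * rn := by gcongr
    linarith
  -- (N4)
  have hlog2 : 0 < Real.log 2 := Real.log_pos one_lt_two
  have hfre : rf ≤ re := hfn.trans hnre
  obtain ⟨hN4a, hN4b⟩ := hM rf re κ hrf hfre here0 hκd (fun r h1 h2 =>
    (hreP r h1 h2).mono hηη₀ hκ.le (hrf.le.trans h1))
  have H1 : ∀ x : ℝ, rf ≤ x → x ≤ re →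
      w (x : ℂ) ≤ C₄ * x * (1 + 1 * κ * ((x / re) ^ a + (rf / x) ^ a)) := by
    intro x h1 h2
    have hx : 0 < x := by linarith
    refine (hN4a x h1 h2).trans ?_
    have h3 : (x / re) ^ a₀ ≤ (x / re) ^ a :=
      Real.rpow_le_rpow_of_exponent_ge (by positivity) ((div_le_one hre0).2 h2) haa₀
    have h4 : (rf / x) ^ a₀ ≤ (rf / x) ^ a :=
      Real.rpow_le_rpow_of_exponent_ge (by positivity) ((div_le_one hx).2 h1) haa₀
    have h5 : C₄ * x * (1 + κ * ((x / re) ^ a₀ + (rf / x) ^ a₀)) ≤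
        C₄ * x * (1 + κ * ((x / re) ^ a + (rf / x) ^ a)) := by gcongr
    rw [one_mul]
    exact h5
  have H2 : ∀ x : ℝ, 0 ≤ x → x < rf → w (x : ℂ) ≤ 4 * κ * rf := by
    intro x h1 h2
    have h3 : w (x : ℂ) ≤ VV w rf := hw.le_VV (by
      rw [Complex.norm_real, Real.norm_eq_abs, abs_of_nonneg h1]; exact h2.le)
    refine h3.trans ?_
    refine hw.VV_le_of_sphere hrf (by linarith) ?_
    intro z hz
    have h5 := (hreP rf le_rfl hfre).1 z (by rw [hz]; linarith) (by rw [hz]; linarith)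
    have h6 : |z.im| ≤ rf := by rw [← hz]; exact Complex.abs_im_le_norm z
    have h7 : 0 ≤ |z.im| := abs_nonneg _
    have h8 : (1 + η) * |z.im| + η * rf ≤ 4 * rf := by nlinarith only [h6, h7, hη1, hη, hrf]
    calc w z ≤ κ * ((1 + η) * |z.im| + η * rf) := h5
      _ ≤ κ * (4 * rf) := mul_le_mul_of_nonneg_left h8 hκ.le
      _ = 4 * κ * rf := by ring
  -- the choice of `N`
  have h2ℓ : (0:ℝ) < 2 ^ ℓ := by positivity
  obtain ⟨N, hNa, hNb⟩ := exists_nat_pow_near (x := re / (2 ^ ℓ * rn)) (y := (2:ℝ))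
    (by
      rw [le_div_iff₀ (by positivity), one_mul]
      refine le_trans ?_ hℓre
      gcongr
      · exact one_le_two
      · omega) one_lt_two
  rw [le_div_iff₀ (by positivity)] at hNa
  rw [div_lt_iff₀ (by positivity)] at hNb
  obtain ⟨q, hqd⟩ : ∃ q, q = 2 ^ N * rn := ⟨_, rfl⟩
  have hq0 : 0 < q := by rw [hqd]; positivity
  have hqre : 2 ^ ℓ * q ≤ re := by
    rw [hqd]
    calc (2:ℝ) ^ ℓ * (2 ^ N * rn) = 2 ^ N * (2 ^ ℓ * rn) := by ring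
      _ ≤ re := hNa
  have hreq : re < 2 ^ (ℓ + 1) * q := by
    rw [hqd]
    calc re < 2 ^ (N + 1) * (2 ^ ℓ * rn) := hNb
      _ = 2 ^ (ℓ + 1) * (2 ^ N * rn) := by ring
  have h2ℓ2 : (2:ℝ) ≤ 2 ^ ℓ := by
    calc (2:ℝ) = 2 ^ 1 := (pow_one _).symm
      _ ≤ 2 ^ ℓ := pow_le_pow_right₀ one_le_two hℓ1
  have hrnq : rn ≤ q := by
    rw [hqd]
    have : (1:ℝ) ≤ 2 ^ N := one_le_pow₀ one_le_two
    exact le_mul_of_one_le_left hrn0.le this
  have hqre' : q ≤ re :=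
    (le_mul_of_one_le_left hq0.le (one_le_two.trans h2ℓ2)).trans hqre
  have hN1 : 2 ^ (N + 1) * rn ≤ re := by
    calc (2:ℝ) ^ (N + 1) * rn = 2 * q := by rw [hqd]; ring
      _ ≤ 2 ^ ℓ * q := by gcongr
      _ ≤ re := hqre
  have hdr := drift_sum hw N hrf hfn hN1 (by linarith) ha ha1 hκ zero_le_one hC₄ H1 H2
  -- the number of steps
  have hNlog : (N:ℝ) * Real.log 2 ≤ C₄ * Real.log κ := by
    refine le_trans ?_ hN4b
    rw [← Real.log_pow]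
    apply Real.log_le_log (by positivity)
    rw [le_div_iff₀ hrf]
    calc (2:ℝ) ^ N * rf ≤ 2 ^ N * rn := by gcongr
      _ = q := hqd.symm
      _ ≤ re := hqre'
  have hNκ : 8 * C₄ * N ≤ η * κ / 128 := by
    refine le_trans ?_ hκi
    gcongr
    rw [le_div_iff₀ hlog2]
    exact hNlog
  have hqre2 : (2 ^ N * rn / re) ^ a ≤ ((1/2:ℝ) ^ ℓ) ^ a := by
    rw [← hqd]
    apply Real.rpow_le_rpow (by positivity) _ ha.le
    rw [div_le_iff₀ hre0]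
    have h1 : (1/2:ℝ) ^ ℓ * 2 ^ ℓ = 1 := by rw [← mul_pow]; norm_num
    calc q = (1/2:ℝ) ^ ℓ * 2 ^ ℓ * q := by rw [h1, one_mul]
      _ = (1/2:ℝ) ^ ℓ * (2 ^ ℓ * q) := by ring
      _ ≤ (1/2:ℝ) ^ ℓ * re := by gcongr
  have hfn2 : rf / rn = (1/2:ℝ) ^ j := by
    rw [hrfd]; field_simp
  have hAAq : (1 - η / 32) * κ ≤ AA w q := by
    obtain ⟨-, h1, -⟩ := hne rn (div_le_self hrn0.le hL1)
      (le_mul_of_one_le_left hrn0.le hL1)
    rw [hfn2] at hdr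
    have h2 : 16 * C₄ * 1 * κ / (1 - 2 ^ (-a)) * ((2 ^ N * rn / re) ^ a +
        ((1/2:ℝ) ^ j) ^ a) ≤ κ * (D * ((1/2:ℝ) ^ ℓ) ^ a) +
        κ * (D * ((1/2:ℝ) ^ j) ^ a) := by
      have h3 : 16 * C₄ * 1 * κ / (1 - 2 ^ (-a)) = κ * D := by rw [hDd]; ring
      rw [h3]
      calc κ * D * ((2 ^ N * rn / re) ^ a + ((1/2:ℝ) ^ j) ^ a)
          ≤ κ * D * (((1/2:ℝ) ^ ℓ) ^ a + ((1/2:ℝ) ^ j) ^ a) := by gcongr
        _ = κ * (D * ((1/2:ℝ) ^ ℓ) ^ a) + κ * (D * ((1/2:ℝ) ^ j) ^ a) := by ring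
    have h3 : κ * (D * ((1/2:ℝ) ^ ℓ) ^ a) ≤ κ * (η / 128) := by gcongr
    have h4 : κ * (16 * (1/2:ℝ) ^ j + D * ((1/2:ℝ) ^ j) ^ a) ≤ κ * (η / 128) := by gcongr
    rw [← hqd] at hdr
    rw [← hqd] at h2
    linarith
  -- the end
  have hKq : K * q ≤ r0 := by
    have h1 : κ * (K * q) ≤ κ * r0 := by
      calc κ * (K * q) ≤ κ * (K * re) := by gcongr
        _ = K * (κ * re) := by ring
        _ ≤ K * (4 * C0) := by gcongr
        _ = 4 * K * C0 := by ring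
        _ ≤ κ * r0 := hκh
    exact le_of_mul_le_mul_left h1 hκ
  have h2r0 : 2 * re ≤ r0 := by
    have h1 : κ * (2 * re) ≤ κ * r0 := by
      calc κ * (2 * re) = 2 * (κ * re) := by ring
        _ ≤ 2 * (4 * C0) := by gcongr
        _ = 8 * C0 := by ring
        _ ≤ κ * r0 := hκg
    exact le_of_mul_le_mul_left h1 hκ
  have hfin := hend κ hκb rn hrn q hrnq hKq hAAq
  have h2A : 2 * re ∈ A := by
    refine ⟨by linarith, h2r0, ?_⟩
    intro r' h1 h2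
    rcases le_total r' re with h3 | h3
    · exact hreP r' h1 h3
    · apply hfin r' (hqre'.trans h3) (h2.trans _)
      have : (2:ℝ) ^ (ℓ + 2) * q = 2 * (2 ^ (ℓ + 1) * q) := by ring
      rw [this]
      linarith
  have := le_csSup hAbdd h2A
  linarith

end Pool.Agent.MP_ae5b4e_an_N5
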