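import Pool.Agent.Lib.MP_ae5b4e_an_N5.Upp
import Pool.Agent.Lib.MP_ae5b4e_an_N5.Low

/-!
# N5, module Nr1: touching functions are close to `|Im|` (scale 1)

Proof. `upper` with `e' = e / (4 R₁)` (`R₁ ≥ 1`) and radius `R₁`; `lower` with `e / 2` and
`s₀ = 1 / R₁`.  `R₂ := ` the maximum of the two radii and `2 R₁ + 1`, `d` := the minimum of the two
and `e / (8 R₁²)`-ish.  Upper bound: `AA w s ≤ 1 + 2 e' / s ≤ 1 + e` (`NW.AA_le_lin` with `κ = 1`).
Lower bound for `s > 1 / R₁`: `NW.drift` from `1 / R₁` to `s` with `S := 2 R₁`, `b := 2 d R₁`: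
`1 - e / 2 ≤ AA w (1 / R₁) ≤ AA w s + 4 d R₁²`.  (`NW.mono` to change radii.)

-/

set_option autoImplicit false

noncomputable section

namespace Pool.Agent.MP_ae5b4e_an_N5

open Complex Set Filter Topology Metric
open Real (circleAverage)
open Pool.Agent.Lib.MP_ae5b4e_an_LL (SubH LocBdd ulim)
open scoped ComplexConjugate

private theorem nr1_real {d d' : ℝ} (h : d ≤ d') (x : ℝ) : d * max 1 |x| ≤ d' * max 1 |x| :=
  mul_le_mul_of_nonneg_right h (le_trans zero_le_one (le_max_left _ _))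

theorem near_one {e R₁ : ℝ} (he : 0 < e) (hR : 1 ≤ R₁) : ∃ R₂ > R₁, ∃ d > 0,
    ∀ (w : ℂ → ℝ) (C0 : ℝ), NW w R₂ C0 → (∀ z, ‖z‖ < R₂ → w z ≤ max 1 ‖z‖) →
    (∀ x : ℝ, |x| < R₂ → w x ≤ d * max 1 |x|) → (∃ z : ℂ, ‖z‖ = 1 ∧ 1 ≤ w z) →
    (∀ z, ‖z‖ ≤ R₁ → w z ≤ |z.im| + e) ∧
      ∀ s, 1 / R₁ ≤ s → s ≤ R₁ → 1 - e ≤ AA w s ∧ AA w s ≤ 1 + e := by
  have hR0 : 0 < R₁ := by linarith
  have he' : 0 < e / (4 * R₁) := by positivity
  have he2 : 0 < e / 2 := by positivity
  have hs0 : 0 < 1 / R₁ := by positivity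
  obtain ⟨Ru, hRu, du, hdu, HU⟩ := upper he' hR0
  obtain ⟨Rl, hRl, dl, hdl, HL⟩ := lower he2 hs0
  obtain ⟨d, hd⟩ : ∃ d, d = min (min du dl) (e / (8 * R₁ ^ 2)) := ⟨_, rfl⟩
  have hd0 : 0 < d := by
    rw [hd]
    exact lt_min (lt_min hdu hdl) (by positivity)
  have hd1 : d ≤ du := by
    rw [hd]
    exact (min_le_left _ _).trans (min_le_left _ _)
  have hd2 : d ≤ dl := by
    rw [hd]
    exact (min_le_left _ _).trans (min_le_right _ _)
  have hd3 : d ≤ e / (8 * R₁ ^ 2) := by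
    rw [hd]
    exact min_le_right _ _
  refine ⟨max (max Ru Rl) (2 * R₁ + 1), ?_, d, hd0, fun w C0 hw h1 h0 hz => ?_⟩
  · exact lt_max_of_lt_right (by linarith)
  have k1 : Ru ≤ max (max Ru Rl) (2 * R₁ + 1) := (le_max_left _ _).trans (le_max_left _ _)
  have k2 : Rl ≤ max (max Ru Rl) (2 * R₁ + 1) := (le_max_right _ _).trans (le_max_left _ _)
  have k3 : 2 * R₁ + 1 ≤ max (max Ru Rl) (2 * R₁ + 1) := le_max_right _ _
  have hu := HU w C0 (hw.mono k1) (fun z hz => h1 z (hz.trans_le k1))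
    (fun x hx => (h0 x (hx.trans_le k1)).trans (nr1_real hd1 x))
  have hl := HL w C0 (hw.mono k2) (fun z hz => h1 z (hz.trans_le k2))
    (fun x hx => (h0 x (hx.trans_le k2)).trans (nr1_real hd2 x)) hz
  have hee : e / (4 * R₁) ≤ e := by
    rw [div_le_iff₀ (by positivity)]
    nlinarith
  refine ⟨fun z hz => (hu z hz).trans (by linarith), fun s hs1 hs2 => ?_⟩
  have hs : 0 < s := lt_of_lt_of_le hs0 hs1
  constructor
  · rcases hs1.eq_or_lt with rfl | hlt
    · linarith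
    · have hdr := hw.drift (r := 1 / R₁) (R := s) (S := 2 * R₁) (b := 2 * d * R₁) hs0 hlt
        (by linarith) (by linarith) (by positivity) (fun x hx => by
          have h2 := h0 x (by linarith)
          have h3 : max 1 |x| ≤ 2 * R₁ := max_le (by linarith) hx.le
          have h4 : d * max 1 |x| ≤ d * (2 * R₁) := mul_le_mul_of_nonneg_left h3 hd0.le
          linarith)
      have h5 : 2 * (2 * d * R₁) / (1 / R₁) = 4 * d * R₁ ^ 2 := by
        field_simp
        ring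
      have h6 : 4 * d * R₁ ^ 2 ≤ e / 2 := by
        rw [le_div_iff₀ (by positivity)] at hd3
        linarith
      rw [h5] at hdr
      linarith
  · have h2 := hw.AA_le_lin (r := s) (κ := 1) (b := e / (4 * R₁)) hs (by norm_num) he'.le
      (fun z hz => by
        have := hu z (by rw [hz]; exact hs2)
        linarith)
    have h3 : 2 * (e / (4 * R₁)) / s ≤ e := by
      rw [div_le_iff₀ hs]
      have h4 : 1 ≤ s * R₁ := by
        rw [div_le_iff₀ hR0] at hs1
        exact hs1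
      have h5 : 2 * (e / (4 * R₁)) = e / (2 * R₁) := by
        field_simp
        ring
      rw [h5, div_le_iff₀ (by positivity)]
      nlinarith
    linarith

end Pool.Agent.MP_ae5b4e_an_N5
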