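import Pool.Agent.Lib.MP_ae5b4e_an_N5.PLq
import Pool.Agent.Lib.MP_ae5b4e_an_LL.Two
import Pool.Agent.Lib.MP_ae5b4e_an_LL.Comp

/-!
# N5, module PL: Phragmén–Lindelöf in the half plane

`u` subharmonic on `ℂ`, `u ≤ 0` on the reals, `u z ≤ max 1 ‖z‖`.  Then `u z ≤ Im z` for
`Im z ≥ 0`, and `u z ≤ |Im z|` everywhere.

Proof. Let `c > 1`, `f z := u z - c Im z` (`SubH.sub_harmonic`).  In the first quadrant `quad`
applies with `M = 1`: the frontier points are `x ≥ 0`, where limsup `u ≤ u x ≤ 0` (upper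
semicontinuity), and `i y`, `y ≥ 0`, where limsup `u ≤ u (i y) ≤ max 1 y ≤ c y + 1`.  The same for
`z ↦ f (i z)` (`SubH.comp`): second quadrant.  On the imaginary axis `f ≤ 1` directly.  So
`u z ≤ c Im z + 1` for `Im z > 0` and all `c > 1`, hence `u z ≤ Im z + 1`.  Now `u - Im` is
subharmonic, `≤ 1` on the upper half plane and limsup `≤ 0` at every real point:
`SubH.le_of_halfPlane` (LL/Two) with `M = 0`, `E = ∅` gives `u ≤ Im`.  For `Im z < 0` apply this to
`z ↦ u (-z)`.

-/

set_option autoImplicit false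

noncomputable section

namespace Pool.Agent.MP_ae5b4e_an_N5

open Complex Set Filter Topology Metric
open Real (circleAverage)
open Pool.Agent.Lib.MP_ae5b4e_an_LL (SubH LocBdd ulim)
open scoped ComplexConjugate


private theorem pl_im_harm (c : ℝ) : InnerProductSpace.HarmonicOnNhd (fun z : ℂ => c * z.im)
    univ := by
  have e : (fun z : ℂ => c * z.im) = c • (fun z : ℂ => z.im) := by
    funext z
    simp
  rw [e]
  exact InnerProductSpace.HarmonicOnNhd.const_smul fun z _ => AnalyticAt.harmonicAt_im analyticAt_id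

private theorem pl_usc {f : ℂ → ℝ} (hf : SubH f univ) {ζ : ℂ} {M : ℝ} (h : f ζ ≤ M) (S : Set ℂ) :
    ∀ ε > 0, ∀ᶠ z in 𝓝[S] ζ, f z ≤ M + ε := by
  intro ε hε
  have h1 := hf.usc ζ (mem_univ ζ) (M + ε) (by
    show f ζ < M + ε
    linarith)
  have h2 := h1.filter_mono (nhdsWithin_mono ζ (subset_univ S))
  filter_upwards [h2] with z hz
  exact le_of_lt hz

private theorem pl_quad {f : ℂ → ℝ} (hf : SubH f univ)
    (hB : ∀ z : ℂ, 0 < z.re → 0 < z.im → f z ≤ 1 + ‖z‖) (hx : ∀ x : ℝ, 0 ≤ x → f x ≤ 1)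
    (hy : ∀ y : ℝ, 0 ≤ y → f (y * I) ≤ 1) {z : ℂ} (h1 : 0 < z.re) (h2 : 0 < z.im) : f z ≤ 1 := by
  refine quad (B := 1) (hf.mono (subset_univ _)) (fun z h1 h2 => ?_) (fun ζ hζ => ?_) h1 h2
  · rw [one_mul]
    exact hB z h1 h2
  · refine pl_usc hf ?_ _
    have hcl : closure {z : ℂ | 0 < z.re ∧ 0 < z.im} ⊆ {z : ℂ | 0 ≤ z.re ∧ 0 ≤ z.im} :=
      closure_minimal (fun z hz => ⟨hz.1.le, hz.2.le⟩)
        ((isClosed_le continuous_const Complex.continuous_re).inter
          (isClosed_le continuous_const Complex.continuous_im))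
    have hop : IsOpen {z : ℂ | 0 < z.re ∧ 0 < z.im} :=
      (isOpen_lt continuous_const Complex.continuous_re).inter
        (isOpen_lt continuous_const Complex.continuous_im)
    have h3 := hcl hζ.1
    have h4 : ζ ∉ {z : ℂ | 0 < z.re ∧ 0 < z.im} := by
      have := hζ.2
      rwa [hop.interior_eq] at this
    rcases h3.1.eq_or_lt with h5 | h5
    · have h6 : ζ = (ζ.im : ℂ) * I := by
        apply Complex.ext
        · simp [← h5]
        · simp
      rw [h6]
      exact hy _ h3.2
    · have h6 : ζ.im = 0 := by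
        by_contra h7
        exact h4 ⟨h5, lt_of_le_of_ne h3.2 (Ne.symm h7)⟩
      have h7 : ζ = (ζ.re : ℂ) := by
        apply Complex.ext
        · simp
        · simp [h6]
      rw [h7]
      exact hx _ h3.1

private theorem pl_upper {u : ℂ → ℝ} (hu : SubH u univ) (h0 : ∀ x : ℝ, u x ≤ 0)
    (h1 : ∀ z, u z ≤ max 1 ‖z‖) {c : ℝ} (hc : 1 < c) {z : ℂ} (hz : 0 < z.im) :
    u z ≤ c * z.im + 1 := by
  obtain ⟨f, hfd⟩ : ∃ f : ℂ → ℝ, f = fun z => u z - c * z.im := ⟨_, rfl⟩
  have hf : SubH f univ := by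
    rw [hfd]
    exact hu.sub_harmonic isOpen_univ (pl_im_harm c)
  have hfle : ∀ z : ℂ, 0 ≤ z.im → f z ≤ 1 + ‖z‖ := by
    intro z hz
    have h2 := h1 z
    have h3 : max 1 ‖z‖ ≤ 1 + ‖z‖ := max_le (by linarith [norm_nonneg z]) (by linarith)
    have h4 : 0 ≤ c * z.im := mul_nonneg (by linarith) hz
    rw [hfd]
    dsimp only
    linarith
  have hre : ∀ x : ℝ, f x ≤ 1 := by
    intro x
    rw [hfd]
    have := h0 x
    simp only [ofReal_im, mul_zero, sub_zero]
    linarith
  have hig : ∀ y : ℝ, 0 ≤ y → f (y * I) ≤ 1 := by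
    intro y hy
    have h2 := h1 (y * I)
    rw [norm_mul, norm_I, mul_one, norm_real, Real.norm_eq_abs, abs_of_nonneg hy] at h2
    have h3 : max 1 y ≤ c * y + 1 := max_le (by nlinarith) (by nlinarith)
    rw [hfd]
    simp only [mul_im, ofReal_re, I_im, mul_one, ofReal_im, I_re, mul_zero, add_zero]
    linarith
  have hfz : f z ≤ 1 := by
    rcases lt_trichotomy z.re 0 with h2 | h2 | h2
    · have hg : SubH (fun w => f (I * w)) univ := by
        refine SubH.comp isOpen_univ isOpen_univ hf (φ := fun w => I * w) ?_ (mapsTo_univ _ _)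
        exact fun w _ => analyticAt_const.mul analyticAt_id
      have h3 := pl_quad hg (fun w hw1 hw2 => by
          have h4 := hfle (I * w) (by simp; exact hw1.le)
          rw [norm_mul, norm_I, one_mul] at h4
          exact h4)
        (fun x hx => by
          show f (I * x) ≤ 1
          rw [mul_comm]
          exact hig x hx)
        (fun y hy => by
          show f (I * (y * I)) ≤ 1
          have h4 : I * ((y : ℂ) * I) = ((-y : ℝ) : ℂ) := by
            have h5 : I * ((y : ℂ) * I) = y * (I * I) := by ring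
            rw [h5, I_mul_I]
            push_cast
            ring
          rw [h4]
          exact hre _) (z := -I * z) (by simpa using hz) (by simpa using h2)
      have h4 : I * (-I * z) = z := by
        have h5 : I * (-I * z) = -(I * I) * z := by ring
        rw [h5, I_mul_I]
        ring
      change f (I * (-I * z)) ≤ 1 at h3
      rwa [h4] at h3
    · have h3 : z = (z.im : ℂ) * I := by
        apply Complex.ext
        · simp [h2]
        · simp
      rw [h3]
      exact hig _ hz.le
    · exact pl_quad hf (fun w _ hw2 => hfle w hw2.le) (fun x _ => hre x) hig h2 hz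
  rw [hfd] at hfz
  dsimp only at hfz
  linarith

private theorem pl_half {u : ℂ → ℝ} (hu : SubH u univ) (h0 : ∀ x : ℝ, u x ≤ 0)
    (h1 : ∀ z, u z ≤ max 1 ‖z‖) {z : ℂ} (hz : 0 < z.im) : u z ≤ z.im := by
  have hb : ∀ z : ℂ, 0 < z.im → u z ≤ z.im + 1 := by
    intro z hz
    refine le_of_forall_pos_le_add fun ε hε => ?_
    have h2 := pl_upper hu h0 h1 (c := 1 + ε / z.im) (by
      have : 0 < ε / z.im := div_pos hε hz
      linarith) hz
    have h3 : (1 + ε / z.im) * z.im + 1 = z.im + 1 + ε := by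
      field_simp
      ring
    rwa [h3] at h2
  have hf : SubH (fun z => u z - 1 * z.im) univ := hu.sub_harmonic isOpen_univ (pl_im_harm 1)
  have h2 := SubH.le_of_halfPlane (hf.mono (subset_univ _)) (B := 1) (M := 0) (fun z hz => by
      have := hb z hz
      linarith) finite_empty (fun ζ hζ _ => by
      refine pl_usc hf ?_ _
      have h3 : ζ = (ζ.re : ℂ) := by
        apply Complex.ext
        · simp
        · simp [hζ]
      have h4 := h0 ζ.re
      rw [← h3] at h4
      rw [hζ]
      linarith) z hz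
  linarith

theorem pl {u : ℂ → ℝ} (hu : SubH u univ) (h0 : ∀ x : ℝ, u x ≤ 0)
    (h1 : ∀ z, u z ≤ max 1 ‖z‖) (z : ℂ) : u z ≤ |z.im| := by
  rcases lt_trichotomy z.im 0 with h2 | h2 | h2
  · have hv : SubH (fun w => u (-w)) univ := by
      refine SubH.comp isOpen_univ isOpen_univ hu (φ := fun w => -w) ?_ (mapsTo_univ _ _)
      exact fun w _ => analyticAt_id.neg
    have h3 := pl_half hv (fun x => by
        show u (-(x : ℂ)) ≤ 0
        have := h0 (-x)
        rwa [ofReal_neg] at this) (fun w => by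
        have := h1 (-w)
        rwa [norm_neg] at this) (z := -z) (by simpa using h2)
    change u (-(-z)) ≤ (-z).im at h3
    rw [neg_neg, neg_im] at h3
    rw [abs_of_neg h2]
    exact h3
  · have h3 : z = (z.re : ℂ) := by
      apply Complex.ext
      · simp
      · simp [h2]
    have h4 := h0 z.re
    rw [← h3] at h4
    exact h4.trans (abs_nonneg _)
  · rw [abs_of_pos h2]
    exact pl_half hu h0 h1 h2

end Pool.Agent.MP_ae5b4e_an_N5
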