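import Pool.Agent.Lib.MP_ae5b4e_an_N5.Defs
import Pool.Agent.Lib.MP_ae5b4e_an_LL.Two

/-!
# N5, module PLq: Phragmén–Lindelöf in a quadrant

`f` subharmonic in the open first quadrant `Qd`, `f z ≤ B (1 + ‖z‖)`, limsup `≤ M` at every point
of the frontier.  Then `f ≤ M`.

Proof. For `ε > 0` put `h z := Re ((e^{-iπ/4} z)^{3/2})`, harmonic on `Qd` (principal branch,
`|arg (e^{-iπ/4} z)| < π/4`), `h z = ‖z‖^{3/2} cos (3/2 arg) ≥ cos (3π/8) ‖z‖^{3/2} ≥ 0`.
`f - ε h` is subharmonic on `Qd`, bounded above (`B (1 + x) - ε c x^{3/2}` is bounded for `x ≥ 0`),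
limsup `≤ M` on the frontier.  `SubH.le_of_frontier_unbounded` with `a = -1 - i`, `δ = 1`,
`E = ∅` gives `f - ε h ≤ M`; let `ε → 0`.  (Alternatively use the harmonic function
`Re (z²)`-free choice `h z = Re (e^{-3iπ/8} z^{3/2})`, the same function.)

-/

set_option autoImplicit false

noncomputable section

namespace Pool.Agent.MP_ae5b4e_an_N5

open Complex Set Filter Topology Metric
open Real (circleAverage)
open Pool.Agent.Lib.MP_ae5b4e_an_LL (SubH LocBdd ulim)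
open scoped ComplexConjugate

/-- the harmonic function `Re (e^{-3iπ/8} z^{3/2})` -/
private def plqH (z : ℂ) : ℝ :=
  (Complex.exp ((3 / 2 : ℂ) * Complex.log z - ((3 * Real.pi / 8 : ℝ) : ℂ) * I)).re

private theorem plqH_eq (z : ℂ) :
    plqH z = Real.exp (3 / 2 * Real.log ‖z‖) * Real.cos (3 / 2 * arg z - 3 * Real.pi / 8) := by
  have e : (3 / 2 : ℂ) = ((3 / 2 : ℝ) : ℂ) := by push_cast; rfl
  rw [plqH, Complex.exp_re, e]
  congr 2
  · rw [sub_re, re_ofReal_mul, re_ofReal_mul, I_re, log_re]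
    ring
  · rw [sub_im, im_ofReal_mul, im_ofReal_mul, I_im, log_im]
    ring

private theorem plq_cos : 0 < Real.cos (3 * Real.pi / 8) := by
  have := Real.pi_pos
  exact Real.cos_pos_of_mem_Ioo ⟨by linarith, by linarith⟩

private theorem plqH_ge {z : ℂ} (h1 : 0 < z.re) (h2 : 0 < z.im) :
    Real.cos (3 * Real.pi / 8) * Real.sqrt ‖z‖ ^ 3 ≤ plqH z := by
  have hz : z ≠ 0 := by
    rintro rfl
    simp at h1
  have hn : 0 < ‖z‖ := norm_pos_iff.2 hz
  have ha : |arg z| < Real.pi / 2 := abs_arg_lt_pi_div_two_iff.2 (Or.inl h1)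
  have hb : 0 ≤ arg z := arg_nonneg_iff.2 h2.le
  rw [abs_of_nonneg hb] at ha
  have hp := Real.pi_pos
  have hc : Real.cos (3 * Real.pi / 8) ≤ Real.cos (3 / 2 * arg z - 3 * Real.pi / 8) := by
    rw [← Real.cos_abs (3 / 2 * arg z - 3 * Real.pi / 8)]
    refine Real.cos_le_cos_of_nonneg_of_le_pi (abs_nonneg _) (by linarith) ?_
    rw [abs_le]
    constructor <;> linarith
  have he : Real.exp (3 / 2 * Real.log ‖z‖) = Real.sqrt ‖z‖ ^ 3 := by
    have h3 : Real.log ‖z‖ = 2 * Real.log (Real.sqrt ‖z‖) := by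
      rw [Real.log_sqrt hn.le]
      ring
    rw [h3]
    have h4 : 3 / 2 * (2 * Real.log (Real.sqrt ‖z‖)) = (3 : ℕ) * Real.log (Real.sqrt ‖z‖) := by
      push_cast
      ring
    rw [h4, Real.exp_nat_mul, Real.exp_log (Real.sqrt_pos.2 hn)]
  rw [plqH_eq, he, mul_comm]
  exact mul_le_mul_of_nonneg_left hc (by positivity)

private theorem plq_bd {B d y : ℝ} (hd : 0 < d) (hy : 0 ≤ y) :
    B * (1 + y ^ 2) - d * y ^ 3 ≤ |B| + |B| * (|B| / d) ^ 2 := by
  have h1 : B * (1 + y ^ 2) ≤ |B| * (1 + y ^ 2) :=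
    mul_le_mul_of_nonneg_right (le_abs_self B) (by positivity)
  have h0 := abs_nonneg B
  have hnn : 0 ≤ |B| * (|B| / d) ^ 2 := by positivity
  rcases le_total y (|B| / d) with h | h
  · have h2 : |B| * y ^ 2 ≤ |B| * (|B| / d) ^ 2 :=
      mul_le_mul_of_nonneg_left (pow_le_pow_left₀ hy h 2) h0
    have h3 : 0 ≤ d * y ^ 3 := by positivity
    linarith
  · rw [div_le_iff₀ hd] at h
    have h2 : |B| * y ^ 2 ≤ y * d * y ^ 2 := mul_le_mul_of_nonneg_right h (by positivity)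
    have h3 : y * d * y ^ 2 = d * y ^ 3 := by ring
    linarith

private theorem plq_harm (M ε : ℝ) : InnerProductSpace.HarmonicOnNhd
    (fun z => M + ε * plqH z) {z : ℂ | 0 < z.re ∧ 0 < z.im} := by
  intro z hz
  have hs : z ∈ slitPlane := by
    rw [mem_slitPlane_iff]
    exact Or.inl hz.1
  have ha : AnalyticAt ℂ (fun z : ℂ => (M : ℂ) + (ε : ℂ) *
      Complex.exp ((3 / 2 : ℂ) * Complex.log z - ((3 * Real.pi / 8 : ℝ) : ℂ) * I)) z := by
    have hl : AnalyticAt ℂ Complex.log z := analyticAt_clog hs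
    fun_prop
  have hh := ha.harmonicAt_re
  have e : (fun z : ℂ => ((M : ℂ) + (ε : ℂ) *
      Complex.exp ((3 / 2 : ℂ) * Complex.log z - ((3 * Real.pi / 8 : ℝ) : ℂ) * I)).re) =
      fun z => M + ε * plqH z := by
    funext z
    rw [add_re, re_ofReal_mul, ofReal_re, plqH]
  rw [← e]
  exact hh

theorem quad {f : ℂ → ℝ} (hf : SubH f {z : ℂ | 0 < z.re ∧ 0 < z.im}) {M B : ℝ}
    (hB : ∀ z : ℂ, 0 < z.re → 0 < z.im → f z ≤ B * (1 + ‖z‖))
    (hfr : ∀ ζ ∈ frontier {z : ℂ | 0 < z.re ∧ 0 < z.im}, ∀ ε > 0,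
      ∀ᶠ z in 𝓝[{z : ℂ | 0 < z.re ∧ 0 < z.im}] ζ, f z ≤ M + ε) {z : ℂ} (h1 : 0 < z.re)
    (h2 : 0 < z.im) : f z ≤ M := by
  have hV : IsOpen {z : ℂ | 0 < z.re ∧ 0 < z.im} :=
    (isOpen_lt continuous_const Complex.continuous_re).inter
      (isOpen_lt continuous_const Complex.continuous_im)
  have hc := plq_cos
  have hpos : ∀ z : ℂ, 0 < z.re → 0 < z.im → 0 < plqH z := by
    intro z h1 h2
    have hz : z ≠ 0 := by
      rintro rfl
      simp at h1
    refine lt_of_lt_of_le ?_ (plqH_ge h1 h2)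
    have h3 : 0 < Real.sqrt ‖z‖ := Real.sqrt_pos.2 (norm_pos_iff.2 hz)
    positivity
  have key : ∀ ε : ℝ, 0 < ε → f z ≤ M + ε * plqH z := by
    intro ε hε
    refine hf.le_harmonic_unbounded hV (u := fun z => M + ε * plqH z) (plq_harm M ε)
      (B := |B| + |B| * (|B| / (ε * Real.cos (3 * Real.pi / 8))) ^ 2 - M) ?_
      (a := -1) (δ := 1) one_pos ?_ (E := ∅) Set.finite_empty ?_ z ⟨h1, h2⟩
    · rintro w ⟨hw1, hw2⟩
      have h3 := hB w hw1 hw2
      have h4 := mul_le_mul_of_nonneg_left (plqH_ge hw1 hw2) hε.le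
      have h5 := plq_bd (B := B) (mul_pos hε hc) (Real.sqrt_nonneg ‖w‖)
      rw [Real.sq_sqrt (norm_nonneg w)] at h5
      show f w - (M + ε * plqH w) ≤ _
      nlinarith
    · rintro w ⟨hw1, hw2⟩
      have h3 : |(w - -1).re| ≤ ‖w - -1‖ := Complex.abs_re_le_norm _
      have h4 : (w - -1).re = w.re + 1 := by simp
      rw [h4] at h3
      have h5 := le_abs_self (w.re + 1)
      linarith
    · intro ζ hζ _ η hη
      filter_upwards [hfr ζ hζ η hη, self_mem_nhdsWithin] with w hw hw2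
      have h3 := mul_pos hε (hpos w hw2.1 hw2.2)
      show f w ≤ M + ε * plqH w + η
      linarith
  by_contra hcon
  rw [not_le] at hcon
  have h3 := hpos z h1 h2
  have h4 := key ((f z - M) / (2 * plqH z)) (div_pos (by linarith) (by linarith))
  have h5 : (f z - M) / (2 * plqH z) * plqH z = (f z - M) / 2 := by
    field_simp
  rw [h5] at h4
  linarith

end Pool.Agent.MP_ae5b4e_an_N5
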