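import Pool.Agent.Lib.MP_ae5b4e_an_N5.Bas

/-!
# N5, module RecE: record scales

Proof. Let `κ > 0`.  `A := {r | 0 < r ∧ r ≤ r0 ∧ κ r ≤ VV w r}` is nonempty by `hunb`, bounded by
`r0`; `s := sSup A > 0`, `κ s ≤ VV w s` (`VV_mono`, take `r' → s` in `A`), and `VV w x < κ x` for
`s < x ≤ r0`.
`g z := w z ‖z‖^(-β)` is upper semicontinuous on `z ≠ 0`.  Choose `ε ≤ s` with
`C ε^(δ - β) < κ s^(1 - β)`; let `z` be a maximum point of `g` on the compact annulus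
`ε ≤ ‖z‖ ≤ s`, `r := ‖z‖`.  For `x ≤ s`: `VV w x ≤ VV w r (x / r)^β`: for `x ≥ ε` the maximum of `w`
over the disc is attained on the circle (`exists_VV`); for `x < ε`:
`VV w x x^(-β) ≤ C x^(δ - β) ≤ κ s^(1 - β) ≤ VV w s s^(-β) ≤ VV w r r^(-β)`.
`κ' := VV w r / r ≥ κ` (`x = s`: `κ s ≤ VV w s ≤ VV w r (s / r)^β ≤ VV w r (s / r)`).
`bd`: `x ≤ r` monotonicity; `r ≤ x ≤ s`: `(x / r)^β ≤ x / r`; `x > s`: `VV w x < κ x ≤ κ' x`.

-/

set_option autoImplicit false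

noncomputable section

namespace Pool.Agent.MP_ae5b4e_an_N5

open Complex Set Filter Topology Metric
open Real (circleAverage)
open Pool.Agent.Lib.MP_ae5b4e_an_LL (SubH LocBdd ulim)
open scoped ComplexConjugate

/-- the largest scale of height at least `κ` -/
private theorem rec_top {w : ℂ → ℝ} {R' C0 r0 κ : ℝ} (hw : NW w R' C0) (hr0 : 0 < r0)
    (hκ0 : 0 < κ) (hunb : ∀ M r1 : ℝ, 0 < r1 → ∃ r, 0 < r ∧ r < r1 ∧ M * r < VV w r) :
    ∃ s, 0 < s ∧ s ≤ r0 ∧ κ * s ≤ VV w s ∧ ∀ x, s < x → x ≤ r0 → VV w x < κ * x := by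
  obtain ⟨A, hA⟩ : ∃ A : Set ℝ, A = {r | 0 < r ∧ r ≤ r0 ∧ κ * r ≤ VV w r} := ⟨_, rfl⟩
  obtain ⟨r1, h1, h2, h3⟩ := hunb κ r0 hr0
  have hr1 : r1 ∈ A := by
    rw [hA]
    exact ⟨h1, h2.le, h3.le⟩
  have hbdd : BddAbove A := ⟨r0, fun r hr => by rw [hA] at hr; exact hr.2.1⟩
  have hle : ∀ r ∈ A, r ≤ sSup A := fun r hr => le_csSup hbdd hr
  obtain ⟨r, hr⟩ : ∃ r, r = sSup A := ⟨_, rfl⟩
  rw [← hr] at hle
  have hrpos : 0 < r := h1.trans_le (hle r1 hr1)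
  have hrr0 : r ≤ r0 := by
    rw [hr]
    exact csSup_le ⟨r1, hr1⟩ fun x hx => by rw [hA] at hx; exact hx.2.1
  have hge : κ * r ≤ VV w r := by
    have h4 : r ≤ VV w r / κ := by
      conv_lhs => rw [hr]
      refine csSup_le ⟨r1, hr1⟩ fun x hx => ?_
      rw [le_div_iff₀ hκ0]
      have hx' := hx
      rw [hA] at hx'
      have h5 := hw.VV_mono hx'.1.le (hle x hx)
      linarith [hx'.2.2]
    rw [le_div_iff₀ hκ0] at h4
    linarith
  refine ⟨r, hrpos, hrr0, hge, fun s hs1 hs2 => ?_⟩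
  by_contra hcon
  have h4 : s ∈ A := by
    rw [hA]
    exact ⟨hrpos.trans hs1, hs2, not_lt.1 hcon⟩
  exact absurd (hle s h4) (not_le.2 hs1)

/-- the weighted maximum over an annulus is attained -/
private theorem rec_max {w : ℂ → ℝ} {R' C0 β ε s : ℝ} (hw : NW w R' C0) (hε : 0 < ε)
    (hεs : ε ≤ s) : ∃ z : ℂ, ε ≤ ‖z‖ ∧ ‖z‖ ≤ s ∧
      ∀ y : ℂ, ε ≤ ‖y‖ → ‖y‖ ≤ s → w y * ‖y‖ ^ (-β) ≤ w z * ‖z‖ ^ (-β) := by
  obtain ⟨S, hS⟩ : ∃ S : Set ℂ, S = closedBall 0 s ∩ {z | ε ≤ ‖z‖} := ⟨_, rfl⟩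
  have hSm : ∀ z : ℂ, z ∈ S ↔ ε ≤ ‖z‖ ∧ ‖z‖ ≤ s := by
    intro z
    rw [hS, mem_inter_iff, mem_closedBall_zero_iff, mem_ofPred_eq]
    exact and_comm
  have hSc : IsCompact S := by
    rw [hS]
    exact (isCompact_closedBall _ _).inter_right (isClosed_le continuous_const continuous_norm)
  have hSn : S.Nonempty := ⟨(ε : ℂ), by
    rw [hSm, Complex.norm_real, Real.norm_eq_abs, abs_of_pos hε]
    exact ⟨le_rfl, hεs⟩⟩
  have husc : UpperSemicontinuousOn (fun z : ℂ => w z * ‖z‖ ^ (-β)) S := by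
    intro z hz b hb
    apply mem_nhdsWithin_of_mem_nhds
    have hz0 : 0 < ‖z‖ := hε.trans_le ((hSm z).1 hz).1
    have hφ : 0 < ‖z‖ ^ (-β) := Real.rpow_pos_of_pos hz0 _
    have hb' : w z < b / ‖z‖ ^ (-β) := by
      rw [lt_div_iff₀ hφ]
      exact hb
    obtain ⟨c, hc1, hc2⟩ := exists_between hb'
    have hc0 : 0 < c := (hw.nonneg z).trans_lt hc1
    rw [lt_div_iff₀ hφ] at hc2
    have h1 : ∀ᶠ y in 𝓝 z, w y < c := hw.usc z c hc1
    have h2 : ContinuousAt (fun y : ℂ => c * ‖y‖ ^ (-β)) z := by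
      apply ContinuousAt.mul continuousAt_const
      exact (continuous_norm.continuousAt).rpow_const (Or.inl hz0.ne')
    have h3 : ∀ᶠ y in 𝓝 z, c * ‖y‖ ^ (-β) < b := h2.eventually (gt_mem_nhds hc2)
    filter_upwards [h1, h3] with y h4 h5
    have h6 : w y * ‖y‖ ^ (-β) ≤ c * ‖y‖ ^ (-β) :=
      mul_le_mul_of_nonneg_right h4.le (Real.rpow_nonneg (norm_nonneg y) _)
    exact h6.trans_lt h5
  obtain ⟨z, hz, hmax⟩ := UpperSemicontinuousOn.exists_isMaxOn hSn hSc husc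
  exact ⟨z, ((hSm z).1 hz).1, ((hSm z).1 hz).2, fun y h1 h2 => hmax ((hSm y).2 ⟨h1, h2⟩)⟩

theorem exists_rec {w : ℂ → ℝ} {R' C0 r0 β δ C r₁ : ℝ} (hw : NW w R' C0) (hr0 : 0 < r0)
    (hR : r0 < R') (hβδ : β < δ) (hδ : δ ≤ 1) (hr₁ : 0 < r₁)
    (hup : ∀ r, 0 < r → r < r₁ → VV w r ≤ C * r ^ δ)
    (hunb : ∀ M r1 : ℝ, 0 < r1 → ∃ r, 0 < r ∧ r < r1 ∧ M * r < VV w r) (κ₀ : ℝ) :
    ∃ κ ≥ κ₀, ∃ r, Rec w r0 β κ r ∧ κ * r ≤ C0 := by
  obtain ⟨κ, hκd⟩ : ∃ κ, κ = max κ₀ 1 := ⟨_, rfl⟩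
  have hκ0 : 0 < κ := by rw [hκd]; exact lt_max_of_lt_right one_pos
  have hκκ : κ₀ ≤ κ := by rw [hκd]; exact le_max_left _ _
  obtain ⟨s, hs0, hsr, hκs, htop⟩ := rec_top hw hr0 hκ0 hunb
  have hβ1 : β ≤ 1 := by linarith
  -- the choice of `ε`
  obtain ⟨ε, hε0, hεs, hεr, hε⟩ : ∃ ε, 0 < ε ∧ ε ≤ s ∧ ε < r₁ ∧
      ∀ x, 0 < x → x < ε → C * x ^ (δ - β) ≤ κ * s ^ (1 - β) := by
    have h1 : Tendsto (fun x : ℝ => C * x ^ (δ - β)) (𝓝 0) (𝓝 (C * 0)) := by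
      apply Tendsto.const_mul
      have h2 := (Real.continuousAt_rpow_const (0:ℝ) (δ - β) (Or.inr (by linarith))).tendsto
      rwa [Real.zero_rpow (by linarith)] at h2
    rw [mul_zero] at h1
    have h3 : 0 < κ * s ^ (1 - β) := mul_pos hκ0 (Real.rpow_pos_of_pos hs0 _)
    obtain ⟨e, he, h4⟩ := Metric.eventually_nhds_iff.1 (h1.eventually (ge_mem_nhds h3))
    refine ⟨min (min e s) (r₁ / 2), lt_min (lt_min he hs0) (by positivity),
      (min_le_left _ _).trans (min_le_right _ _), (min_le_right _ _).trans_lt (by linarith),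
      fun x hx hx2 => h4 ?_⟩
    rw [Real.dist_eq, sub_zero, abs_of_pos hx]
    exact hx2.trans_le ((min_le_left _ _).trans (min_le_left _ _))
  obtain ⟨z, hz1, hz2, hmax⟩ := rec_max (β := β) hw hε0 hεs
  obtain ⟨r, hrd⟩ : ∃ r, r = ‖z‖ := ⟨_, rfl⟩
  rw [← hrd] at hz1 hz2
  have hr : 0 < r := hε0.trans_le hz1
  have hsR : s < R' := hsr.trans_lt hR
  have hwz : w z ≤ VV w r := hw.le_VV hrd.ge
  have hrb : 0 < r ^ (-β) := Real.rpow_pos_of_pos hr _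
  have hkey1 : ∀ x, ε ≤ x → x ≤ s → VV w x * x ^ (-β) ≤ VV w r * r ^ (-β) := by
    intro x hx1 hx2
    obtain ⟨y, hy1, hy2⟩ := hw.exists_VV (hε0.trans_le hx1) (hx2.trans_lt hsR)
    have h1 := hmax y (by rw [hy1]; exact hx1) (by rw [hy1]; exact hx2)
    rw [hy1, hy2, ← hrd] at h1
    exact h1.trans (mul_le_mul_of_nonneg_right hwz hrb.le)
  have hkey2 : ∀ x, 0 < x → x ≤ s → VV w x * x ^ (-β) ≤ VV w r * r ^ (-β) := by
    intro x hx1 hx2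
    rcases le_or_gt ε x with h | h
    · exact hkey1 x h hx2
    · refine le_trans ?_ (hkey1 s hεs le_rfl)
      calc VV w x * x ^ (-β) ≤ C * x ^ δ * x ^ (-β) :=
            mul_le_mul_of_nonneg_right (hup x hx1 (h.trans hεr)) (Real.rpow_nonneg hx1.le _)
        _ = C * x ^ (δ - β) := by rw [mul_assoc, ← Real.rpow_add hx1, sub_eq_add_neg]
        _ ≤ κ * s ^ (1 - β) := hε x hx1 h
        _ = κ * s * s ^ (-β) := by
            rw [mul_assoc]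
            congr 1
            rw [sub_eq_add_neg, Real.rpow_add hs0, Real.rpow_one]
        _ ≤ VV w s * s ^ (-β) :=
            mul_le_mul_of_nonneg_right hκs (Real.rpow_nonneg hs0.le _)
  have hkey : ∀ x, 0 < x → x ≤ s → VV w x ≤ VV w r * (x / r) ^ β := by
    intro x hx1 hx2
    have h1 := hkey2 x hx1 hx2
    have hxb : 0 < x ^ β := Real.rpow_pos_of_pos hx1 _
    have h2 : x ^ (-β) * x ^ β = 1 := by
      rw [← Real.rpow_add hx1, neg_add_cancel, Real.rpow_zero]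
    have h3 : (x / r) ^ β = x ^ β * r ^ (-β) := by
      rw [Real.div_rpow hx1.le hr.le, Real.rpow_neg hr.le, div_eq_mul_inv]
    calc VV w x = VV w x * x ^ (-β) * x ^ β := by rw [mul_assoc, h2, mul_one]
      _ ≤ VV w r * r ^ (-β) * x ^ β := mul_le_mul_of_nonneg_right h1 hxb.le
      _ = VV w r * (x / r) ^ β := by rw [h3]; ring
  obtain ⟨κ', hκ'⟩ : ∃ κ', κ' = VV w r / r := ⟨_, rfl⟩
  have heq : VV w r = κ' * r := by rw [hκ']; field_simp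
  have hV0 : 0 ≤ VV w r := hw.VV_nonneg hr.le
  have hup1 : ∀ x, r ≤ x → x ≤ s → VV w x ≤ κ' * x := by
    intro x hx1 hx2
    have hx0 : 0 < x := hr.trans_le hx1
    have h1 : (x / r) ^ β ≤ x / r := by
      have h2 : 1 ≤ x / r := (one_le_div hr).2 hx1
      calc (x / r) ^ β ≤ (x / r) ^ (1:ℝ) := Real.rpow_le_rpow_of_exponent_le h2 hβ1
        _ = x / r := Real.rpow_one _
    calc VV w x ≤ VV w r * (x / r) ^ β := hkey x hx0 hx2
      _ ≤ VV w r * (x / r) := mul_le_mul_of_nonneg_left h1 hV0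
      _ = κ' * x := by rw [heq]; field_simp
  have hκκ' : κ ≤ κ' := by
    have h1 := hup1 s hz2 le_rfl
    have h2 : κ * s ≤ κ' * s := hκs.trans h1
    exact le_of_mul_le_mul_right h2 hs0
  have hκ'0 : 0 < κ' := hκ0.trans_le hκκ'
  refine ⟨κ', hκκ.trans hκκ', r, ⟨hr, hz2.trans hsr, heq, fun x hx1 hx2 => ?_,
    fun x hx1 hx2 => ?_⟩, ?_⟩
  · rcases le_or_gt x r with h | h
    · rw [max_eq_right h, ← heq]
      exact hw.VV_mono hx1.le h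
    · rw [max_eq_left h.le]
      rcases le_or_gt x s with h' | h'
      · exact hup1 x h.le h'
      · exact (htop x h' hx2).le.trans (mul_le_mul_of_nonneg_right hκκ' hx1.le)
  · rw [← heq]
    exact hkey x hx1 (hx2.trans hz2)
  · rw [← heq]
    exact hw.VV_le_C0 hr.le

end Pool.Agent.MP_ae5b4e_an_N5
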