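import Pool.Agent.Lib.MP_ae5b4e_an_N5.Dr
import Pool.Agent.Lib.MP_ae5b4e_an_N5.PL

/-!
# N5, module Seq: limits of rescaled functions

`u n` satisfies `NW` with radii `R n → ∞`, `u n z ≤ max 1 ‖z‖` and `u n x ≤ d n · max 1 |x|` on the
reals, `d n → 0`.  Then the regularised upper limit `ulim u` is subharmonic on `ℂ` and
`0 ≤ ulim u z ≤ |Im z|`.

Proof. `LocBdd`: `0 ≤ u n z' ≤ max 1 (‖z‖ + 1)` for `‖z' - z‖ < 1`, `n` large.  `subH_ulim`.
`ulim u z ≤ max 1 ‖z‖`: `ulim_le` and continuity of `max 1 ‖·‖`.  `0 ≤ ulim u z`: `le_ulim`.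
For real `x`: `NW.near` with `R := 4 (|x| + 1)`, `S := 2 R`, `δ := 1/2`, `b := d n * S` (use
`|d n|` if you like; `d n ≥ 0` may be assumed by `w ≥ 0`, or replace `d n` by `|d n|`):
`u n ρ ≤ |d n| S + 16 AA (u n) R |Im ρ|` for `‖ρ‖ ≤ R / 2`, and `AA (u n) R ≤ 2 VV (u n) R / R ≤ 2`.
So for every `ε > 0` `u n ρ ≤ ε` for `n` large and `ρ` near `x`: `ulim u x ≤ 0`.
Now apply `pl` to `ulim u`.

-/

set_option autoImplicit false

noncomputable section

namespace Pool.Agent.MP_ae5b4e_an_N5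

open Complex Set Filter Topology Metric
open Real (circleAverage)
open Pool.Agent.Lib.MP_ae5b4e_an_LL (SubH LocBdd ulim)
open scoped ComplexConjugate


variable {u : ℕ → ℂ → ℝ} {R C d : ℕ → ℝ}

private theorem seq_real (hu : ∀ n, NW (u n) (R n) (C n)) (hR : Tendsto R atTop atTop)
    (hd : Tendsto d atTop (𝓝 0)) (h1 : ∀ n z, ‖z‖ < R n → u n z ≤ max 1 ‖z‖)
    (h0 : ∀ n (x : ℝ), |x| < R n → u n x ≤ d n * max 1 |x|) (x : ℝ) {ε : ℝ} (hε : 0 < ε) :
    ∀ᶠ p in (atTop ×ˢ 𝓝 (x : ℂ) : Filter (ℕ × ℂ)), u p.1 p.2 ≤ ε := by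
  set T : ℝ := 4 * (|x| + 1) with hT
  have hx := abs_nonneg x
  have hT4 : 4 ≤ T := by linarith
  have hd1 : ∀ᶠ n in atTop, |d n| * (2 * T) < ε / 2 := by
    have h2 : Tendsto (fun n => |d n| * (2 * T)) atTop (𝓝 (|0| * (2 * T))) :=
      hd.abs.mul_const _
    rw [abs_zero, zero_mul] at h2
    exact h2.eventually_lt_const (half_pos hε)
  have hn : ∀ᶠ n in atTop, 2 * T ≤ R n ∧ |d n| * (2 * T) < ε / 2 :=
    (hR.eventually_ge_atTop _).and hd1
  have hz : ∀ᶠ ρ : ℂ in 𝓝 (x : ℂ), ‖ρ‖ < 1 / 2 * T ∧ |ρ.im| < ε / 64 := by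
    have h2 : ∀ᶠ ρ : ℂ in 𝓝 (x : ℂ), ‖ρ‖ < 1 / 2 * T := by
      refine continuous_norm.continuousAt.eventually_lt_const ?_
      change ‖(x : ℂ)‖ < 1 / 2 * T
      rw [Complex.norm_real, Real.norm_eq_abs]
      linarith
    have h3 : ∀ᶠ ρ : ℂ in 𝓝 (x : ℂ), |ρ.im| < ε / 64 := by
      have hc : Continuous fun ρ : ℂ => |ρ.im| := Complex.continuous_im.abs
      refine hc.continuousAt.eventually_lt_const ?_
      change |(x : ℂ).im| < ε / 64
      rw [Complex.ofReal_im, abs_zero]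
      positivity
    exact h2.and h3
  filter_upwards [hn.prod_mk hz] with p hp
  obtain ⟨⟨hp1, hp2⟩, hp3, hp4⟩ := hp
  have hb : ∀ y : ℝ, |y| < 2 * T → u p.1 y ≤ |d p.1| * (2 * T) := by
    intro y hy
    refine (h0 p.1 y (lt_of_lt_of_le hy hp1)).trans ?_
    have h4 : max 1 |y| ≤ 2 * T := max_le (by linarith) hy.le
    have h5 : (0 : ℝ) ≤ max 1 |y| := zero_le_one.trans (le_max_left _ _)
    calc d p.1 * max 1 |y| ≤ |d p.1| * max 1 |y| :=
          mul_le_mul_of_nonneg_right (le_abs_self _) h5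
      _ ≤ |d p.1| * (2 * T) := mul_le_mul_of_nonneg_left h4 (abs_nonneg _)
  have h4 := (hu p.1).near (R := T) (S := 2 * T) (b := |d p.1| * (2 * T)) (δ := 1 / 2)
    (by linarith) (by linarith) hp1 (by positivity) hb (by norm_num) (by norm_num) hp3.le
  have h5 : VV (u p.1) T ≤ T := by
    refine (hu p.1).VV_le (by linarith) fun z hz => ?_
    refine (h1 p.1 z (by linarith)).trans (max_le (by linarith) hz)
  have h6 : AA (u p.1) T ≤ 2 := by
    refine ((hu p.1).AA_le_VV (by linarith)).trans ?_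
    have h7 : VV (u p.1) T / T ≤ 1 := by
      rw [div_le_one (by linarith)]
      exact h5
    linarith
  have h8 : ((1 - (1 / 2 : ℝ)) ^ 4)⁻¹ = 16 := by norm_num
  rw [h8] at h4
  have h9 : AA (u p.1) T * |p.2.im| ≤ 2 * |p.2.im| :=
    mul_le_mul_of_nonneg_right h6 (abs_nonneg _)
  nlinarith

theorem seq_lim (hu : ∀ n, NW (u n) (R n) (C n)) (hR : Tendsto R atTop atTop)
    (hd : Tendsto d atTop (𝓝 0)) (h1 : ∀ n z, ‖z‖ < R n → u n z ≤ max 1 ‖z‖)
    (h0 : ∀ n (x : ℝ), |x| < R n → u n x ≤ d n * max 1 |x|) :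
    (∀ z, LocBdd u z) ∧ SubH (ulim u) univ ∧ (∀ z, 0 ≤ ulim u z) ∧ ∀ z, ulim u z ≤ |z.im| := by
  have hloc : ∀ z, LocBdd u z := by
    intro z
    refine ⟨0, ‖z‖ + 1, ?_⟩
    have h2 : ∀ᶠ ρ : ℂ in 𝓝 z, ‖ρ‖ < ‖z‖ + 1 :=
      continuous_norm.continuousAt.eventually_lt_const (by linarith)
    filter_upwards [(hR.eventually_ge_atTop (‖z‖ + 1)).prod_mk h2] with p hp
    refine ⟨(hu p.1).nonneg _, (h1 p.1 p.2 (lt_of_lt_of_le hp.2 hp.1)).trans ?_⟩
    exact max_le (by linarith [norm_nonneg z]) hp.2.le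
  have hsub : SubH (ulim u) univ := by
    refine Pool.Agent.Lib.MP_ae5b4e_an_LL.subH_ulim isOpen_univ (fun z _ => hloc z)
      fun z _ => ⟨1, one_pos, ?_⟩
    filter_upwards [hR.eventually_ge_atTop (‖z‖ + 1)] with n hn
    refine (hu n).sub.mono fun w hw => ?_
    rw [mem_ball, dist_eq_norm] at hw
    rw [mem_ball_zero_iff]
    have h2 := norm_add_le (w - z) z
    rw [sub_add_cancel] at h2
    linarith
  have hnn : ∀ z, 0 ≤ ulim u z := fun z =>
    Pool.Agent.Lib.MP_ae5b4e_an_LL.le_ulim (hloc z)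
      (Eventually.of_forall fun p : ℕ × ℂ => (hu p.1).nonneg p.2).frequently
  refine ⟨hloc, hsub, hnn, fun z => pl hsub ?_ ?_ z⟩
  · intro x
    refine le_of_forall_pos_le_add fun ε hε => ?_
    rw [zero_add]
    exact Pool.Agent.Lib.MP_ae5b4e_an_LL.ulim_le (hloc _) (seq_real hu hR hd h1 h0 x hε)
  · intro z
    refine le_of_forall_pos_le_add fun ε hε => ?_
    refine Pool.Agent.Lib.MP_ae5b4e_an_LL.ulim_le (hloc _) ?_
    have h2 : ∀ᶠ ρ : ℂ in 𝓝 z, ‖ρ‖ < ‖z‖ + 1 ∧ max 1 ‖ρ‖ < max 1 ‖z‖ + ε := by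
      have hc : Continuous fun ρ : ℂ => max 1 ‖ρ‖ := continuous_const.max continuous_norm
      exact (continuous_norm.continuousAt.eventually_lt_const (by linarith)).and
        (hc.continuousAt.eventually_lt_const (by linarith))
    filter_upwards [(hR.eventually_ge_atTop (‖z‖ + 1)).prod_mk h2] with p hp
    exact (h1 p.1 p.2 (lt_of_lt_of_le hp.2.1 hp.1)).trans hp.2.2.le

end Pool.Agent.MP_ae5b4e_an_N5
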