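import Pool.Agent.Lib.MP_ae5b4e_an_N5.Defs

/-!
# N5, module T1: the odd Poisson inequality on the half disc

`Z ≥ 0` is subharmonic on `ball 0 R'` and vanishes for `Im ≤ 0`; `0 < R < R'`.  For `‖ρ‖ < R`,
`Im ρ ≥ 0`: `Z ρ ≤ P[Z](ρ) - P[Z](conj ρ)`, `P = pint` the Poisson integral of the disc of radius
`R` (`Pool.Agent.Lib.MP_1f4a82_an.pint`).

Proof. `exists_antitone_approx` (LL/Int) gives continuous `g n`, antitone in `n`, `g n ≥ Z` on the
sphere and `g n → Z` pointwise on the sphere, `g n ≤ B`.  Put `l n ζ := g n (Re ζ - i |Im ζ|)`,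
continuous.  On the compact `K := {‖z‖ ≤ R, Im z ≥ 0}` with `V := {‖z‖ < R, Im z > 0}` use
`SubH.le_harmonic_of_compact` with `f = Z` and
`u z := dir (g n) 0 R z - dir (g n) 0 R (conj z) + dir (l n) 0 R z`, which is continuous on the
closed disc (`dir_continuousOn`) and harmonic inside (`dir_harmonicOnNhd`,
`harmonicAt_comp_conj`).  Points of `K \ V`: if `Im z = 0` then `Z z = 0` and the first two terms
cancel, `dir (l n) ≥ 0` (`l n ≥ 0` on the sphere because `l n ζ = g n (..) ≥ Z (..) ≥ 0`;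
`pint ≥ 0`, or the value on the sphere).  If `‖z‖ = R`, `Im z ≥ 0`: `u z = g n z - g n (conj z) +
l n z = g n z ≥ Z z`.  Hence `Z ρ ≤ pint (g n) ρ - pint (g n) (conj ρ) + pint (l n) ρ`.
Let `n → ∞`: for fixed `w` in the disc `pint (g n) 0 R w → pint Z 0 R w` and
`pint (l n) 0 R ρ → 0` by dominated convergence
(`intervalIntegral.tendsto_integral_filter_of_dominated_convergence`; everything is bounded by
`B` times the Poisson kernel, which is bounded on the sphere).

-/

set_option autoImplicit false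

noncomputable section

namespace Pool.Agent.MP_ae5b4e_an_N5

open Complex Set Filter Topology Metric
open Real (circleAverage)
open Pool.Agent.Lib.MP_ae5b4e_an_LL (SubH LocBdd ulim)
open scoped ComplexConjugate


open Pool.Agent.Lib.MP_1f4a82_an (pint)

variable {Z : ℂ → ℝ} {R' R : ℝ}

theorem ZZ.circleIntegrable (hZ : ZZ Z R') (hR : 0 < R) (hRR : R < R') :
    CircleIntegrable Z 0 R :=
  hZ.sub.circleIntegrable' hR (closedBall_subset_ball hRR)

open Pool.Agent.Lib.MP_1f4a82_an in
/-- the Poisson integral of a dominated sequence -/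
private theorem T1_tendsto_pint {R B : ℝ} (hR : 0 < R) {g : ℕ → ℂ → ℝ} {f : ℂ → ℝ}
    (hg : ∀ n, Continuous (g n)) (hb : ∀ n, ∀ z ∈ sphere (0 : ℂ) R, |g n z| ≤ B)
    (hl : ∀ z ∈ sphere (0 : ℂ) R, Tendsto (fun n => g n z) atTop (𝓝 (f z))) {w : ℂ}
    (hw : w ∈ ball (0 : ℂ) R) :
    Tendsto (fun n => pint (g n) 0 R w) atTop (𝓝 (pint f 0 R w)) := by
  have hmem : ∀ θ : ℝ, circleMap 0 R θ ∈ sphere (0 : ℂ) R := fun θ =>
    circleMap_mem_sphere 0 hR.le θ
  have hPc := continuousOn_poissonKernel hw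
  obtain ⟨MP, hMP⟩ := (isCompact_sphere (0 : ℂ) R).exists_bound_of_continuousOn hPc
  simp only [pint, Real.circleAverage_def]
  apply Tendsto.const_smul
  apply intervalIntegral.tendsto_integral_filter_of_dominated_convergence (fun _ => MP * B)
  · filter_upwards with n
    apply Continuous.aestronglyMeasurable
    rw [← continuousOn_univ]
    exact (hPc.smul (hg n).continuousOn).comp (continuous_circleMap 0 R).continuousOn
      (fun θ _ => hmem θ)
  · filter_upwards with n
    filter_upwards with θ _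
    rw [Pi.smul_apply', norm_smul]
    have h1 := hMP _ (hmem θ)
    have h2 := hb n _ (hmem θ)
    rw [← Real.norm_eq_abs] at h2
    exact mul_le_mul h1 h2 (norm_nonneg _) ((norm_nonneg _).trans h1)
  · exact intervalIntegrable_const
  · filter_upwards with θ _
    rw [Pi.smul_apply']
    apply Tendsto.const_smul
    exact hl _ (hmem θ)

open Pool.Agent.Lib.MP_1f4a82_an in
private theorem T1_pint_nonneg {R : ℝ} (hR : 0 < R) {g : ℂ → ℝ} (hg : Continuous g)
    (h0 : ∀ z ∈ sphere (0 : ℂ) R, 0 ≤ g z) {w : ℂ} (hw : w ∈ ball (0 : ℂ) R) :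
    0 ≤ pint g 0 R w := by
  have h1 : circleAverage (fun _ : ℂ => (0 : ℝ)) 0 R ≤
      circleAverage (poissonKernel 0 w • g) 0 R := by
    apply Real.circleAverage_mono (circleIntegrable_const _ _ _)
      (circleIntegrable_poissonKernel_smul hw (hg.continuousOn.circleIntegrable hR.le))
    intro z hz
    rw [abs_of_pos hR] at hz
    rw [Pi.smul_apply', smul_eq_mul]
    exact mul_nonneg (poissonKernel_nonneg_of hw hz) (h0 z hz)
  rw [Real.circleAverage_const] at h1
  exact h1

open Pool.Agent.Lib.MP_1f4a82_an in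
theorem ZZ.odd_poisson (hZ : ZZ Z R') (hR : 0 < R) (hRR : R < R') {ρ : ℂ} (hρ : ‖ρ‖ < R)
    (hi : 0 ≤ ρ.im) : Z ρ ≤ pint Z 0 R ρ - pint Z 0 R (conj ρ) := by
  have hcb : closedBall (0 : ℂ) R ⊆ ball 0 R' := closedBall_subset_ball hRR
  obtain ⟨g, hg1, hg2, hg3, hg4, B, hB1, hB2⟩ :=
    Pool.Agent.Lib.MP_ae5b4e_an_LL.exists_antitone_approx hR
      (hZ.sub.usc.mono (sphere_subset_closedBall.trans hcb))
  set fl : ℂ → ℂ := fun ζ => (ζ.re : ℂ) - (|ζ.im| : ℝ) * I with hfl
  have hflc : Continuous fl := by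
    simp only [hfl]
    fun_prop
  have hfl_im : ∀ ζ, (fl ζ).im ≤ 0 := by
    intro ζ
    simp [hfl]
  have hfl_norm : ∀ ζ, ‖fl ζ‖ = ‖ζ‖ := by
    intro ζ
    rw [Complex.norm_def, Complex.norm_def, Complex.normSq_apply, Complex.normSq_apply]
    simp [hfl]
  set l : ℕ → ℂ → ℝ := fun n ζ => g n (fl ζ) with hl
  have hlc : ∀ n, Continuous (l n) := fun n => (hg1 n).comp hflc
  have hflS : ∀ ζ ∈ sphere (0 : ℂ) R, fl ζ ∈ sphere (0 : ℂ) R := by
    intro ζ hζ
    rw [mem_sphere_zero_iff_norm] at hζ ⊢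
    rw [hfl_norm, hζ]
  have hg0 : ∀ n, ∀ ζ ∈ sphere (0 : ℂ) R, 0 ≤ g n ζ := fun n ζ hζ =>
    (hZ.nonneg ζ).trans (hg2 n ζ hζ)
  have hl0 : ∀ n, ∀ ζ ∈ sphere (0 : ℂ) R, 0 ≤ l n ζ := fun n ζ hζ => hg0 n _ (hflS ζ hζ)
  have hρb : ρ ∈ ball (0 : ℂ) R := by rwa [mem_ball_zero_iff]
  have hρc : conj ρ ∈ ball (0 : ℂ) R := by rwa [mem_ball_zero_iff, RCLike.norm_conj]
  -- the comparison
  have key : ∀ n, Z ρ ≤ pint (g n) 0 R ρ - pint (g n) 0 R (conj ρ) + pint (l n) 0 R ρ := by
    intro n
    have hgI : CircleIntegrable (g n) 0 R := (hg1 n).continuousOn.circleIntegrable hR.le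
    have hlI : CircleIntegrable (l n) 0 R := (hlc n).continuousOn.circleIntegrable hR.le
    have hdg : ContinuousOn (dir (g n) 0 R) (closedBall 0 R) :=
      dir_continuousOn hR (hg1 n).continuousOn
    have hdl : ContinuousOn (dir (l n) 0 R) (closedBall 0 R) :=
      dir_continuousOn hR (hlc n).continuousOn
    have hhg := dir_harmonicOnNhd hgI
    have hhl := dir_harmonicOnNhd hlI
    set u : ℂ → ℝ := fun z => dir (g n) 0 R z - dir (g n) 0 R (conj z) + dir (l n) 0 R z with hu
    set K : Set ℂ := closedBall 0 R ∩ {z | 0 ≤ z.im} with hKdef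
    set V : Set ℂ := ball 0 R ∩ {z | 0 < z.im} with hVdef
    have hK : IsCompact K :=
      (isCompact_closedBall 0 R).inter_right (isClosed_le continuous_const continuous_im)
    have hV : IsOpen V := isOpen_ball.inter (isOpen_lt continuous_const continuous_im)
    have hVK : V ⊆ K := fun z hz =>
      ⟨ball_subset_closedBall hz.1, (show 0 < z.im from hz.2).le⟩
    have hconjcb : ∀ z ∈ closedBall (0:ℂ) R, conj z ∈ closedBall (0:ℂ) R := fun z hz => by
      rw [mem_closedBall_zero_iff] at hz ⊢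
      rwa [RCLike.norm_conj]
    have hconjb : ∀ z ∈ ball (0:ℂ) R, conj z ∈ ball (0:ℂ) R := fun z hz => by
      rw [mem_ball_zero_iff] at hz ⊢
      rwa [RCLike.norm_conj]
    have huh : InnerProductSpace.HarmonicOnNhd u V := fun z hz =>
      ((hhg z hz.1).sub (harmonicAt_comp_conj (hhg _ (hconjb z hz.1)))).add (hhl z hz.1)
    have huc : ContinuousOn u K := by
      have h1 : ContinuousOn (fun z => dir (g n) 0 R (conj z)) (closedBall 0 R) :=
        hdg.comp Complex.continuous_conj.continuousOn hconjcb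
      exact ((hdg.sub h1).add hdl).mono inter_subset_left
    have hb : ∀ z ∈ K, z ∉ V → Z z ≤ u z := by
      intro z hz hzV
      have hzn : ‖z‖ ≤ R := mem_closedBall_zero_iff.1 hz.1
      have hzi : 0 ≤ z.im := hz.2
      rcases hzn.lt_or_eq with hlt | heq
      · have hzb : z ∈ ball (0:ℂ) R := mem_ball_zero_iff.2 hlt
        have him : z.im = 0 := by
          by_contra h
          exact hzV ⟨hzb, lt_of_le_of_ne hzi (Ne.symm h)⟩
        have hcz : conj z = z := Complex.conj_eq_iff_im.mpr him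
        have h1 := T1_pint_nonneg hR (hlc n) (hl0 n) hzb
        simp only [hu]
        rw [hcz, sub_self, zero_add, dir_of_mem_ball hzb, hZ.low z him.le]
        exact h1
      · have hzs : z ∈ sphere (0:ℂ) R := mem_sphere_zero_iff_norm.2 heq
        have hczs : conj z ∈ sphere (0:ℂ) R := by
          rw [mem_sphere_zero_iff_norm, RCLike.norm_conj, heq]
        have h1 : fl z = conj z := by
          apply Complex.ext
          · simp [hfl]
          · simp [hfl, abs_of_nonneg hzi]
        have h2 := hg2 n z hzs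
        simp only [hu]
        rw [dir_of_mem_sphere hzs, dir_of_mem_sphere hczs, dir_of_mem_sphere hzs]
        simp only [hl, h1]
        linarith
    have h1 := (hZ.sub.mono (inter_subset_left.trans (ball_subset_closedBall.trans hcb) :
      V ⊆ ball 0 R')).le_harmonic_of_compact hK hV hVK
      (hZ.sub.usc.mono (inter_subset_left.trans hcb)) huh huc hb ρ
      ⟨ball_subset_closedBall hρb, hi⟩
    simp only [hu] at h1
    rw [dir_of_mem_ball hρb, dir_of_mem_ball hρc, dir_of_mem_ball hρb] at h1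
    exact h1
  -- the limit
  have hbg : ∀ n, ∀ z ∈ sphere (0 : ℂ) R, |g n z| ≤ B := fun n z hz => by
    rw [abs_of_nonneg (hg0 n z hz)]
    exact hB2 n z
  have hbl : ∀ n, ∀ z ∈ sphere (0 : ℂ) R, |l n z| ≤ B := fun n z hz => hbg n _ (hflS z hz)
  have t1 := T1_tendsto_pint hR hg1 hbg hg4 hρb
  have t2 := T1_tendsto_pint hR hg1 hbg hg4 hρc
  have t3 := T1_tendsto_pint hR hlc hbl (f := fun _ => 0) (fun z hz => by
    have := hg4 _ (hflS z hz)
    rwa [hZ.low _ (hfl_im z)] at this) hρb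
  rw [pint_const hρb] at t3
  have t4 := (t1.sub t2).add t3
  rw [add_zero] at t4
  exact ge_of_tendsto t4 (Eventually.of_forall key)

end Pool.Agent.MP_ae5b4e_an_N5
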