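import Pool.Agent.Lib.MP_ae5b4e_an_N5.T1

/-!
# N5, module T1k: the odd Poisson inequality near the centre

For `‖ρ‖ ≤ δ R`, `Im ρ ≥ 0`, `0 < δ < 1`: `Z ρ ≤ (1 - δ)⁻⁴ AZ Z R · Im ρ`.

Proof. By `ZZ.odd_poisson` and linearity `Z ρ ≤ circleAverage (fun ζ => (P(ρ,ζ) - P(conj ρ,ζ)) Z ζ)`
with `P(ρ,ζ) = (R² - ‖ρ‖²) / ‖ζ - ρ‖²`.  For `‖ζ‖ = R`, `Im ζ ≥ 0`:
`‖ζ - conj ρ‖² - ‖ζ - ρ‖² = 4 Im ρ Im ζ`, so
`P(ρ,ζ) - P(conj ρ,ζ) = (R² - ‖ρ‖²) 4 Im ρ Im ζ / (‖ζ - ρ‖² ‖ζ - conj ρ‖²)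
  ≤ R² 4 Im ρ Im ζ / (R - ‖ρ‖)⁴ ≤ (4 / R²) (1 - δ)⁻⁴ Im ρ Im ζ`.
For `Im ζ < 0` we have `Z ζ = 0`.  Integrate (`circleAverage` is monotone).

-/

set_option autoImplicit false

noncomputable section

namespace Pool.Agent.MP_ae5b4e_an_N5

open Complex Set Filter Topology Metric
open Real (circleAverage)
open Pool.Agent.Lib.MP_ae5b4e_an_LL (SubH LocBdd ulim)
open scoped ComplexConjugate


variable {Z : ℂ → ℝ} {R' R δ : ℝ}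

open Pool.Agent.Lib.MP_1f4a82_an (pint)

private theorem T1k_kernel {ρ ζ : ℂ} (hR : 0 < R) (hδ1 : δ < 1)
    (hρ : ‖ρ‖ ≤ δ * R) (hi : 0 ≤ ρ.im) (hζ : ‖ζ‖ = R) (hζi : 0 ≤ ζ.im) :
    poissonKernel 0 ρ ζ - poissonKernel 0 (conj ρ) ζ ≤
      ((1 - δ) ^ 4)⁻¹ * (4 / R ^ 2) * ρ.im * ζ.im := by
  have hc : ‖conj ρ‖ = ‖ρ‖ := RCLike.norm_conj ρ
  simp only [poissonKernel_def, sub_zero, hc, hζ]
  have hAB : ‖ζ - conj ρ‖ ^ 2 - ‖ζ - ρ‖ ^ 2 = 4 * ρ.im * ζ.im := by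
    rw [Complex.sq_norm, Complex.sq_norm, Complex.normSq_apply, Complex.normSq_apply]
    simp only [Complex.sub_re, Complex.sub_im, Complex.conj_re, Complex.conj_im]
    ring
  have hd : 0 < (1 - δ) * R := mul_pos (by linarith) hR
  have hA : ((1 - δ) * R) ^ 2 ≤ ‖ζ - ρ‖ ^ 2 := by
    refine pow_le_pow_left₀ hd.le ?_ 2
    have := norm_sub_norm_le ζ ρ
    linarith
  have hB : ((1 - δ) * R) ^ 2 ≤ ‖ζ - conj ρ‖ ^ 2 := by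
    refine pow_le_pow_left₀ hd.le ?_ 2
    have := norm_sub_norm_le ζ (conj ρ)
    linarith
  have hd2 : 0 < ((1 - δ) * R) ^ 2 := pow_pos hd 2
  have hA0 : 0 < ‖ζ - ρ‖ ^ 2 := hd2.trans_le hA
  have hB0 : 0 < ‖ζ - conj ρ‖ ^ 2 := hd2.trans_le hB
  have hN : R ^ 2 - ‖ρ‖ ^ 2 ≤ R ^ 2 := by
    have := sq_nonneg ‖ρ‖
    linarith
  have h4 : 0 ≤ 4 * ρ.im * ζ.im := by positivity
  rw [div_sub_div _ _ hA0.ne' hB0.ne']
  have e1 : (R ^ 2 - ‖ρ‖ ^ 2) * ‖ζ - conj ρ‖ ^ 2 - ‖ζ - ρ‖ ^ 2 * (R ^ 2 - ‖ρ‖ ^ 2) =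
      (R ^ 2 - ‖ρ‖ ^ 2) * (4 * ρ.im * ζ.im) := by
    rw [← hAB]; ring
  rw [e1]
  refine (div_le_div₀ (mul_nonneg (sq_nonneg R) h4) (mul_le_mul_of_nonneg_right hN h4)
    (mul_pos hd2 hd2) (mul_le_mul hA hB hd2.le hA0.le)).trans (le_of_eq ?_)
  have h1 : (1 - δ) ≠ 0 := by linarith
  field_simp

theorem ZZ.near (hZ : ZZ Z R') (hR : 0 < R) (hRR : R < R') (hδ : 0 < δ) (hδ1 : δ < 1) {ρ : ℂ}
    (hρ : ‖ρ‖ ≤ δ * R) (hi : 0 ≤ ρ.im) : Z ρ ≤ ((1 - δ) ^ 4)⁻¹ * AZ Z R * ρ.im := by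
  have hρR : ‖ρ‖ < R := by
    have : δ * R < 1 * R := mul_lt_mul_of_pos_right hδ1 hR
    linarith
  have hI := hZ.circleIntegrable hR hRR
  have m1 : ρ ∈ ball (0 : ℂ) R := by rwa [mem_ball_zero_iff]
  have m2 : conj ρ ∈ ball (0 : ℂ) R := by
    rw [mem_ball_zero_iff, RCLike.norm_conj]
    exact hρR
  have i1 := Pool.Agent.Lib.MP_1f4a82_an.circleIntegrable_poissonKernel_smul m1 hI
  have i2 := Pool.Agent.Lib.MP_1f4a82_an.circleIntegrable_poissonKernel_smul m2 hI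
  have i3 : CircleIntegrable (fun z : ℂ => Z z * z.im) 0 R := by
    have h := hI.continuousOn_smul (g := fun z : ℂ => z.im) Complex.continuous_im.continuousOn
    have e : ((fun z : ℂ => z.im) • Z) = fun z : ℂ => Z z * z.im := by
      funext z
      exact mul_comm _ _
    rwa [e] at h
  refine (hZ.odd_poisson hR hRR hρR hi).trans ?_
  have e1 : pint Z 0 R ρ - pint Z 0 R (conj ρ) =
      circleAverage (poissonKernel 0 ρ • Z - poissonKernel 0 (conj ρ) • Z) 0 R :=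
    (Real.circleAverage_sub i1 i2).symm
  have e2 : ((1 - δ) ^ 4)⁻¹ * AZ Z R * ρ.im =
      circleAverage (fun z => (((1 - δ) ^ 4)⁻¹ * (4 / R ^ 2) * ρ.im) • (Z z * z.im)) 0 R := by
    rw [Real.circleAverage_fun_smul, smul_eq_mul]
    unfold AZ
    ring
  rw [e1, e2]
  refine Real.circleAverage_mono (i1.sub i2) (i3.const_fun_smul) ?_
  intro ζ hζ
  rw [abs_of_pos hR, mem_sphere_zero_iff_norm] at hζ
  change poissonKernel 0 ρ ζ * Z ζ - poissonKernel 0 (conj ρ) ζ * Z ζ ≤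
    ((1 - δ) ^ 4)⁻¹ * (4 / R ^ 2) * ρ.im * (Z ζ * ζ.im)
  rcases le_or_gt ζ.im 0 with h | h
  · rw [hZ.low ζ h]
    simp
  · have h1 := T1k_kernel hR hδ1 hρ hi hζ h.le
    have h2 := mul_le_mul_of_nonneg_right h1 (hZ.nonneg ζ)
    linarith

end Pool.Agent.MP_ae5b4e_an_N5
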