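import Pool.Agent.Lib.MP_ae5b4e_an_N5.Seq

/-!
# N5, module Upp: the upper bound by compactness

Proof. Otherwise for every `n` (radius `R₁ + 1 + n`, `d = 1 / (n + 1)`) there is a counterexample
`u n` with a point `z n`, `‖z n‖ ≤ R₁`, `u n (z n) > |Im (z n)| + e`.  By `seq_lim`
`ulim u z ≤ |Im z| < |Im z| + e` on `closedBall 0 R₁`; `exists_unif_of_ulim_lt` (LL/Lim) with
`g z = |Im z| + e` gives `u n z < |Im z| + e` on `closedBall 0 R₁` for large `n`: contradiction.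

-/

set_option autoImplicit false

noncomputable section

namespace Pool.Agent.MP_ae5b4e_an_N5

open Complex Set Filter Topology Metric
open Real (circleAverage)
open Pool.Agent.Lib.MP_ae5b4e_an_LL (SubH LocBdd ulim)
open scoped ComplexConjugate


theorem upper {e R₁ : ℝ} (he : 0 < e) (hR : 0 < R₁) : ∃ R₂ > R₁, ∃ d > 0, ∀ (w : ℂ → ℝ) (C0 : ℝ),
    NW w R₂ C0 → (∀ z, ‖z‖ < R₂ → w z ≤ max 1 ‖z‖) → (∀ x : ℝ, |x| < R₂ → w x ≤ d * max 1 |x|) →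
    ∀ z, ‖z‖ ≤ R₁ → w z ≤ |z.im| + e := by
  by_contra hcon
  push Not at hcon
  have hex : ∀ n : ℕ, ∃ (w : ℂ → ℝ) (C0 : ℝ), NW w (R₁ + 1 + n) C0 ∧
      (∀ z, ‖z‖ < R₁ + 1 + n → w z ≤ max 1 ‖z‖) ∧
      (∀ x : ℝ, |x| < R₁ + 1 + n → w x ≤ 1 / ((n : ℝ) + 1) * max 1 |x|) ∧
      ∃ z, ‖z‖ ≤ R₁ ∧ |z.im| + e < w z := fun n =>
    hcon (R₁ + 1 + n) (by
      have : (0:ℝ) ≤ n := Nat.cast_nonneg n
      linarith) (1 / ((n : ℝ) + 1)) (by positivity)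
  choose u C hNW h1 h0 z hz hlt using hex
  have hR' : Tendsto (fun n : ℕ => R₁ + 1 + (n : ℝ)) atTop atTop :=
    tendsto_atTop_add_const_left _ _ tendsto_natCast_atTop_atTop
  have hd : Tendsto (fun n : ℕ => 1 / ((n : ℝ) + 1)) atTop (𝓝 0) :=
    tendsto_one_div_add_atTop_nhds_zero_nat
  obtain ⟨hb, -, -, hle⟩ := seq_lim hNW hR' hd h1 h0
  obtain ⟨N, O, -, hKO, hN⟩ := Pool.Agent.Lib.MP_ae5b4e_an_LL.exists_unif_of_ulim_lt
    (isCompact_closedBall (0:ℂ) R₁) (fun z _ => hb z) (g := fun z => |z.im| + e) (by fun_prop)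
    (fun z _ => lt_of_le_of_lt (hle z) (by linarith))
  have h2 := hN N le_rfl (z N) (hKO (mem_closedBall_zero_iff.2 (hz N)))
  exact lt_asymm (hlt N) h2

end Pool.Agent.MP_ae5b4e_an_N5
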